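import Pool.Agent.GO.Defs
import Pool.Agent.H36.MinNum.MaxSet

/-!
Auxiliary definitions for the project on the orbit of the r.e. generic sets.
-/

set_option autoImplicit false

namespace Pool.Agent.GO

open Pool.Agent.H36.LFI (SD)

/-- `A` is an r.e. set (primitive recursive approximations). -/
def RE (A : Set ℕ) : Prop := SD (fun n => n ∈ A)

open Classical in
/-- The pattern of the number `n` with respect to `A` and `Y`. -/
noncomputable def patt {N : ℕ} (A : Set ℕ) (Y : Fin N → Set ℕ) (n : ℕ) :
    Bool × (Fin N → Bool) :=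
  (decide (n ∈ A), fun i => decide (n ∈ Y i))

open Classical in
/-- The pattern of the number `n` with respect to `Z`. -/
noncomputable def zpat {m : ℕ} (Z : Fin m → Set ℕ) (n : ℕ) : Fin m → Bool :=
  fun i => decide (n ∈ Z i)

/-- The second player wins the finite game from the position `(q, z)`, reached by a move of the
first player: he can answer by a larger `z'` which is allowed at `q` and from which he wins
after every move of the first player to a larger position `q' ∈ Q`. -/
inductive Win {Pos St : Type} [PartialOrder Pos] [PartialOrder St] (Q : Set Pos)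
    (P : Set (Pos × St)) : Pos → St → Prop
  | mk (q : Pos) (z z' : St) : z ≤ z' → (q, z') ∈ P →
      (∀ q' ∈ Q, q < q' → Win Q P q' z') → Win Q P q z

/-- The join of two sets. -/
def join (A C : Set ℕ) : Set ℕ :=
  {n | (n % 2 = 0 ∧ n / 2 ∈ A) ∨ (n % 2 = 1 ∧ n / 2 ∈ C)}

/-- `M` is a maximal set. -/
def IsMax (M : Set ℕ) : Prop :=
  RE M ∧ Mᶜ.Infinite ∧ ∀ V, RE V → (V \ M).Finite ∨ (Mᶜ \ V).Finite

/-- The function `g` is a computable approximation of the set of all `e` such that `W e` meets
`S`. -/
def IsApprox (S : Set ℕ) (g : ℕ → ℕ → Bool) : Prop :=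
  Computable₂ g ∧ ∀ e, ∃ s₀, ∀ s, s₀ ≤ s → (g e s = true ↔ (W e ∩ S).Nonempty)

end Pool.Agent.GO
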