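import Pool.Agent.GO.Base

/-!
The construction, part A: the semidecidable stage relation.
-/

set_option autoImplicit false
set_option linter.unusedSectionVars false

namespace Pool.Agent.GO

open Pool.Agent.H36.LFI (SD)
open Pool.Agent.H36.MinNum

/-! ### Primitive recursive predicates -/

section Prim

variable {α β γ : Type} [Primcodable α] [Primcodable β] [Primcodable γ]

theorem con_ball {p : α → ℕ → Prop} {n : α → ℕ} (hn : Primrec n)
    (h : PrimrecPred (fun x : α × ℕ => p x.1 x.2)) :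
    PrimrecPred (fun a => ∀ i, i < n a → p a i) := by
  have h1 : PrimrecRel (fun (i : ℕ) (a : α) => p a i) :=
    h.comp (Primrec.pair Primrec.snd Primrec.fst)
  have h2 := (h1.forall_mem_list).comp (Primrec.list_range.comp hn) Primrec.id
  exact h2.of_eq (fun a => by simp)

theorem con_bex {p : α → ℕ → Prop} {n : α → ℕ} (hn : Primrec n)
    (h : PrimrecPred (fun x : α × ℕ => p x.1 x.2)) :
    PrimrecPred (fun a => ∃ i, i < n a ∧ p a i) := by
  have h1 : PrimrecRel (fun (i : ℕ) (a : α) => p a i) :=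
    h.comp (Primrec.pair Primrec.snd Primrec.fst)
  have h2 := (h1.exists_mem_list).comp (Primrec.list_range.comp hn) Primrec.id
  exact h2.of_eq (fun a => by simp)

theorem con_eq {f g : α → β} (hf : Primrec f) (hg : Primrec g) :
    PrimrecPred (fun a => f a = g a) := Primrec.eq.comp hf hg
theorem con_lt {f g : α → ℕ} (hf : Primrec f) (hg : Primrec g) :
    PrimrecPred (fun a => f a < g a) := Primrec.nat_lt.comp hf hg
theorem con_le {f g : α → ℕ} (hf : Primrec f) (hg : Primrec g) :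
    PrimrecPred (fun a => f a ≤ g a) := Primrec.nat_le.comp hf hg
theorem con_ne {f g : α → β} (hf : Primrec f) (hg : Primrec g) :
    PrimrecPred (fun a => f a ≠ g a) := PrimrecPred.not (con_eq hf hg)
theorem con_and {p q : α → Prop} (hp : PrimrecPred p) (hq : PrimrecPred q) :
    PrimrecPred (fun a => p a ∧ q a) := hp.and hq
theorem con_or {p q : α → Prop} (hp : PrimrecPred p) (hq : PrimrecPred q) :
    PrimrecPred (fun a => p a ∨ q a) := hp.or hq
theorem con_not {p : α → Prop} (hp : PrimrecPred p) :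
    PrimrecPred (fun a => ¬ p a) := hp.not
theorem con_mem {l : α → List ℕ} {f : α → ℕ} (hl : Primrec l) (hf : Primrec f) :
    PrimrecPred (fun a => f a ∈ l a) := by
  have h1 : PrimrecRel (fun (b : ℕ) (x : ℕ) => b = x) := Primrec.eq
  have h2 : PrimrecRel (fun (L : List ℕ) (x : ℕ) => ∃ b ∈ L, b = x) := h1.exists_mem_list
  exact (h2.comp hl hf).of_eq (fun x => by simp)
theorem con_fin [Finite α] {g : γ → α} (f : α → β) (hg : Primrec g) :
    Primrec (fun a => f (g a)) := (Primrec.dom_finite f).comp hg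
theorem con_getD {f : α → List β} {g : α → ℕ} (d : β) (hf : Primrec f) (hg : Primrec g) :
    Primrec (fun a => (f a).getD (g a) d) := (Primrec.list_getD d).comp hf hg
theorem con_len {f : α → List β} (h : Primrec f) :
    Primrec (fun a => (f a).length) := Primrec.list_length.comp h

end Prim

/-- The data of the construction. -/
structure Dat (Pos St PP : Type) [Primcodable Pos] [Primcodable St] [Primcodable PP] where
  b : Pos → Bool
  p0 : Pos
  P0 : PP
  sp : List Pos
  lp : List Pos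
  d : Pos → Pos
  st : PP → Pos
  mv : PP → Pos → St → Pos
  zs : ℕ → ℕ → ℕ → St
  hzs : Primrec (fun x : ℕ × ℕ × ℕ => zs x.1 x.2.1 x.2.2)

section Defs

variable {Pos St PP : Type} [Primcodable Pos] [Primcodable St] [Primcodable PP]
  (D : Dat Pos St PP)

/-- the entry of the element `n` -/
def Dat.ent (L : List (Pos × ℕ)) (n : ℕ) : Pos × ℕ := L.getD n (D.p0, 0)
/-- the parameter with number `k` -/
def Dat.pp (k : ℕ) : PP := (Encodable.decode (α := PP) k).getD D.P0
/-- the bound of the requirement of prompt simplicity -/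
def Dat.bd (e : ℕ) : ℕ := 4 * D.lp.length * (e + 1) + D.sp.length
/-- the position to which the requirement `r` wants to move the element `n` -/
def Dat.tgt (s : ℕ) (L : List (Pos × ℕ)) (r n : ℕ) : Pos :=
  D.mv (D.pp r.unpair.2) (D.ent L n).1 (D.zs r.unpair.1 (s + 1) n)
/-- `n` is in `W j` and outside of `A` -/
def Dat.Out (s : ℕ) (L : List (Pos × ℕ)) (j n : ℕ) : Prop :=
  bb j (s + 1) n = 1 ∧ D.b (D.ent L n).1 = false
/-- `n` is the element which is protected for `j` -/
def Dat.Prot (s : ℕ) (L : List (Pos × ℕ)) (j n : ℕ) : Prop :=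
  n < L.length ∧ D.Out s L j n ∧ ∀ i, i < n → ¬ D.Out s L j i
/-- `n` is protected against the priority `p` -/
def Dat.Blk (s : ℕ) (L : List (Pos × ℕ)) (p n : ℕ) : Prop :=
  ∃ j, j < p ∧ D.Prot s L j n
/-- `n` is the witness of `r`, and `r` wants to move it -/
def Dat.WantR (s : ℕ) (L : List (Pos × ℕ)) (r n : ℕ) : Prop :=
  n < L.length ∧ (D.ent L n).2 = r + 1 ∧ D.tgt s L r n ≠ (D.ent L n).1
/-- the requirement `e` of prompt simplicity wants to put `n` in `A` -/
def Dat.WantP (s : ℕ) (L : List (Pos × ℕ)) (S : List ℕ) (e n : ℕ) : Prop :=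
  ¬ e ∈ S ∧ n < L.length ∧ D.bd e ≤ n ∧ bb e (s + 1) n = 1 ∧ bb e s n = 0 ∧
    D.b (D.ent L n).1 = false ∧ ¬ D.Blk s L (2 * e + 1) n ∧
    ∀ r, r < e + 1 → (D.ent L n).2 ≠ r + 1
/-- the requirement with priority `p` wants to act -/
def Dat.Want (s : ℕ) (L : List (Pos × ℕ)) (S : List ℕ) (p : ℕ) : Prop :=
  ∃ n, n < L.length ∧ ((p % 2 = 0 ∧ D.WantR s L (p / 2) n) ∨
    (p % 2 = 1 ∧ D.WantP s L S (p / 2) n))
/-- `L'` is `L` with the entry of `n` replaced by `v` -/
def Dat.Upd (L L' : List (Pos × ℕ)) (n : ℕ) (v : Pos × ℕ) : Prop :=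
  L'.length = L.length ∧ ∀ i, i < L.length →
    ((i = n ∧ D.ent L' i = v) ∨ (i ≠ n ∧ D.ent L' i = D.ent L i))
/-- a move into `A` is blocked -/
def Dat.Bad (s : ℕ) (L : List (Pos × ℕ)) (r n : ℕ) : Prop :=
  D.b (D.ent L n).1 = false ∧ D.b (D.tgt s L r n) = true ∧ D.Blk s L (2 * r) n
/-- the action of the witness requirement `r` on `n` -/
def Dat.ActR (s : ℕ) (L : List (Pos × ℕ)) (S : List ℕ) (L' : List (Pos × ℕ)) (S' : List ℕ)
    (r n : ℕ) : Prop :=
  D.WantR s L r n ∧ S' = S ∧
    ((D.Bad s L r n ∧ D.Upd L L' n ((D.ent L n).1, 0)) ∨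
      (¬ D.Bad s L r n ∧ D.Upd L L' n (D.tgt s L r n, r + 1)))
/-- the action of the requirement `e` of prompt simplicity on `n` -/
def Dat.ActP (s : ℕ) (L : List (Pos × ℕ)) (S : List ℕ) (L' : List (Pos × ℕ)) (S' : List ℕ)
    (e n : ℕ) : Prop :=
  D.WantP s L S e n ∧ S' = e :: S ∧ D.Upd L L' n (D.d (D.ent L n).1, 0)
/-- the action -/
def Dat.Step (s : ℕ) (L : List (Pos × ℕ)) (S : List ℕ) (L' : List (Pos × ℕ)) (S' : List ℕ) :
    Prop :=
  (∃ p, p < s + 1 ∧ (∀ p', p' < p → ¬ D.Want s L S p') ∧ ∃ n, n < L.length ∧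
    ((p % 2 = 0 ∧ D.ActR s L S L' S' (p / 2) n) ∨ (p % 2 = 1 ∧ D.ActP s L S L' S' (p / 2) n))) ∨
  ((∀ p', p' < s + 1 → ¬ D.Want s L S p') ∧ L' = L ∧ S' = S)
/-- the new element gets the entry `v` -/
def Dat.Birth (s : ℕ) (L : List (Pos × ℕ)) (v : Pos × ℕ) : Prop :=
  (s < D.sp.length ∧ v = (D.sp.getD s D.p0, 0)) ∨
  (D.sp.length ≤ s ∧ s % 2 = 0 ∧ v = (D.lp.getD (s / 2 % D.lp.length) D.p0, 0)) ∨
  (D.sp.length ≤ s ∧ s % 2 = 1 ∧ ∃ r, r < L.length + 1 ∧
    (∀ r', r' < r → ∃ n, n < L.length ∧ (D.ent L n).2 = r' + 1) ∧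
    (∀ n, n < L.length → (D.ent L n).2 ≠ r + 1) ∧ v = (D.st (D.pp r.unpair.2), r + 1))
/-- the stage relation -/
def Dat.Rel (s : ℕ) (σ σ' : List (Pos × ℕ) × List ℕ) : Prop :=
  ∃ v : Pos × ℕ, D.Birth s σ.1 v ∧ D.Step s (σ.1 ++ [v]) σ.2 σ'.1 σ'.2

end Defs

/-! ### Primitive recursiveness -/

section PR

variable {Pos St PP : Type} [Primcodable Pos] [Finite Pos] [Primcodable St] [Finite St]
  [Primcodable PP] [Finite PP] (D : Dat Pos St PP) {α : Type} [Primcodable α]

omit [Finite Pos] [Finite St] [Finite PP] in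
theorem con_ent {L : α → List (Pos × ℕ)} {n : α → ℕ} (hL : Primrec L) (hn : Primrec n) :
    Primrec (fun a => D.ent (L a) (n a)) := con_getD _ hL hn
omit [Finite Pos] [Finite St] [Finite PP] in
theorem con_pp {k : α → ℕ} (hk : Primrec k) : Primrec (fun a => D.pp (k a)) :=
  Primrec.option_getD.comp (Primrec.decode.comp hk) (Primrec.const _)
theorem con_tgt {s r n : α → ℕ} {L : α → List (Pos × ℕ)} (hs : Primrec s) (hL : Primrec L)
    (hr : Primrec r) (hn : Primrec n) : Primrec (fun a => D.tgt (s a) (L a) (r a) (n a)) := by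
  have h1 : Primrec (fun a => ((D.pp (r a).unpair.2, (D.ent (L a) (n a)).1,
      D.zs (r a).unpair.1 (s a + 1) (n a)) : PP × Pos × St)) := by
    refine Primrec.pair (con_pp D (p_snd (p_unpair hr))) (Primrec.pair (p_fst (con_ent D hL hn)) ?_)
    exact D.hzs.comp (Primrec.pair (p_fst (p_unpair hr))
      (Primrec.pair (p_add hs (p_const 1)) hn))
  exact con_fin (fun x : PP × Pos × St => D.mv x.1 x.2.1 x.2.2) h1
omit [Finite St] [Finite PP] in
theorem con_Out {s j n : α → ℕ} {L : α → List (Pos × ℕ)} (hs : Primrec s) (hL : Primrec L)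
    (hj : Primrec j) (hn : Primrec n) :
    PrimrecPred (fun a => D.Out (s a) (L a) (j a) (n a)) := by
  refine con_and (con_eq (p_bb hj (p_add hs (p_const 1)) hn) (p_const 1)) ?_
  exact con_eq (con_fin D.b (p_fst (con_ent D hL hn))) (p_const false)
theorem con_Prot {s j n : α → ℕ} {L : α → List (Pos × ℕ)} (hs : Primrec s) (hL : Primrec L)
    (hj : Primrec j) (hn : Primrec n) :
    PrimrecPred (fun a => D.Prot (s a) (L a) (j a) (n a)) := by
  refine con_and (con_lt hn (con_len hL)) (con_and (con_Out D hs hL hj hn) ?_)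
  refine con_ball hn (con_not ?_)
  exact con_Out D (hs.comp Primrec.fst) (hL.comp Primrec.fst) (hj.comp Primrec.fst) Primrec.snd
theorem con_Blk {s p n : α → ℕ} {L : α → List (Pos × ℕ)} (hs : Primrec s) (hL : Primrec L)
    (hp : Primrec p) (hn : Primrec n) :
    PrimrecPred (fun a => D.Blk (s a) (L a) (p a) (n a)) :=
  con_bex hp (con_Prot D (hs.comp Primrec.fst) (hL.comp Primrec.fst) Primrec.snd
    (hn.comp Primrec.fst))
theorem con_WantR {s r n : α → ℕ} {L : α → List (Pos × ℕ)} (hs : Primrec s) (hL : Primrec L)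
    (hr : Primrec r) (hn : Primrec n) :
    PrimrecPred (fun a => D.WantR (s a) (L a) (r a) (n a)) :=
  con_and (con_lt hn (con_len hL)) (con_and
    (con_eq (p_snd (con_ent D hL hn)) (p_add hr (p_const 1)))
    (con_ne (con_tgt D hs hL hr hn) (p_fst (con_ent D hL hn))))
omit [Finite Pos] [Finite St] [Finite PP] in
theorem con_bd {e : α → ℕ} (he : Primrec e) : Primrec (fun a => D.bd (e a)) :=
  p_add (p_mul (p_mul (p_const 4) (p_const _)) (p_add he (p_const 1))) (p_const _)
theorem con_WantP {s e n : α → ℕ} {L : α → List (Pos × ℕ)} {S : α → List ℕ} (hs : Primrec s)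
    (hL : Primrec L) (hS : Primrec S) (he : Primrec e) (hn : Primrec n) :
    PrimrecPred (fun a => D.WantP (s a) (L a) (S a) (e a) (n a)) := by
  refine con_and (con_not (con_mem hS he)) (con_and (con_lt hn (con_len hL)) (con_and
    (con_le (con_bd D he) hn) (con_and (con_eq (p_bb he (p_add hs (p_const 1)) hn) (p_const 1))
    (con_and (con_eq (p_bb he hs hn) (p_const 0)) (con_and
    (con_eq (con_fin D.b (p_fst (con_ent D hL hn))) (p_const false)) (con_and
    (con_not (con_Blk D hs hL (p_add (p_mul (p_const 2) he) (p_const 1)) hn)) ?_))))))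
  refine con_ball (p_add he (p_const 1)) ?_
  exact con_ne (p_snd (con_ent D (hL.comp Primrec.fst) (hn.comp Primrec.fst)))
    (p_add Primrec.snd (p_const 1))
theorem con_Want {s p : α → ℕ} {L : α → List (Pos × ℕ)} {S : α → List ℕ} (hs : Primrec s)
    (hL : Primrec L) (hS : Primrec S) (hp : Primrec p) :
    PrimrecPred (fun a => D.Want (s a) (L a) (S a) (p a)) := by
  have hs' := hs.comp (Primrec.fst (α := α) (β := ℕ))
  have hL' := hL.comp (Primrec.fst (α := α) (β := ℕ))
  have hS' := hS.comp (Primrec.fst (α := α) (β := ℕ))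
  have hp' := hp.comp (Primrec.fst (α := α) (β := ℕ))
  refine con_bex (con_len hL) (con_or (con_and (con_eq (p_mod hp' (p_const 2)) (p_const 0)) ?_)
    (con_and (con_eq (p_mod hp' (p_const 2)) (p_const 1)) ?_))
  · exact con_WantR D hs' hL' (p_div hp' (p_const 2)) Primrec.snd
  · exact con_WantP D hs' hL' hS' (p_div hp' (p_const 2)) Primrec.snd
omit [Finite Pos] [Finite St] [Finite PP] in
theorem con_Upd {n : α → ℕ} {L L' : α → List (Pos × ℕ)} {v : α → Pos × ℕ} (hL : Primrec L)
    (hL' : Primrec L') (hn : Primrec n) (hv : Primrec v) :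
    PrimrecPred (fun a => D.Upd (L a) (L' a) (n a) (v a)) := by
  refine con_and (con_eq (con_len hL') (con_len hL)) (con_ball (con_len hL) (con_or
    (con_and (con_eq Primrec.snd (hn.comp Primrec.fst)) (con_eq ?_ (hv.comp Primrec.fst)))
    (con_and (con_ne Primrec.snd (hn.comp Primrec.fst)) (con_eq ?_ ?_))))
  · exact con_getD _ (hL'.comp Primrec.fst) Primrec.snd
  · exact con_getD _ (hL'.comp Primrec.fst) Primrec.snd
  · exact con_getD _ (hL.comp Primrec.fst) Primrec.snd
theorem con_Bad {s r n : α → ℕ} {L : α → List (Pos × ℕ)} (hs : Primrec s) (hL : Primrec L)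
    (hr : Primrec r) (hn : Primrec n) :
    PrimrecPred (fun a => D.Bad (s a) (L a) (r a) (n a)) :=
  con_and (con_eq (con_fin D.b (p_fst (con_ent D hL hn))) (p_const false)) (con_and
    (con_eq (con_fin D.b (con_tgt D hs hL hr hn)) (p_const true))
    (con_Blk D hs hL (p_mul (p_const 2) hr) hn))
theorem con_ActR {s r n : α → ℕ} {L L' : α → List (Pos × ℕ)} {S S' : α → List ℕ}
    (hs : Primrec s) (hL : Primrec L) (hS : Primrec S) (hL' : Primrec L') (hS' : Primrec S')
    (hr : Primrec r) (hn : Primrec n) :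
    PrimrecPred (fun a => D.ActR (s a) (L a) (S a) (L' a) (S' a) (r a) (n a)) :=
  con_and (con_WantR D hs hL hr hn) (con_and (con_eq hS' hS) (con_or
    (con_and (con_Bad D hs hL hr hn)
      (con_Upd D hL hL' hn (Primrec.pair (p_fst (con_ent D hL hn)) (p_const 0))))
    (con_and (con_not (con_Bad D hs hL hr hn))
      (con_Upd D hL hL' hn (Primrec.pair (con_tgt D hs hL hr hn) (p_add hr (p_const 1)))))))
theorem con_ActP {s e n : α → ℕ} {L L' : α → List (Pos × ℕ)} {S S' : α → List ℕ}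
    (hs : Primrec s) (hL : Primrec L) (hS : Primrec S) (hL' : Primrec L') (hS' : Primrec S')
    (he : Primrec e) (hn : Primrec n) :
    PrimrecPred (fun a => D.ActP (s a) (L a) (S a) (L' a) (S' a) (e a) (n a)) :=
  con_and (con_WantP D hs hL hS he hn) (con_and
    (con_eq hS' (Primrec.list_cons.comp he hS))
    (con_Upd D hL hL' hn (Primrec.pair (con_fin D.d (p_fst (con_ent D hL hn))) (p_const 0))))
theorem con_Step {s : α → ℕ} {L L' : α → List (Pos × ℕ)} {S S' : α → List ℕ}
    (hs : Primrec s) (hL : Primrec L) (hS : Primrec S) (hL' : Primrec L') (hS' : Primrec S') :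
    PrimrecPred (fun a => D.Step (s a) (L a) (S a) (L' a) (S' a)) := by
  have g := Primrec.fst (α := α) (β := ℕ)
  have g2 : Primrec (fun x : (α × ℕ) × ℕ => x.1.1) := Primrec.fst.comp Primrec.fst
  have p2 : Primrec (fun x : (α × ℕ) × ℕ => x.1.2) := Primrec.snd.comp Primrec.fst
  refine con_or (con_bex (p_add hs (p_const 1)) (con_and (con_ball Primrec.snd (con_not ?_))
    (con_bex (con_len (hL.comp g)) (con_or (con_and (con_eq (p_mod p2 (p_const 2)) (p_const 0)) ?_)
      (con_and (con_eq (p_mod p2 (p_const 2)) (p_const 1)) ?_)))))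
    (con_and (con_ball (p_add hs (p_const 1)) (con_not ?_)) (con_and (con_eq hL' hL)
      (con_eq hS' hS)))
  · exact con_Want D (hs.comp g2) (hL.comp g2) (hS.comp g2) Primrec.snd
  · exact con_ActR D (hs.comp g2) (hL.comp g2) (hS.comp g2) (hL'.comp g2) (hS'.comp g2)
      (p_div p2 (p_const 2)) Primrec.snd
  · exact con_ActP D (hs.comp g2) (hL.comp g2) (hS.comp g2) (hL'.comp g2) (hS'.comp g2)
      (p_div p2 (p_const 2)) Primrec.snd
  · exact con_Want D (hs.comp g) (hL.comp g) (hS.comp g) Primrec.snd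
omit [Finite Pos] [Finite St] in
theorem con_Birth {s : α → ℕ} {L : α → List (Pos × ℕ)} {v : α → Pos × ℕ}
    (hs : Primrec s) (hL : Primrec L) (hv : Primrec v) :
    PrimrecPred (fun a => D.Birth (s a) (L a) (v a)) := by
  have g := Primrec.fst (α := α) (β := ℕ)
  have g2 : Primrec (fun x : (α × ℕ) × ℕ => x.1.1) := Primrec.fst.comp Primrec.fst
  refine con_or (con_and (con_lt hs (p_const _)) (con_eq hv
      (Primrec.pair (con_getD _ (p_const _) hs) (p_const 0))))
    (con_or (con_and (con_le (p_const _) hs) (con_and (con_eq (p_mod hs (p_const 2)) (p_const 0))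
      (con_eq hv (Primrec.pair (con_getD _ (p_const _) (p_mod (p_div hs (p_const 2)) (p_const _)))
        (p_const 0))))) (con_and (con_le (p_const _) hs) (con_and
      (con_eq (p_mod hs (p_const 2)) (p_const 1)) (con_bex (p_add (con_len hL) (p_const 1))
      (con_and (con_ball Primrec.snd (con_bex ?_ ?_)) (con_and (con_ball ?_ ?_) ?_))))))
  · exact con_len (hL.comp g2)
  · exact con_eq (p_snd (con_ent D (hL.comp (g2.comp Primrec.fst)) Primrec.snd))
      (p_add (Primrec.snd.comp Primrec.fst) (p_const 1))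
  · exact con_len (hL.comp g)
  · exact con_ne (p_snd (con_ent D (hL.comp g2) Primrec.snd))
      (p_add (Primrec.snd.comp Primrec.fst) (p_const 1))
  · exact con_eq (hv.comp g) (Primrec.pair (con_fin D.st (con_pp D (p_snd (p_unpair Primrec.snd))))
      (p_add Primrec.snd (p_const 1)))
theorem con_Rel : SD (fun x : (ℕ × (List (Pos × ℕ) × List ℕ)) × (List (Pos × ℕ) × List ℕ) =>
    D.Rel x.1.1 x.1.2 x.2) := by
  refine s_ex (p := fun (x : (ℕ × (List (Pos × ℕ) × List ℕ)) × (List (Pos × ℕ) × List ℕ))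
    (v : Pos × ℕ) => D.Birth x.1.1 x.1.2.1 v ∧
      D.Step x.1.1 (x.1.2.1 ++ [v]) x.1.2.2 x.2.1 x.2.2) ?_
  refine SD.of_primrec (con_and (con_Birth D ?_ ?_ Primrec.snd) (con_Step D ?_ ?_ ?_ ?_ ?_))
  · exact p_fst (p_fst Primrec.fst)
  · exact p_fst (p_snd (p_fst Primrec.fst))
  · exact p_fst (p_fst Primrec.fst)
  · exact Primrec.list_concat.comp (p_fst (p_snd (p_fst Primrec.fst))) Primrec.snd
  · exact p_snd (p_snd (p_fst Primrec.fst))
  · exact p_fst (p_snd Primrec.fst)
  · exact p_snd (p_snd Primrec.fst)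

end PR

/-! ### Totality, and the stages -/

section Tot

variable {Pos St PP : Type} [Primcodable Pos] [Primcodable St] [Primcodable PP]
  (D : Dat Pos St PP)

theorem con_upd_set (L : List (Pos × ℕ)) (n : ℕ) (v : Pos × ℕ) (hn : n < L.length) :
    D.Upd L (L.set n v) n v := by
  refine ⟨List.length_set, fun i hi => ?_⟩
  by_cases h : i = n
  · left
    refine ⟨h, ?_⟩
    subst h
    unfold Dat.ent
    rw [List.getD_eq_getElem _ _ (by rw [List.length_set]; exact hi), List.getElem_set_self]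
  · right
    refine ⟨h, ?_⟩
    unfold Dat.ent
    rw [List.getD_eq_getElem _ _ (by rw [List.length_set]; exact hi),
      List.getD_eq_getElem _ _ hi, List.getElem_set_ne (by omega)]

theorem con_step_total (s : ℕ) (L : List (Pos × ℕ)) (S : List ℕ) :
    ∃ L' S', D.Step s L S L' S' := by
  classical
  by_cases h : ∃ p, p < s + 1 ∧ D.Want s L S p
  · obtain ⟨hp, n, hn, hw⟩ := Nat.find_spec h
    have hmin : ∀ p', p' < Nat.find h → ¬ D.Want s L S p' := by
      intro p' hp' hw'
      exact Nat.find_min h hp' ⟨by omega, hw'⟩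
    rcases hw with ⟨h2, hw⟩ | ⟨h2, hw⟩
    · by_cases hb : D.Bad s L (Nat.find h / 2) n
      · exact ⟨_, S, Or.inl ⟨_, hp, hmin, n, hn, Or.inl ⟨h2, hw, rfl,
          Or.inl ⟨hb, con_upd_set D L n _ hn⟩⟩⟩⟩
      · exact ⟨_, S, Or.inl ⟨_, hp, hmin, n, hn, Or.inl ⟨h2, hw, rfl,
          Or.inr ⟨hb, con_upd_set D L n _ hn⟩⟩⟩⟩
    · exact ⟨_, _, Or.inl ⟨_, hp, hmin, n, hn, Or.inr ⟨h2, hw, rfl,
        con_upd_set D L n _ hn⟩⟩⟩
  · refine ⟨L, S, Or.inr ⟨fun p' hp' hw => h ⟨p', hp', hw⟩, rfl, rfl⟩⟩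

theorem con_birth_total (s : ℕ) (L : List (Pos × ℕ)) : ∃ v, D.Birth s L v := by
  classical
  rcases Nat.lt_or_ge s D.sp.length with h | h
  · exact ⟨_, Or.inl ⟨h, rfl⟩⟩
  rcases Nat.mod_two_eq_zero_or_one s with h2 | h2
  · exact ⟨_, Or.inr (Or.inl ⟨h, h2, rfl⟩)⟩
  have hex : ∃ r, ¬ ∃ n, n < L.length ∧ (D.ent L n).2 = r + 1 := by
    by_contra hcon
    push Not at hcon
    choose f hf using hcon
    have h1 : Set.InjOn f (Finset.range (L.length + 1) : Set ℕ) := by
      intro a _ c _ hac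
      have h3 := (hf a).2
      have h4 := (hf c).2
      rw [hac, h4] at h3
      omega
    have h2 := Finset.card_le_card_of_injOn (s := Finset.range (L.length + 1))
      (t := Finset.range L.length) f (fun a _ => by
        rw [Finset.coe_range, Set.mem_Iio]
        exact (hf a).1) h1
    rw [Finset.card_range, Finset.card_range] at h2
    omega
  obtain ⟨r, hr, hmin⟩ : ∃ r, (¬ ∃ n, n < L.length ∧ (D.ent L n).2 = r + 1) ∧
      ∀ r', r' < r → ∃ n, n < L.length ∧ (D.ent L n).2 = r' + 1 := by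
    refine ⟨Nat.find hex, Nat.find_spec hex, fun r' hr' => ?_⟩
    by_contra hcon
    exact Nat.find_min hex hr' hcon
  have hle : r < L.length + 1 := by
    by_contra hcon
    push Not at hcon
    choose! f hf using hmin
    have h1 : Set.InjOn f (Finset.range (L.length + 1) : Set ℕ) := by
      intro a ha c hc hac
      rw [Finset.coe_range, Set.mem_Iio] at ha hc
      have h3 := (hf a (by omega)).2
      have h4 := (hf c (by omega)).2
      rw [hac, h4] at h3
      omega
    have h2 := Finset.card_le_card_of_injOn (s := Finset.range (L.length + 1))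
      (t := Finset.range L.length) f (fun a ha => by
        rw [Finset.coe_range, Set.mem_Iio] at ha ⊢
        exact (hf a (by omega)).1) h1
    rw [Finset.card_range, Finset.card_range] at h2
    omega
  refine ⟨_, Or.inr (Or.inr ⟨h, h2, r, hle, hmin, ?_, rfl⟩)⟩
  intro n hn hcon
  exact hr ⟨n, hn, hcon⟩

theorem con_rel_total (s : ℕ) (σ : List (Pos × ℕ) × List ℕ) : ∃ σ', D.Rel s σ σ' := by
  obtain ⟨v, hv⟩ := con_birth_total D s σ.1
  obtain ⟨L', S', h⟩ := con_step_total D s (σ.1 ++ [v]) σ.2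
  exact ⟨(L', S'), v, hv, h⟩

end Tot

theorem con_stages {Pos St PP : Type} [Primcodable Pos] [Finite Pos] [Primcodable St] [Finite St]
    [Primcodable PP] [Finite PP] (D : Dat Pos St PP) :
    ∃ σ : ℕ → List (Pos × ℕ) × List ℕ, Computable σ ∧ σ 0 = ([], []) ∧
      ∀ s, D.Rel s (σ s) (σ (s + 1)) := by
  obtain ⟨f, hf, hR⟩ := exists_sel_total
    (R := fun (x : ℕ × (List (Pos × ℕ) × List ℕ)) (y : List (Pos × ℕ) × List ℕ) =>
      D.Rel x.1 x.2 y) (con_Rel D) (fun x => con_rel_total D x.1 x.2)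
  refine ⟨fun s => Nat.rec ([], []) (fun s y => f (s, y)) s, ?_, rfl, fun s => hR (s, _)⟩
  have hg : Computable₂ (fun (_ : ℕ) (x : ℕ × (List (Pos × ℕ) × List ℕ)) => f (x.1, x.2)) :=
    hf.comp Computable.snd
  exact Computable.nat_rec Computable.id (Computable.const ([], [])) hg

end Pool.Agent.GO
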