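import Pool.Agent.GO.ConA

/-!
The construction, part B: finite injury.
-/

set_option autoImplicit false
set_option linter.unusedSectionVars false

namespace Pool.Agent.GO

open Pool.Agent.H36.LFI (SD)
open Pool.Agent.H36.MinNum

variable {Pos St PP : Type} [Primcodable Pos] [Primcodable St] [Primcodable PP]
  [PartialOrder Pos] [PartialOrder St]

/-- The hypotheses on the data. -/
structure Good (D : Dat Pos St PP) (Q : Set Pos) : Prop where
  hp0 : D.p0 ∈ Q
  hlp : ∀ q, q ∈ D.lp ↔ q ∈ Q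
  hd : ∀ q ∈ Q, D.b q = false → D.d q ∈ Q ∧ D.b (D.d q) = true ∧ q ≤ D.d q
  hb : ∀ q q', q ≤ q' → D.b q = true → D.b q' = true
  hst : ∀ P, D.st P ∈ Q
  hmv : ∀ P q z, q ∈ Q → D.mv P q z ∈ Q ∧ q ≤ D.mv P q z
  hzm : ∀ e s s' n, s ≤ s' → D.zs e s n ≤ D.zs e s' n

/-- A run of the construction. -/
structure Run (D : Dat Pos St PP) where
  L : ℕ → List (Pos × ℕ)
  S : ℕ → List ℕ
  v : ℕ → Pos × ℕ
  L0 : L 0 = []
  S0 : S 0 = []
  birth : ∀ s, D.Birth s (L s) (v s)
  step : ∀ s, D.Step s (L s ++ [v s]) (S s) (L (s + 1)) (S (s + 1))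

namespace Run

variable {D : Dat Pos St PP} (R : Run D)

/-- the list after the birth of the element `s` -/
def LB (s : ℕ) : List (Pos × ℕ) := R.L s ++ [R.v s]

/-- at the stage `s` the requirement with priority `p` acts on `n` -/
def A (s p n : ℕ) : Prop :=
  p < s + 1 ∧ (∀ p', p' < p → ¬ D.Want s (R.LB s) (R.S s) p') ∧ n < (R.LB s).length ∧
    ((p % 2 = 0 ∧ D.ActR s (R.LB s) (R.S s) (R.L (s + 1)) (R.S (s + 1)) (p / 2) n) ∨
      (p % 2 = 1 ∧ D.ActP s (R.LB s) (R.S s) (R.L (s + 1)) (R.S (s + 1)) (p / 2) n))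

theorem step_cases (s : ℕ) : (∃ p n, R.A s p n) ∨
    ((∀ p', p' < s + 1 → ¬ D.Want s (R.LB s) (R.S s) p') ∧ R.L (s + 1) = R.LB s ∧
      R.S (s + 1) = R.S s) := by
  rcases R.step s with ⟨p, hp, h1, n, hn, h2⟩ | h
  · exact Or.inl ⟨p, n, hp, h1, hn, h2⟩
  · exact Or.inr h

theorem lenB_aux (s : ℕ) : (R.LB s).length = (R.L s).length + 1 := by
  unfold LB
  rw [List.length_append]
  rfl

theorem len_step (s : ℕ) : (R.L (s + 1)).length = (R.LB s).length := by
  rcases R.step_cases s with ⟨p, n, hp, h1, hn, ⟨_, _, _, ⟨_, h, _⟩ | ⟨_, h, _⟩⟩ | ⟨_, _, _, h, _⟩⟩ | ⟨_, h, _⟩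
  · exact h
  · exact h
  · exact h
  · rw [h]

theorem len (s : ℕ) : (R.L s).length = s := by
  induction s with
  | zero => rw [R.L0]; rfl
  | succ s ih => rw [R.len_step, R.lenB_aux, ih]

theorem lenB (s : ℕ) : (R.LB s).length = s + 1 := by rw [R.lenB_aux, R.len]

theorem entB_lt {s n : ℕ} (h : n < s) : D.ent (R.LB s) n = D.ent (R.L s) n := by
  unfold Dat.ent LB
  rw [List.getD_append _ _ _ _ (by rw [R.len]; exact h)]

theorem entB_eq (s : ℕ) : D.ent (R.LB s) s = R.v s := by
  unfold Dat.ent LB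
  rw [List.getD_append_right _ _ _ _ (by rw [R.len]), R.len]
  simp

theorem A_want {s p n : ℕ} (h : R.A s p n) : D.Want s (R.LB s) (R.S s) p := by
  obtain ⟨_, _, hn, ⟨h2, h3⟩ | ⟨h2, h3⟩⟩ := h
  · exact ⟨n, hn, Or.inl ⟨h2, h3.1⟩⟩
  · exact ⟨n, hn, Or.inr ⟨h2, h3.1⟩⟩

theorem want_acts {s p : ℕ} (hp : p < s + 1) (h : D.Want s (R.LB s) (R.S s) p) :
    ∃ p', p' ≤ p ∧ ∃ n, R.A s p' n := by
  rcases R.step_cases s with ⟨p', n, hA⟩ | ⟨h1, _⟩
  · refine ⟨p', ?_, n, hA⟩
    by_contra hcon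
    push Not at hcon
    exact hA.2.1 p hcon h
  · exact absurd h (h1 p hp)

/-- the entry after an action on `n` -/
theorem A_ent {s p n : ℕ} (h : R.A s p n) :
    (p % 2 = 0 ∧ D.WantR s (R.LB s) (p / 2) n ∧ R.S (s + 1) = R.S s ∧
      ((D.Bad s (R.LB s) (p / 2) n ∧
        D.ent (R.L (s + 1)) n = ((D.ent (R.LB s) n).1, 0)) ∨
       (¬ D.Bad s (R.LB s) (p / 2) n ∧
        D.ent (R.L (s + 1)) n = (D.tgt s (R.LB s) (p / 2) n, p / 2 + 1)))) ∨
    (p % 2 = 1 ∧ D.WantP s (R.LB s) (R.S s) (p / 2) n ∧ R.S (s + 1) = (p / 2) :: R.S s ∧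
      D.ent (R.L (s + 1)) n = (D.d (D.ent (R.LB s) n).1, 0)) := by
  have key : ∀ v, D.Upd (R.LB s) (R.L (s + 1)) n v → n < (R.LB s).length →
      D.ent (R.L (s + 1)) n = v := by
    intro v hv hn
    rcases hv.2 n hn with h1 | h1
    · exact h1.2
    · exact absurd rfl h1.1
  obtain ⟨_, _, hn, ⟨h2, h3, h4, ⟨h5, h6⟩ | ⟨h5, h6⟩⟩ | ⟨h2, h3, h4, h5⟩⟩ := h
  · exact Or.inl ⟨h2, h3, h4, Or.inl ⟨h5, key _ h6 hn⟩⟩
  · exact Or.inl ⟨h2, h3, h4, Or.inr ⟨h5, key _ h6 hn⟩⟩
  · exact Or.inr ⟨h2, h3, h4, key _ h5 hn⟩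

theorem A_other {s p n i : ℕ} (h : R.A s p n) (hi : i < s + 1) (hne : i ≠ n) :
    D.ent (R.L (s + 1)) i = D.ent (R.LB s) i := by
  have key : ∀ v, D.Upd (R.LB s) (R.L (s + 1)) n v → D.ent (R.L (s + 1)) i = D.ent (R.LB s) i := by
    intro v hv
    rcases hv.2 i (by rw [R.lenB]; exact hi) with h1 | h1
    · exact absurd h1.1 hne
    · exact h1.2
  obtain ⟨_, _, hn, ⟨h2, h3, h4, ⟨h5, h6⟩ | ⟨h5, h6⟩⟩ | ⟨h2, h3, h4, h5⟩⟩ := h
  · exact key _ h6
  · exact key _ h6
  · exact key _ h5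

theorem ent_cases {s i : ℕ} (hi : i < s + 1) :
    D.ent (R.L (s + 1)) i = D.ent (R.LB s) i ∨ ∃ p, R.A s p i := by
  rcases R.step_cases s with ⟨p, n, hA⟩ | ⟨_, h1, _⟩
  · by_cases h : i = n
    · subst h
      exact Or.inr ⟨p, hA⟩
    · exact Or.inl (R.A_other hA hi h)
  · exact Or.inl (by rw [h1])

/-- an action changes the entry -/
theorem A_ne {Q : Set Pos} (G : Good D Q) {s p n : ℕ} (h : R.A s p n)
    (hQ : (D.ent (R.LB s) n).1 ∈ Q) :
    D.ent (R.L (s + 1)) n ≠ D.ent (R.LB s) n := by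
  rcases R.A_ent h with ⟨_, h2, _, ⟨_, h4⟩ | ⟨_, h4⟩⟩ | ⟨_, h2, _, h4⟩
  · rw [h4]
    intro hcon
    have := congrArg Prod.snd hcon
    rw [h2.2.1] at this
    simp at this
  · rw [h4]
    intro hcon
    exact h2.2.2 (congrArg Prod.fst hcon)
  · rw [h4]
    intro hcon
    have h5 := congrArg Prod.fst hcon
    simp only at h5
    have h6 := G.hd _ hQ h2.2.2.2.2.2.1
    rw [h5, h2.2.2.2.2.2.1] at h6
    exact absurd h6.2.1 (by simp)

/-! ### Positions -/

theorem v_mem {Q : Set Pos} (G : Good D Q) {s : ℕ} (h : D.sp.length ≤ s) : (R.v s).1 ∈ Q := by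
  rcases R.birth s with ⟨h1, _⟩ | ⟨_, _, h2⟩ | ⟨_, _, r, _, _, _, h2⟩
  · omega
  · rw [h2]
    by_cases hlp : D.lp = []
    · rw [hlp]
      exact G.hp0
    · have hl : 0 < D.lp.length := List.length_pos_iff.2 hlp
      rw [← G.hlp]
      change D.lp.getD _ _ ∈ D.lp
      rw [List.getD_eq_getElem _ _ (Nat.mod_lt _ hl)]
      exact List.getElem_mem _
  · rw [h2]
    exact G.hst _

theorem v_sp {s : ℕ} (h : s < D.sp.length) : R.v s = (D.sp.getD s D.p0, 0) := by
  rcases R.birth s with ⟨_, h1⟩ | ⟨h1, _⟩ | ⟨h1, _⟩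
  · exact h1
  · omega
  · omega

/-- the special elements never change -/
theorem sp_ent {n : ℕ} (hn : n < D.sp.length) : ∀ s, n < s →
    D.ent (R.L s) n = (D.sp.getD n D.p0, 0) := by
  intro s
  induction s with
  | zero => intro h; omega
  | succ s ih =>
    intro h
    have hB : D.ent (R.LB s) n = (D.sp.getD n D.p0, 0) := by
      rcases Nat.lt_or_ge n s with h1 | h1
      · rw [R.entB_lt h1]
        exact ih h1
      · have : n = s := by omega
        subst this
        rw [R.entB_eq, R.v_sp hn]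
    rcases R.ent_cases h with h1 | ⟨p, h1⟩
    · rw [h1, hB]
    · exfalso
      rcases R.A_ent h1 with ⟨_, h2, _⟩ | ⟨_, h2, _⟩
      · have := h2.2.1
        rw [hB] at this
        simp at this
      · have := h2.2.2.1
        unfold Dat.bd at this
        omega

theorem memQ {Q : Set Pos} (G : Good D Q) {n : ℕ} (hn : D.sp.length ≤ n) : ∀ s,
    (n < s → (D.ent (R.L s) n).1 ∈ Q) ∧ (n < s + 1 → (D.ent (R.LB s) n).1 ∈ Q) := by
  have key : ∀ s, (n < s → (D.ent (R.L s) n).1 ∈ Q) → (n < s + 1 → (D.ent (R.LB s) n).1 ∈ Q) := by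
    intro s h h'
    rcases Nat.lt_or_ge n s with h1 | h1
    · rw [R.entB_lt h1]
      exact h h1
    · have : n = s := by omega
      subst this
      rw [R.entB_eq]
      exact R.v_mem G hn
  intro s
  induction s with
  | zero => exact ⟨fun h => absurd h (by omega), key 0 (fun h => absurd h (by omega))⟩
  | succ s ih =>
    have h1 : n < s + 1 → (D.ent (R.L (s + 1)) n).1 ∈ Q := by
      intro h
      have h2 := ih.2 h
      rcases R.ent_cases h with h3 | ⟨p, h3⟩
      · rw [h3]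
        exact h2
      · rcases R.A_ent h3 with ⟨_, _, _, ⟨_, h4⟩ | ⟨_, h4⟩⟩ | ⟨_, h5, _, h4⟩
        · rw [h4]
          exact h2
        · rw [h4]
          exact (G.hmv _ _ _ h2).1
        · rw [h4]
          exact (G.hd _ h2 h5.2.2.2.2.2.1).1
    exact ⟨h1, key (s + 1) h1⟩

/-- positions increase -/
theorem step_le {Q : Set Pos} (G : Good D Q) {s n : ℕ} (h : n < s + 1) :
    (D.ent (R.LB s) n).1 ≤ (D.ent (R.L (s + 1)) n).1 := by
  rcases Nat.lt_or_ge n D.sp.length with hn | hn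
  · rcases Nat.lt_or_ge n s with h1 | h1
    · rw [R.entB_lt h1, R.sp_ent hn s h1, R.sp_ent hn (s + 1) h]
    · have : n = s := by omega
      subst this
      rw [R.entB_eq, R.v_sp hn, R.sp_ent hn _ h]
  · have h2 := (R.memQ G hn s).2 h
    rcases R.ent_cases h with h3 | ⟨p, h3⟩
    · rw [h3]
    · rcases R.A_ent h3 with ⟨_, _, _, ⟨_, h4⟩ | ⟨_, h4⟩⟩ | ⟨_, h5, _, h4⟩
      · rw [h4]
      · rw [h4]
        exact (G.hmv _ _ _ h2).2
      · rw [h4]
        exact (G.hd _ h2 h5.2.2.2.2.2.1).2.2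

theorem pos_le {Q : Set Pos} (G : Good D Q) {s s' n : ℕ} (h : n < s) (hs : s ≤ s') :
    (D.ent (R.L s) n).1 ≤ (D.ent (R.L s') n).1 := by
  induction s', hs using Nat.le_induction with
  | base => exact le_rfl
  | succ t ht ih =>
    refine ih.trans ?_
    rw [← R.entB_lt (show n < t by omega)]
    exact R.step_le G (by omega)

/-! ### Owners -/

theorem own_step {s n : ℕ} (h : n < s + 1) :
    (D.ent (R.L (s + 1)) n).2 = (D.ent (R.LB s) n).2 ∨ (D.ent (R.L (s + 1)) n).2 = 0 := by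
  rcases R.ent_cases h with h3 | ⟨p, h3⟩
  · left; rw [h3]
  · rcases R.A_ent h3 with ⟨_, h5, _, ⟨_, h4⟩ | ⟨_, h4⟩⟩ | ⟨_, h5, _, h4⟩
    · right; rw [h4]
    · left
      rw [h4, h5.2.1]
    · right; rw [h4]

theorem own_mono {s s' n r : ℕ} (h : n < s) (hs : s ≤ s') (hr : (D.ent (R.L s') n).2 = r + 1) :
    (D.ent (R.L s) n).2 = r + 1 := by
  induction s', hs using Nat.le_induction with
  | base => exact hr
  | succ t ht ih =>
    apply ih
    rcases R.own_step (s := t) (n := n) (by omega) with h1 | h1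
    · rw [h1, R.entB_lt (by omega)] at hr
      exact hr
    · rw [h1] at hr
      omega

/-- every requirement has at most one witness -/
theorem own_unique {r : ℕ} : ∀ s, (∀ n n', n < s → n' < s → (D.ent (R.L s) n).2 = r + 1 →
      (D.ent (R.L s) n').2 = r + 1 → n = n') ∧
    (∀ n n', n < s + 1 → n' < s + 1 → (D.ent (R.LB s) n).2 = r + 1 →
      (D.ent (R.LB s) n').2 = r + 1 → n = n') := by
  have key : ∀ s, (∀ n n', n < s → n' < s → (D.ent (R.L s) n).2 = r + 1 →
      (D.ent (R.L s) n').2 = r + 1 → n = n') →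
    (∀ n n', n < s + 1 → n' < s + 1 → (D.ent (R.LB s) n).2 = r + 1 →
      (D.ent (R.LB s) n').2 = r + 1 → n = n') := by
    intro s ih
    have hv : (R.v s).2 = r + 1 → ∀ n, n < s → (D.ent (R.L s) n).2 ≠ r + 1 := by
      intro hv
      rcases R.birth s with ⟨_, h2⟩ | ⟨_, _, h2⟩ | ⟨_, _, r', _, _, h3, h2⟩
      · rw [h2] at hv; simp at hv
      · rw [h2] at hv; simp at hv
      · rw [h2] at hv
        simp only [Nat.add_right_cancel_iff] at hv
        subst hv
        intro n hn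
        exact h3 n (by rw [R.len]; exact hn)
    intro n n' hn hn' h1 h2
    rcases Nat.lt_or_ge n s with h3 | h3
    · rw [R.entB_lt h3] at h1
      rcases Nat.lt_or_ge n' s with h4 | h4
      · rw [R.entB_lt h4] at h2
        exact ih n n' h3 h4 h1 h2
      · have : n' = s := by omega
        subst this
        rw [R.entB_eq] at h2
        exact absurd h1 (hv h2 n h3)
    · have : n = s := by omega
      subst this
      rw [R.entB_eq] at h1
      rcases Nat.lt_or_ge n' n with h4 | h4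
      · rw [R.entB_lt h4] at h2
        exact absurd h2 (hv h1 n' h4)
      · omega
  intro s
  induction s with
  | zero =>
    exact ⟨fun n n' h => absurd h (by omega), key 0 (fun n n' h => absurd h (by omega))⟩
  | succ s ih =>
    have h1 : ∀ n n', n < s + 1 → n' < s + 1 → (D.ent (R.L (s + 1)) n).2 = r + 1 →
      (D.ent (R.L (s + 1)) n').2 = r + 1 → n = n' := by
      intro n n' hn hn' h1 h2
      refine ih.2 n n' hn hn' ?_ ?_
      · rcases R.own_step hn with h3 | h3
        · rw [← h3]; exact h1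
        · rw [h3] at h1; omega
      · rcases R.own_step hn' with h3 | h3
        · rw [← h3]; exact h2
        · rw [h3] at h2; omega
    exact ⟨h1, key (s + 1) h1⟩

/-! ### The list of the satisfied requirements -/

theorem S_mono {s s' e : ℕ} (hs : s ≤ s') (h : e ∈ R.S s) : e ∈ R.S s' := by
  induction s', hs using Nat.le_induction with
  | base => exact h
  | succ t ht ih =>
    rcases R.step_cases t with ⟨p, n, hA⟩ | ⟨_, _, h1⟩
    · rcases R.A_ent hA with ⟨_, _, h2, _⟩ | ⟨_, _, h2, _⟩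
      · rw [h2]; exact ih
      · rw [h2]; exact List.mem_cons_of_mem _ ih
    · rw [h1]; exact ih

theorem S_acts {s e : ℕ} (h : e ∈ R.S s) : ∃ t, t < s ∧ ∃ n, R.A t (2 * e + 1) n := by
  induction s with
  | zero => rw [R.S0] at h; simp at h
  | succ s ih =>
    have key : e ∈ R.S s → ∃ t, t < s + 1 ∧ ∃ n, R.A t (2 * e + 1) n := by
      intro h'
      obtain ⟨t, ht, h2⟩ := ih h'
      exact ⟨t, by omega, h2⟩
    rcases R.step_cases s with ⟨p, n, hA⟩ | ⟨_, _, h1⟩
    · rcases R.A_ent hA with ⟨_, _, h2, _⟩ | ⟨h3, _, h2, _⟩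
      · rw [h2] at h; exact key h
      · rw [h2, List.mem_cons] at h
        rcases h with h | h
        · refine ⟨s, by omega, n, ?_⟩
          rwa [show 2 * e + 1 = p by omega]
        · exact key h
    · rw [h1] at h; exact key h

theorem P_once {s s' e n n' : ℕ} (h : R.A s (2 * e + 1) n) (h' : R.A s' (2 * e + 1) n') :
    s = s' := by
  have key : ∀ s s' n n', R.A s (2 * e + 1) n → R.A s' (2 * e + 1) n' → ¬ s < s' := by
    intro s s' n n' h h' hlt
    have h1 : e ∈ R.S (s + 1) := by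
      rcases R.A_ent h with ⟨h2, _⟩ | ⟨_, _, h2, _⟩
      · omega
      · rw [h2]
        have : (2 * e + 1) / 2 = e := by omega
        rw [this]
        exact List.mem_cons_self
    have h3 := R.S_mono (show s + 1 ≤ s' by omega) h1
    rcases R.A_ent h' with ⟨h2, _⟩ | ⟨_, h2, _⟩
    · omega
    · have : (2 * e + 1) / 2 = e := by omega
      rw [this] at h2
      exact h2.1 h3
  have h1 := key s s' n n' h h'
  have h2 := key s' s n' n h' h
  omega

theorem A_lt {s p n : ℕ} (h : R.A s p n) : n < s + 1 := by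
  have := h.2.2.1
  rwa [R.lenB] at this

theorem A_sp {s p n : ℕ} (h : R.A s p n) : D.sp.length ≤ n := by
  by_contra hn
  push Not at hn
  have hB : D.ent (R.LB s) n = (D.sp.getD n D.p0, 0) := by
    rcases Nat.lt_or_ge n s with h1 | h1
    · rw [R.entB_lt h1]
      exact R.sp_ent hn s h1
    · have : n = s := by have := R.A_lt h; omega
      subst this
      rw [R.entB_eq, R.v_sp hn]
  rcases R.A_ent h with ⟨_, h2, _⟩ | ⟨_, h2, _⟩
  · have := h2.2.1
    rw [hB] at this
    simp at this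
  · have := h2.2.2.1
    unfold Dat.bd at this
    omega

theorem A_ne' {Q : Set Pos} (G : Good D Q) {s p n : ℕ} (h : R.A s p n) :
    D.ent (R.L (s + 1)) n ≠ D.ent (R.LB s) n :=
  R.A_ne G h ((R.memQ G (R.A_sp h) s).2 (R.A_lt h))

theorem A_elem {Q : Set Pos} (G : Good D Q) {s p p' n n' : ℕ} (h : R.A s p n)
    (h' : R.A s p' n') : n = n' := by
  by_contra hne
  exact R.A_ne' G h' (R.A_other h (R.A_lt h') (fun h => hne h.symm))

/-! ### Every element is acted upon only finitely often -/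

theorem ent_const {Q : Set Pos} [Finite Pos] (G : Good D Q) (n : ℕ) :
    ∃ s₀, n < s₀ ∧ ∀ s, s₀ ≤ s → D.ent (R.L s) n = D.ent (R.L s₀) n := by
  classical
  -- positions
  have h1 : ∃ s₁, n < s₁ ∧ ∀ s, s₁ ≤ s → (D.ent (R.L s) n).1 = (D.ent (R.L s₁) n).1 := by
    let f : ℕ →o Pos := ⟨fun k => (D.ent (R.L (n + 1 + k)) n).1, fun a c hac =>
      R.pos_le G (by omega) (by omega)⟩
    obtain ⟨m, hm⟩ := WellFoundedGT.monotone_chain_condition f
    refine ⟨n + 1 + m, by omega, fun s hs => ?_⟩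
    have h := hm (s - (n + 1)) (by omega)
    have h2 : (D.ent (R.L (n + 1 + m)) n).1 = (D.ent (R.L (n + 1 + (s - (n + 1)))) n).1 := h
    rw [h2, show n + 1 + (s - (n + 1)) = s by omega]
  -- owners
  have h2 : ∃ s₁, n < s₁ ∧ ∀ s, s₁ ≤ s → (D.ent (R.L s) n).2 = (D.ent (R.L s₁) n).2 := by
    by_cases h : ∃ s, n < s ∧ (D.ent (R.L s) n).2 = 0
    · obtain ⟨s, hs, h0⟩ := h
      refine ⟨s, hs, fun s' hs' => ?_⟩
      rw [h0]
      by_contra hne
      obtain ⟨r, hr⟩ := Nat.exists_eq_succ_of_ne_zero hne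
      have := R.own_mono hs hs' hr
      rw [h0] at this
      omega
    · push Not at h
      refine ⟨n + 1, by omega, fun s hs => ?_⟩
      obtain ⟨r, hr⟩ := Nat.exists_eq_succ_of_ne_zero (h s (by omega))
      rw [hr, R.own_mono (show n < n + 1 by omega) hs hr]
  obtain ⟨s₁, hs₁, h1⟩ := h1
  obtain ⟨s₂, hs₂, h2⟩ := h2
  refine ⟨max s₁ s₂, by omega, fun s hs => ?_⟩
  have hl := le_max_left s₁ s₂
  have hr := le_max_right s₁ s₂
  refine Prod.ext ?_ ?_
  · rw [h1 s (by omega), h1 (max s₁ s₂) hl]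
  · rw [h2 s (by omega), h2 (max s₁ s₂) hr]

theorem no_act {Q : Set Pos} [Finite Pos] (G : Good D Q) (n : ℕ) :
    ∃ s₀, n < s₀ ∧ ∀ s p, s₀ ≤ s → ¬ R.A s p n := by
  obtain ⟨s₀, h0, h1⟩ := R.ent_const G n
  refine ⟨s₀, h0, fun s p hs hA => ?_⟩
  apply R.A_ne' G hA
  rw [R.entB_lt (show n < s by omega), h1 s hs, h1 (s + 1) (by omega)]

theorem no_act_all {Q : Set Pos} [Finite Pos] (G : Good D Q) (m : ℕ) :
    ∃ s₀, ∀ n, n < m → ∀ s p, s₀ ≤ s → ¬ R.A s p n := by
  induction m with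
  | zero => exact ⟨0, fun n hn => absurd hn (by omega)⟩
  | succ m ih =>
    obtain ⟨s₀, h0⟩ := ih
    obtain ⟨s₁, _, h1⟩ := R.no_act G m
    refine ⟨max s₀ s₁, fun n hn s p hs => ?_⟩
    have hl := le_max_left s₀ s₁
    have hr := le_max_right s₀ s₁
    rcases Nat.lt_or_ge n m with h | h
    · exact h0 n h s p (by omega)
    · have : n = m := by omega
      subst this
      exact h1 s p (by omega)

/-! ### Protected elements -/

/-- no requirement of priority at most `j` acts after the stage `s₀` -/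
def Quiet (j s₀ : ℕ) : Prop := ∀ s, s₀ ≤ s → ∀ p, p ≤ j → ∀ n, ¬ R.A s p n

theorem prot_keep {j s₀ s n : ℕ} (hq : R.Quiet j s₀) (hs : s₀ ≤ s)
    (h : D.Prot s (R.LB s) j n) : D.Out (s + 1) (R.LB (s + 1)) j n := by
  have hn : n < s + 1 := by
    have := h.1
    rwa [R.lenB] at this
  refine ⟨?_, ?_⟩
  · have h1 := bb_mono (k := j) (x := n) (Nat.le_add_right (s + 1) 1)
    have h2 := bb_le j (s + 1 + 1) n
    have h3 := h.2.1.1
    omega
  · rw [R.entB_lt hn]
    have hb := h.2.1.2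
    rcases R.ent_cases hn with h3 | ⟨p, h3⟩
    · rw [h3]; exact hb
    · have hp : j < p := by
        by_contra hcon
        push Not at hcon
        exact hq s hs p hcon n h3
      rcases R.A_ent h3 with ⟨h6, _, _, ⟨_, h4⟩ | ⟨h5, h4⟩⟩ | ⟨h6, h5, _, h4⟩
      · rw [h4]; exact hb
      · rw [h4]
        by_contra hcon
        apply h5
        refine ⟨hb, ?_, j, by omega, h⟩
        simpa using hcon
      · exfalso
        exact h5.2.2.2.2.2.2.1 ⟨j, by omega, h⟩

/-- the protected element of `j` becomes stable -/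
theorem prot_stable {j s₀ : ℕ} (hq : R.Quiet j s₀) :
    (∃ n s₁, s₀ ≤ s₁ ∧ n < s₁ + 1 ∧ ∀ s, s₁ ≤ s → ∀ m, D.Prot s (R.LB s) j m ↔ m = n) ∨
    (∀ s, s₀ ≤ s → ∀ m, ¬ D.Prot s (R.LB s) j m) := by
  classical
  by_cases h : ∃ n s, s₀ ≤ s ∧ D.Prot s (R.LB s) j n
  · left
    obtain ⟨n, ⟨s₁, hs₁, hP⟩, hmin⟩ : ∃ n, (∃ s, s₀ ≤ s ∧ D.Prot s (R.LB s) j n) ∧
        ∀ m, m < n → ¬ ∃ s, s₀ ≤ s ∧ D.Prot s (R.LB s) j m :=
      ⟨Nat.find h, Nat.find_spec h, fun m hm => Nat.find_min h hm⟩
    have hall : ∀ s, s₁ ≤ s → D.Prot s (R.LB s) j n := by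
      intro s hs
      induction s, hs using Nat.le_induction with
      | base => exact hP
      | succ t ht ih =>
        have h1 := R.prot_keep hq (show s₀ ≤ t by omega) ih
        have hn : n < t + 1 := by
          have := ih.1
          rwa [R.lenB] at this
        refine ⟨by rw [R.lenB]; omega, h1, ?_⟩
        intro i hi ho
        -- the least such element would be protected
        have hex : ∃ i, D.Out (t + 1) (R.LB (t + 1)) j i := ⟨i, ho⟩
        obtain ⟨i₀, hi₀, hm⟩ : ∃ i, D.Out (t + 1) (R.LB (t + 1)) j i ∧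
            ∀ i', i' < i → ¬ D.Out (t + 1) (R.LB (t + 1)) j i' :=
          ⟨Nat.find hex, Nat.find_spec hex, fun m hm => Nat.find_min hex hm⟩
        have hle : i₀ ≤ i := by
          by_contra hcon
          push Not at hcon
          exact hm i hcon ho
        exact hmin i₀ (by omega) ⟨t + 1, by omega, by rw [R.lenB]; omega, hi₀, hm⟩
    refine ⟨n, s₁, hs₁, ?_, fun s hs m => ⟨fun hm => ?_, fun hm => ?_⟩⟩
    · have := hP.1
      rwa [R.lenB] at this
    · have h1 := hall s hs
      rcases Nat.lt_trichotomy m n with h2 | h2 | h2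
      · exact absurd hm.2.1 (h1.2.2 m h2)
      · exact h2
      · exact absurd h1.2.1 (hm.2.2 n h2)
    · rw [hm]; exact hall s hs
  · right
    intro s hs m hm
    exact h ⟨m, s, hs, hm⟩

/-- if all requirements of priority less than `p` are quiet, then from some stage on only old
elements are protected against `p` -/
theorem blk_old {s₀ : ℕ} : ∀ p, (∀ j, j < p → R.Quiet j s₀) →
    ∃ s₁, s₀ ≤ s₁ ∧ ∀ s n, s₁ ≤ s → D.Blk s (R.LB s) p n → n < s₁ + 1 := by
  intro p
  induction p with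
  | zero => exact fun _ => ⟨s₀, le_rfl, fun s n _ h => by obtain ⟨j, hj, _⟩ := h; omega⟩
  | succ p ih =>
    intro hq
    obtain ⟨s₁, hs₁, h1⟩ := ih (fun j hj => hq j (by omega))
    rcases R.prot_stable (hq p (by omega)) with ⟨n₀, s₂, hs₂, hn₀, h2⟩ | h2
    · refine ⟨max s₁ s₂, by omega, fun s n hs hB => ?_⟩
      have hl := le_max_left s₁ s₂
      have hr := le_max_right s₁ s₂
      obtain ⟨j, hj, hP⟩ := hB
      rcases Nat.lt_or_ge j p with h3 | h3
      · have := h1 s n (by omega) ⟨j, h3, hP⟩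
        omega
      · have : j = p := by omega
        subst this
        have := (h2 s (by omega) n).1 hP
        omega
    · refine ⟨s₁, hs₁, fun s n hs hB => ?_⟩
      obtain ⟨j, hj, hP⟩ := hB
      rcases Nat.lt_or_ge j p with h3 | h3
      · exact h1 s n hs ⟨j, h3, hP⟩
      · have : j = p := by omega
        subst this
        exact absurd hP (h2 s (by omega) n)

/-- a witness which is not blocked stays -/
theorem own_keep {r s n : ℕ} (hq : ∀ p, p < 2 * r → ∀ m, ¬ R.A s p m)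
    (hB : ¬ D.Blk s (R.LB s) (2 * r) n) (hn : n < s + 1) (h : (D.ent (R.LB s) n).2 = r + 1) :
    (D.ent (R.L (s + 1)) n).2 = r + 1 := by
  rcases R.ent_cases hn with h3 | ⟨p, h3⟩
  · rw [h3]; exact h
  · have hp : 2 * r ≤ p := by
      by_contra hcon
      push Not at hcon
      exact hq p hcon n h3
    rcases R.A_ent h3 with ⟨h6, h7, _, ⟨h5, h4⟩ | ⟨h5, h4⟩⟩ | ⟨h6, h5, _, h4⟩
    · exfalso
      have h8 := h7.2.1
      rw [h] at h8
      have h9 : p / 2 = r := by omega
      rw [h9] at h5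
      exact hB h5.2.2
    · rw [h4]
      have h8 := h7.2.1
      rw [h] at h8
      exact h8.symm
    · exfalso
      exact h5.2.2.2.2.2.2.2 r (by omega) h

/-- finite injury -/
theorem quiet {Q : Set Pos} [Finite Pos] (G : Good D Q) : ∀ p, ∃ s₀, R.Quiet p s₀ := by
  intro p
  induction p using Nat.strong_induction_on with
  | _ p ih =>
    -- a common stage for the smaller priorities
    have hcom : ∀ m, m ≤ p → ∃ s₀, ∀ s, s₀ ≤ s → ∀ p', p' < m → ∀ n, ¬ R.A s p' n := by
      intro m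
      induction m with
      | zero => intro _; exact ⟨0, fun s _ p' hp' => absurd hp' (by omega)⟩
      | succ m ihm =>
        intro hm
        obtain ⟨s₀, h0⟩ := ihm (by omega)
        obtain ⟨s₁, h1⟩ := ih m (by omega)
        refine ⟨max s₀ s₁, fun s hs p' hp' n => ?_⟩
        have hl := le_max_left s₀ s₁
        have hr := le_max_right s₀ s₁
        rcases Nat.lt_or_ge p' m with h | h
        · exact h0 s (by omega) p' h n
        · exact h1 s (by omega) p' (by omega) n
    obtain ⟨s₀, h0⟩ := hcom p le_rfl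
    have main : ∃ s₁, ∀ s, s₁ ≤ s → ∀ n, ¬ R.A s p n := by
      rcases Nat.mod_two_eq_zero_or_one p with h2 | h2
      · -- witness requirement
        obtain ⟨r, rfl⟩ : ∃ r, p = 2 * r := ⟨p / 2, by omega⟩
        have hr2 : 2 * r / 2 = r := by omega
        obtain ⟨s₁, hs₁, h1⟩ := R.blk_old (s₀ := s₀) (2 * r)
          (fun j hj s hs p hp n => h0 s hs p (by omega) n)
        obtain ⟨s₂, h3⟩ := R.no_act_all G (s₁ + 1)
        by_contra hcon
        push Not at hcon
        obtain ⟨s₃, hs₃, n, hA⟩ := hcon (max s₁ s₂)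
        have hl := le_max_left s₁ s₂
        have hr := le_max_right s₁ s₂
        have hn : s₁ + 1 ≤ n := by
          by_contra hc
          push Not at hc
          exact h3 n hc s₃ (2 * r) (by omega) hA
        have hown : (D.ent (R.LB s₃) n).2 = r + 1 := by
          rcases R.A_ent hA with ⟨_, h7, _⟩ | ⟨h6, _⟩
          · rw [hr2] at h7
            exact h7.2.1
          · omega
        -- the witness is permanent
        have hperm : ∀ s, s₃ ≤ s → (D.ent (R.LB s) n).2 = r + 1 := by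
          intro s hs
          induction s, hs using Nat.le_induction with
          | base => exact hown
          | succ t ht iht =>
            have hnt : n < t + 1 := by have := R.A_lt hA; omega
            rw [R.entB_lt hnt]
            refine R.own_keep (fun p hp m => h0 t (by omega) p hp m) ?_ hnt iht
            intro hB
            have := h1 t n (by omega) hB
            omega
        obtain ⟨s₄, _, h4⟩ := R.no_act G n
        obtain ⟨s₅, hs₅, n', hA'⟩ := hcon (max s₃ s₄)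
        have hl' := le_max_left s₃ s₄
        have hr' := le_max_right s₃ s₄
        have hown' : (D.ent (R.LB s₅) n').2 = r + 1 := by
          rcases R.A_ent hA' with ⟨_, h7, _⟩ | ⟨h6, _⟩
          · rw [hr2] at h7
            exact h7.2.1
          · omega
        have hnn : n' = n := by
          refine (R.own_unique (r := r) s₅).2 n' n (R.A_lt hA') ?_ hown' (hperm s₅ (by omega))
          have := R.A_lt hA
          omega
        rw [hnn] at hA'
        exact h4 s₅ _ (by omega) hA'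
      · obtain ⟨e, rfl⟩ : ∃ e, p = 2 * e + 1 := ⟨p / 2, by omega⟩
        by_contra hcon
        push Not at hcon
        obtain ⟨s₃, _, n, hA⟩ := hcon 0
        obtain ⟨s₄, hs₄, n', hA'⟩ := hcon (s₃ + 1)
        have := R.P_once hA hA'
        omega
    obtain ⟨s₁, h1⟩ := main
    refine ⟨max s₀ s₁, fun s hs p' hp' n => ?_⟩
    have hl := le_max_left s₀ s₁
    have hr := le_max_right s₀ s₁
    rcases Nat.lt_or_ge p' p with h | h
    · exact h0 s (by omega) p' h n
    · have : p' = p := by omega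
      subst this
      exact h1 s (by omega) n

end Run

end Pool.Agent.GO
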