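import Pool.Agent.GO.ConB

/-!
The construction, part C: all requirements are satisfied.
-/

set_option autoImplicit false
set_option linter.unusedSectionVars false

namespace Pool.Agent.GO

open Pool.Agent.H36.LFI (SD)
open Pool.Agent.H36.MinNum

theorem con_ws (e s x : ℕ) : x ∈ Ws e s ↔ bb e s x = 1 := by
  unfold Ws bb
  rw [Set.mem_ofPred_eq]
  constructor
  · intro h
    exact if_pos h
  · intro h
    by_contra h'
    rw [if_neg h'] at h
    exact absurd h (by omega)

theorem con_w (e x : ℕ) : x ∈ W e ↔ ∃ s, bb e s x = 1 := by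
  unfold W
  rw [Set.mem_ofPred_eq, Part.dom_iff_mem]
  constructor
  · rintro ⟨u, hu⟩
    obtain ⟨t, ht⟩ := Nat.Partrec.Code.evaln_complete.1 hu
    refine ⟨t, (con_ws e t x).1 ?_⟩
    unfold Ws
    rw [Set.mem_ofPred_eq]
    rw [Option.mem_def] at ht
    rw [ht]
    rfl
  · rintro ⟨t, ht⟩
    have h1 := (con_ws e t x).2 ht
    unfold Ws at h1
    rw [Set.mem_ofPred_eq] at h1
    obtain ⟨u, hu⟩ := Option.isSome_iff_exists.1 h1
    exact ⟨u, Nat.Partrec.Code.evaln_sound (Option.mem_def.2 hu)⟩

theorem con_bb_lt {e s x : ℕ} (h : bb e s x = 1) : x < s := by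
  have h1 := (con_ws e s x).2 h
  unfold Ws at h1
  rw [Set.mem_ofPred_eq] at h1
  obtain ⟨u, hu⟩ := Option.isSome_iff_exists.1 h1
  exact Nat.Partrec.Code.evaln_bound (Option.mem_def.2 hu)

variable {Pos St PP : Type} [Primcodable Pos] [Primcodable St] [Primcodable PP]
  [PartialOrder Pos] [PartialOrder St] {D : Dat Pos St PP} (R : Run D)

namespace Run

theorem own_keep2 {r s n : ℕ} (hq : ∀ p, p ≤ 2 * r → ∀ m, ¬ R.A s p m)
    (hn : n < s + 1) (h : (D.ent (R.LB s) n).2 = r + 1) :
    (D.ent (R.L (s + 1)) n).2 = r + 1 := by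
  rcases R.ent_cases hn with h3 | ⟨p, h3⟩
  · rw [h3]; exact h
  · have hp : 2 * r < p := by
      by_contra hcon
      push Not at hcon
      exact hq p hcon n h3
    rcases R.A_ent h3 with ⟨h6, h7, _⟩ | ⟨h6, h5, _, h4⟩
    · exfalso
      have h8 := h7.2.1
      rw [h] at h8
      omega
    · exfalso
      exact h5.2.2.2.2.2.2.2 r (by omega) h

/-- every requirement has a permanent witness -/
theorem witness {Q : Set Pos} [Finite Pos] (G : Good D Q) (r : ℕ) :
    ∃ n s₀, n < s₀ ∧ ∀ s, s₀ ≤ s → (D.ent (R.LB s) n).2 = r + 1 := by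
  induction r using Nat.strong_induction_on with
  | _ r ih =>
    have hcom : ∀ m, m ≤ r → ∃ s₀, ∀ s, s₀ ≤ s → ∀ r', r' < m →
        ∃ n, n < s ∧ (D.ent (R.L s) n).2 = r' + 1 := by
      intro m
      induction m with
      | zero => intro _; exact ⟨0, fun s _ r' hr' => absurd hr' (by omega)⟩
      | succ m ihm =>
        intro hm
        obtain ⟨s₀, h0⟩ := ihm (by omega)
        obtain ⟨n, s₁, hn, h1⟩ := ih m (by omega)
        refine ⟨max s₀ s₁, fun s hs r' hr' => ?_⟩
        have hl := le_max_left s₀ s₁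
        have hr := le_max_right s₀ s₁
        rcases Nat.lt_or_ge r' m with h | h
        · exact h0 s (by omega) r' h
        · have : r' = m := by omega
          subst this
          refine ⟨n, by omega, ?_⟩
          rw [← R.entB_lt (by omega)]
          exact h1 s (by omega)
    obtain ⟨s₀, h0⟩ := hcom r le_rfl
    obtain ⟨s₁, h1⟩ := R.quiet G (2 * r)
    by_cases h : ∃ s n, max s₀ s₁ ≤ s ∧ n < s + 1 ∧ (D.ent (R.LB s) n).2 = r + 1
    · obtain ⟨s₂, n, hs₂, hn, h2⟩ := h
      refine ⟨n, s₂ + 1, hn, fun s hs => ?_⟩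
      have hr := le_max_right s₀ s₁
      have key : ∀ s, s₂ ≤ s → (D.ent (R.LB s) n).2 = r + 1 := by
        intro s hs
        induction s, hs using Nat.le_induction with
        | base => exact h2
        | succ t ht iht =>
          rw [R.entB_lt (by omega)]
          exact R.own_keep2 (fun p hp m => h1 t (by omega) p hp m) (by omega) iht
      exact key s (by omega)
    · exfalso
      push Not at h
      let s := 2 * (max s₀ s₁ + D.sp.length) + 1
      have hs : max s₀ s₁ ≤ s := by omega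
      have hs' : D.sp.length ≤ s := by omega
      have hl := le_max_left s₀ s₁
      rcases R.birth s with ⟨h2, _⟩ | ⟨_, h2, _⟩ | ⟨_, _, r', _, h3, h4, h5⟩
      · omega
      · omega
      · have hrr : r' = r := by
          rcases Nat.lt_trichotomy r' r with h6 | h6 | h6
          · obtain ⟨n, hn, h7⟩ := h0 s (by omega) r' h6
            exact absurd h7 (h4 n (by rw [R.len]; exact hn))
          · exact h6
          · obtain ⟨n, hn, h7⟩ := h3 r h6
            rw [R.len] at hn
            exfalso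
            refine h s n hs (by omega) ?_
            rw [R.entB_lt hn]
            exact h7
        refine h s s hs (by omega) ?_
        rw [R.entB_eq, h5, hrr]

/-- the witness requirements are satisfied -/
theorem defeat {Q : Set Pos} [Finite Pos] (G : Good D Q) (Lose : PP → Pos → St → Prop)
    (hL1 : ∀ P q z z', Lose P q z → z ≤ z' → Lose P q z')
    (Al : PP → Pos → St → Prop)
    (hL2 : ∀ P q z, q ∈ Q → Lose P q z → Al P q z → q ≠ D.mv P q z ∧ Lose P (D.mv P q z) z)
    (hL3 : ∀ P q z, D.mv P q z ≠ q → Al P q z)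
    (P : PP) (e : ℕ) (hP : ∀ z, Lose P (D.st P) z) :
    ∃ n, D.sp.length ≤ n ∧ ∃ s₀, n < s₀ ∧ ∀ s, s₀ ≤ s →
      ¬ Al P (D.ent (R.L s) n).1 (D.zs e s n) := by
  let r := Nat.pair e (Encodable.encode P)
  have hr1 : r.unpair.1 = e := by simp [r]
  have hr2 : D.pp r.unpair.2 = P := by
    unfold Dat.pp
    simp [r]
  obtain ⟨n, s₀, hn, hown⟩ := R.witness G r
  obtain ⟨s₁, h1⟩ := R.quiet G (2 * r)
  obtain ⟨s₂, _, h2⟩ := R.no_act G n
  have hsp : D.sp.length ≤ n := by
    by_contra hcon
    push Not at hcon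
    have h3 := hown s₀ le_rfl
    rw [R.entB_lt hn, R.sp_ent hcon s₀ hn] at h3
    simp at h3
  have inv : ∀ s, n < s + 1 → (D.ent (R.LB s) n).2 = r + 1 →
      Lose P (D.ent (R.LB s) n).1 (D.zs e (s + 1) n) := by
    intro s
    induction s with
    | zero =>
      intro h3 h4
      have : n = 0 := by omega
      subst this
      rw [R.entB_eq] at h4 ⊢
      rcases R.birth 0 with ⟨_, h5⟩ | ⟨_, _, h5⟩ | ⟨_, _, r', _, _, _, h5⟩
      · rw [h5] at h4; simp at h4
      · rw [h5] at h4; simp at h4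
      · rw [h5] at h4 ⊢
        simp only [Nat.add_right_cancel_iff] at h4
        rw [h4, hr2]
        exact hP _
    | succ t ih =>
      intro h3 h4
      rcases Nat.lt_or_ge n (t + 1) with h6 | h6
      · rw [R.entB_lt h6] at h4 ⊢
        have h7 : (D.ent (R.LB t) n).2 = r + 1 := by
          rcases R.own_step h6 with h8 | h8
          · rw [← h8]; exact h4
          · rw [h8] at h4; omega
        have h8 := ih h6 h7
        have hz : D.zs e (t + 1) n ≤ D.zs e (t + 1 + 1) n := G.hzm _ _ _ _ (by omega)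
        rcases R.ent_cases h6 with h9 | ⟨p, h9⟩
        · rw [h9]
          exact hL1 _ _ _ _ h8 hz
        · rcases R.A_ent h9 with ⟨g6, g7, _, ⟨_, g4⟩ | ⟨_, g4⟩⟩ | ⟨_, _, _, g4⟩
          · rw [g4] at h4; simp at h4
          · have g8 : p / 2 = r := by
              have := g7.2.1
              rw [h7] at this
              omega
            rw [g4]
            have g9 : D.tgt t (R.LB t) (p / 2) n =
                D.mv P (D.ent (R.LB t) n).1 (D.zs e (t + 1) n) := by
              rw [g8]
              unfold Dat.tgt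
              rw [hr1, hr2]
            have g10 := g7.2.2
            rw [g9] at g10
            change Lose P (D.tgt t (R.LB t) (p / 2) n) _
            rw [g9]
            have hQ := (R.memQ G hsp t).2 h6
            exact hL1 _ _ _ _ (hL2 P _ _ hQ h8 (hL3 _ _ _ g10)).2 hz
          · rw [g4] at h4; simp at h4
      · have : n = t + 1 := by omega
        subst this
        rw [R.entB_eq] at h4 ⊢
        rcases R.birth (t + 1) with ⟨_, h5⟩ | ⟨_, _, h5⟩ | ⟨_, _, r', _, _, _, h5⟩
        · rw [h5] at h4; simp at h4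
        · rw [h5] at h4; simp at h4
        · rw [h5] at h4 ⊢
          simp only [Nat.add_right_cancel_iff] at h4
          rw [h4, hr2]
          exact hP _
  refine ⟨n, hsp, max (max s₀ s₁) (max s₂ (2 * r)) + 1, ?_, fun s hs => ?_⟩
  · have := le_max_left s₀ s₁
    have := le_max_left (max s₀ s₁) (max s₂ (2 * r))
    omega
  · have e1 := le_max_left s₀ s₁
    have e2 := le_max_right s₀ s₁
    have e3 := le_max_left (max s₀ s₁) (max s₂ (2 * r))
    have e4 := le_max_right (max s₀ s₁) (max s₂ (2 * r))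
    have e5 := le_max_left s₂ (2 * r)
    have e6 := le_max_right s₂ (2 * r)
    obtain ⟨t, rfl⟩ : ∃ t, s = t + 1 := ⟨s - 1, by omega⟩
    have hnt : n < t + 1 := by omega
    have h3 : D.ent (R.L (t + 1)) n = D.ent (R.LB t) n := by
      rcases R.ent_cases hnt with h | ⟨p, h⟩
      · exact h
      · exact absurd h (h2 t p (by omega))
    rw [h3]
    intro hAl
    have h4 := inv t hnt (hown t (by omega))
    have hQ := (R.memQ G hsp t).2 hnt
    have h5 := hL2 P _ _ hQ h4 hAl
    have h6 : D.Want t (R.LB t) (R.S t) (2 * r) := by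
      refine ⟨n, by rw [R.lenB]; exact hnt, Or.inl ⟨by omega, ?_⟩⟩
      rw [show 2 * r / 2 = r by omega]
      refine ⟨by rw [R.lenB]; exact hnt, hown t (by omega), ?_⟩
      unfold Dat.tgt
      rw [hr1, hr2]
      exact h5.1.symm
    obtain ⟨p', hp', m, hA⟩ := R.want_acts (by omega) h6
    exact h1 t (by omega) p' hp' m hA

/-- old witnesses -/
theorem own_old {Q : Set Pos} [Finite Pos] (G : Good D Q) : ∀ k, ∃ M, ∀ s, M ≤ s → ∀ r, r < k →
    ∀ n, n < s + 1 → (D.ent (R.LB s) n).2 = r + 1 → n < M := by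
  intro k
  induction k with
  | zero => exact ⟨0, fun s _ r hr => absurd hr (by omega)⟩
  | succ k ih =>
    obtain ⟨M, hM⟩ := ih
    obtain ⟨n₀, s₀, hn₀, h0⟩ := R.witness G k
    refine ⟨max M s₀, fun s hs r hr n hn h => ?_⟩
    have hl := le_max_left M s₀
    have hr' := le_max_right M s₀
    rcases Nat.lt_or_ge r k with h1 | h1
    · have := hM s (by omega) r h1 n hn h
      omega
    · have : r = k := by omega
      subst this
      have := (R.own_unique (r := r) s).2 n n₀ hn (by omega) h (h0 s (by omega))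
      omega

/-- prompt simplicity -/
theorem prompt {Q : Set Pos} [Finite Pos] (G : Good D Q) (e : ℕ) (he : (W e).Infinite) :
    ∃ s x, x ∈ Ws e (s + 1) ∧ x ∉ Ws e s ∧ x < s + 1 ∧
      D.b (D.ent (R.L (s + 1)) x).1 = true := by
  by_contra hcon
  push Not at hcon
  obtain ⟨s₀, h0⟩ := R.quiet G (2 * e + 1)
  obtain ⟨s₁, hs₁, h1⟩ := R.blk_old (s₀ := s₀) (2 * e + 1)
    (fun j hj s hs p hp n => h0 s hs p (by omega) n)
  obtain ⟨M, hM⟩ := R.own_old G (e + 1)
  obtain ⟨x, hx, hlt⟩ := he.exists_gt (max (max s₁ M) (max (D.bd e) (2 * e + 1)))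
  have e1 := le_max_left s₁ M
  have e2 := le_max_right s₁ M
  have e3 := le_max_left (max s₁ M) (max (D.bd e) (2 * e + 1))
  have e4 := le_max_right (max s₁ M) (max (D.bd e) (2 * e + 1))
  have e5 := le_max_left (D.bd e) (2 * e + 1)
  have e6 := le_max_right (D.bd e) (2 * e + 1)
  -- the stage at which x appears
  obtain ⟨s, hs1, hs0⟩ : ∃ s, bb e (s + 1) x = 1 ∧ bb e s x = 0 := by
    classical
    have hex := (con_w e x).1 hx
    obtain ⟨t, ht, hmin⟩ : ∃ t, bb e t x = 1 ∧ ∀ t', t' < t → bb e t' x ≠ 1 :=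
      ⟨Nat.find hex, Nat.find_spec hex, fun m hm => Nat.find_min hex hm⟩
    have := con_bb_lt ht
    obtain ⟨s, rfl⟩ : ∃ s, t = s + 1 := ⟨t - 1, by omega⟩
    refine ⟨s, ht, ?_⟩
    have h3 := hmin s (by omega)
    have h4 := bb_le e s x
    omega
  have hxs := con_bb_lt hs1
  have hb' : D.b (D.ent (R.L (s + 1)) x).1 = false := by
    have := hcon s x ((con_ws _ _ _).2 hs1) (fun h => by
      have := (con_ws _ _ _).1 h
      omega) hxs
    simpa using this
  have hb : D.b (D.ent (R.LB s) x).1 = false := by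
    by_contra h
    have h2 : D.b (D.ent (R.LB s) x).1 = true := by simpa using h
    have h3 := G.hb _ _ (R.step_le G hxs) h2
    rw [hb'] at h3
    simp at h3
  have hw : D.Want s (R.LB s) (R.S s) (2 * e + 1) := by
    refine ⟨x, by rw [R.lenB]; exact hxs, Or.inr ⟨by omega, ?_⟩⟩
    rw [show (2 * e + 1) / 2 = e by omega]
    refine ⟨?_, by rw [R.lenB]; exact hxs, by omega, hs1, hs0, hb, ?_, ?_⟩
    · intro hS
      obtain ⟨t, _, m, hA⟩ := R.S_acts hS
      rcases R.A_ent hA with ⟨h6, _⟩ | ⟨_, h5, _, h4⟩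
      · omega
      · rw [show (2 * e + 1) / 2 = e by omega] at h5
        have h6 := hcon t m ((con_ws _ _ _).2 h5.2.2.2.1) (fun h => by
          have := (con_ws _ _ _).1 h
          have := h5.2.2.2.2.1
          omega) (R.A_lt hA)
        apply h6
        rw [h4]
        exact (G.hd _ ((R.memQ G (R.A_sp hA) t).2 (R.A_lt hA)) h5.2.2.2.2.2.1).2.1
    · intro hB
      have := h1 s x (by omega) hB
      omega
    · intro r hr h
      have := hM s (by omega) r hr x hxs h
      omega
  obtain ⟨p', hp', m, hA⟩ := R.want_acts (by omega) hw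
  exact h0 s (by omega) p' hp' m hA

/-- an element which is never in `A`, found by `W j` -/
theorem approx_lim {Q : Set Pos} [Finite Pos] (G : Good D Q) (j : ℕ) :
    ∃ s₀, ∀ s, s₀ ≤ s → ((∃ n, n < s ∧ bb j s n = 1 ∧ D.b (D.ent (R.L s) n).1 = false) ↔
      ∃ n, n ∈ W j ∧ ∀ t, n < t → D.b (D.ent (R.L t) n).1 = false) := by
  obtain ⟨s₀, h0⟩ := R.quiet G j
  have hfalse : ∀ {s n}, n < s + 1 → D.b (D.ent (R.L (s + 1)) n).1 = false →
      D.b (D.ent (R.LB s) n).1 = false := by
    intro s n hn h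
    by_contra h1
    have h2 : D.b (D.ent (R.LB s) n).1 = true := by simpa using h1
    have h3 := G.hb _ _ (R.step_le G hn) h2
    rw [h] at h3
    simp at h3
  rcases R.prot_stable h0 with ⟨n, s₁, hs₁, hn, h2⟩ | h2
  · refine ⟨s₁ + 1, fun s hs => ?_⟩
    have hP : ∀ t, s₁ + 1 ≤ t → bb j t n = 1 ∧ D.b (D.ent (R.L t) n).1 = false := by
      intro t ht
      have h3 := (h2 (t - 1) (by omega) n).2 rfl
      rw [show t = (t - 1) + 1 by omega]
      refine ⟨h3.2.1.1, ?_⟩
      have h4 := ((h2 ((t - 1) + 1) (by omega) n).2 rfl).2.1.2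
      rwa [R.entB_lt (by omega)] at h4
    constructor
    · intro _
      refine ⟨n, (con_w j n).2 ⟨s₁ + 1, (hP _ le_rfl).1⟩, fun t ht => ?_⟩
      by_contra h
      have h3 : D.b (D.ent (R.L t) n).1 = true := by simpa using h
      have h4 := G.hb _ _ (R.pos_le G ht (le_max_left t (s₁ + 1))) h3
      rw [(hP _ (le_max_right t (s₁ + 1))).2] at h4
      simp at h4
    · intro _
      exact ⟨n, by omega, hP s hs⟩
  · refine ⟨s₀ + 1, fun s hs => ?_⟩
    have hno : ∀ t, s₀ ≤ t → ∀ n, n < t + 1 → ¬ D.Out t (R.LB t) j n := by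
      intro t ht n hn ho
      classical
      have hex : ∃ i, D.Out t (R.LB t) j i := ⟨n, ho⟩
      obtain ⟨i₀, hi₀, hm⟩ : ∃ i, D.Out t (R.LB t) j i ∧
          ∀ i', i' < i → ¬ D.Out t (R.LB t) j i' :=
        ⟨Nat.find hex, Nat.find_spec hex, fun m hm => Nat.find_min hex hm⟩
      have hle : i₀ ≤ n := by
        by_contra hcon
        push Not at hcon
        exact hm n hcon ho
      exact h2 t ht i₀ ⟨by rw [R.lenB]; omega, hi₀, hm⟩
    constructor
    · rintro ⟨n, hn, h3, h4⟩
      exfalso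
      obtain ⟨t, rfl⟩ : ∃ t, s = t + 1 := ⟨s - 1, by omega⟩
      exact hno t (by omega) n hn ⟨h3, hfalse hn h4⟩
    · rintro ⟨n, hn, h3⟩
      exfalso
      obtain ⟨t, ht⟩ := (con_w j n).1 hn
      let t' := max (max t n) s₀
      have e1 := le_max_left t n
      have e2 := le_max_right t n
      have e3 := le_max_left (max t n) s₀
      have e4 := le_max_right (max t n) s₀
      refine hno t' e4 n (by omega) ⟨?_, ?_⟩
      · have h5 := bb_mono (k := j) (x := n) (show t ≤ t' + 1 by omega)
        have h6 := bb_le j (t' + 1) n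
        omega
      · exact hfalse (by omega) (h3 (t' + 1) (by omega))

end Run

end Pool.Agent.GO
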