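import Pool.Agent.GO.ConC

/-!
The construction, part D: the result.
-/

set_option autoImplicit false
set_option linter.unusedSectionVars false

namespace Pool.Agent.GO

open Pool.Agent.H36.LFI (SD)
open Pool.Agent.H36.MinNum

namespace Run

variable {Pos St PP : Type} [Primcodable Pos] [Primcodable St] [Primcodable PP]
  [PartialOrder Pos] [PartialOrder St] {D : Dat Pos St PP} (R : Run D)

theorem free_cases {n : ℕ} {q : Pos} (hv : R.v n = (q, 0)) : ∀ s, n < s →
    D.ent (R.L s) n = (q, 0) ∨ (D.b q = false ∧ ∃ e t, R.A t (2 * e + 1) n) := by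
  intro s
  induction s with
  | zero => intro h; omega
  | succ s ih =>
    intro h
    have hB : D.ent (R.LB s) n = (q, 0) ∨ (D.b q = false ∧ ∃ e t, R.A t (2 * e + 1) n) := by
      rcases Nat.lt_or_ge n s with h1 | h1
      · rw [R.entB_lt h1]
        exact ih h1
      · have : n = s := by omega
        subst this
        rw [R.entB_eq]
        exact Or.inl hv
    rcases hB with hB | hB
    · rcases R.ent_cases h with h1 | ⟨p, h1⟩
      · left; rw [h1, hB]
      · rcases R.A_ent h1 with ⟨_, h7, _⟩ | ⟨h6, h5, _, _⟩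
        · have := h7.2.1
          rw [hB] at this
          simp at this
        · right
          refine ⟨?_, p / 2, s, ?_⟩
          · have := h5.2.2.2.2.2.1
            rwa [hB] at this
          · rwa [show 2 * (p / 2) + 1 = p by omega]
    · exact Or.inr hB

theorem free {Q : Set Pos} (G : Good D Q) (q : Pos) (hq : q ∈ Q) (n₀ : ℕ) :
    ∃ n, n₀ ≤ n ∧ ∀ s, n < s → (D.ent (R.L s) n).1 = q := by
  classical
  have hmem := (G.hlp q).2 hq
  obtain ⟨c, hc, hcq⟩ := List.getElem_of_mem hmem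
  have hlen : 0 < D.lp.length := by omega
  let N : ℕ → ℕ := fun i => 2 * (D.lp.length * i + c)
  have hNi : ∀ i, i ≤ N i := by
    intro i
    change i ≤ 2 * (D.lp.length * i + c)
    have := Nat.le_mul_of_pos_left i hlen
    omega
  have hv : ∀ i, D.sp.length ≤ i → R.v (N i) = (q, 0) := by
    intro i hi
    have h1 := hNi i
    have h2 : N i / 2 % D.lp.length = c := by
      change 2 * (D.lp.length * i + c) / 2 % D.lp.length = c
      rw [Nat.mul_div_cancel_left _ (by norm_num), Nat.mul_add_mod, Nat.mod_eq_of_lt hc]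
    have h3 : N i % 2 = 0 := by
      change 2 * (D.lp.length * i + c) % 2 = 0
      omega
    rcases R.birth (N i) with ⟨h4, _⟩ | ⟨_, _, h5⟩ | ⟨_, h4, _⟩
    · omega
    · rw [h5, h2]
      rw [List.getD_eq_getElem _ _ hc, hcq]
    · omega
  by_contra hcon
  push Not at hcon
  let i₀ := n₀ + D.sp.length
  have hact : ∀ i, i₀ ≤ i → ∃ e t, R.A t (2 * e + 1) (N i) := by
    intro i hi
    have h1 := hNi i
    obtain ⟨s, hs, hne⟩ := hcon (N i) (by omega)
    rcases R.free_cases (hv i (by omega)) s hs with h2 | h2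
    · rw [h2] at hne
      exact absurd rfl hne
    · exact h2.2
  choose! ef tf hf using hact
  have hinj : Set.InjOn ef (Finset.Ico i₀ (i₀ + (i₀ + 1)) : Set ℕ) := by
    intro i hi i' hi' hee
    rw [Finset.coe_Ico, Set.mem_Ico] at hi hi'
    have h1 := hf i hi.1
    have h2 := hf i' hi'.1
    rw [← hee] at h2
    have h3 := R.P_once h1 h2
    rw [← h3] at h2
    have h4 := R.A_elem G h1 h2
    have h5 : 2 * (D.lp.length * i + c) = 2 * (D.lp.length * i' + c) := h4
    exact Nat.eq_of_mul_eq_mul_left hlen (by omega)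
  have hmap : ∀ i ∈ Finset.Ico i₀ (i₀ + (i₀ + 1)), ef i ∈ Finset.range i₀ := by
    intro i hi
    rw [Finset.mem_Ico] at hi
    rw [Finset.mem_range]
    have h1 := hf i hi.1
    rcases R.A_ent h1 with ⟨h6, _⟩ | ⟨_, h5, _, _⟩
    · omega
    · rw [show (2 * ef i + 1) / 2 = ef i by omega] at h5
      have h7 : 4 * D.lp.length * (ef i + 1) + D.sp.length ≤ 2 * (D.lp.length * i + c) :=
        h5.2.2.1
      by_contra hge
      push Not at hge
      have h8 : 4 * D.lp.length * (i₀ + 1) ≤ 4 * D.lp.length * (ef i + 1) :=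
        Nat.mul_le_mul_left _ (by omega)
      have h9 : D.lp.length * i ≤ D.lp.length * (2 * i₀) := Nat.mul_le_mul_left _ (by omega)
      have h10 : 4 * D.lp.length * (i₀ + 1) = 2 * (D.lp.length * (2 * i₀)) + 4 * D.lp.length := by
        ring
      omega
  have := Finset.card_le_card_of_injOn ef hmap hinj
  rw [Nat.card_Ico, Finset.card_range] at this
  omega

end Run

theorem construction {Pos St PP : Type} [Primcodable Pos] [Finite Pos] [PartialOrder Pos]
    [Primcodable St] [Finite St] [PartialOrder St] [Primcodable PP] [Finite PP] [Nonempty PP]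
    (b : Pos → Bool) (Q : Set Pos) (hQ0 : ∃ q ∈ Q, b q = false)
    (sp : List Pos) (d : Pos → Pos) (hd : ∀ q ∈ Q, b q = false → d q ∈ Q ∧ b (d q) = true ∧ q ≤ d q)
    (hb : ∀ q q', q ≤ q' → b q = true → b q' = true) (st : PP → Pos) (hst : ∀ P, st P ∈ Q)
    (mv : PP → Pos → St → Pos)
    (hmv : ∀ P q z, q ∈ Q → mv P q z ∈ Q ∧ q ≤ mv P q z)
    (zs : ℕ → ℕ → ℕ → St) (hzs : Primrec (fun x : ℕ × ℕ × ℕ => zs x.1 x.2.1 x.2.2))
    (hzm : ∀ e s s' n, s ≤ s' → zs e s n ≤ zs e s' n)
    (Lose : PP → Pos → St → Prop)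
    (hL1 : ∀ P q z z', Lose P q z → z ≤ z' → Lose P q z')
    (Al : PP → Pos → St → Prop)
    (hL2 : ∀ P q z, q ∈ Q → Lose P q z → Al P q z → q ≠ mv P q z ∧ Lose P (mv P q z) z)
    (hL3 : ∀ P q z, mv P q z ≠ q → Al P q z) :
    ∃ pos : ℕ → ℕ → Pos, Computable₂ pos ∧
      (∀ s s' n, s ≤ s' → pos s n ≤ pos s' n) ∧
      (∀ s n, n < sp.length → pos s n = sp.getD n (pos s n)) ∧
      (∀ s n, sp.length ≤ n → pos s n ∈ Q) ∧
      (∀ q ∈ Q, ∀ n₀, ∃ n, n₀ ≤ n ∧ ∀ s, pos s n = q) ∧
      (∀ e, (W e).Infinite → ∃ s x, x ∈ Ws e (s + 1) ∧ x ∉ Ws e s ∧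
        b (pos (s + 1) x) = true) ∧
      (∃ g, IsApprox {n | ∀ s, b (pos s n) = false} g) ∧
      (∀ P e, (∀ z, Lose P (st P) z) → ∃ n, sp.length ≤ n ∧ ∃ s₀, ∀ s, s₀ ≤ s →
        ¬ Al P (pos s n) (zs e s n)) := by
  classical
  obtain ⟨q₀, hq₀, -⟩ := hQ0
  obtain ⟨P₀⟩ := ‹Nonempty PP›
  have _ := Fintype.ofFinite Pos
  let D : Dat Pos St PP :=
    { b := b, p0 := q₀, P0 := P₀, sp := sp
      lp := (Finset.univ.filter (fun q => q ∈ Q)).toList
      d := d, st := st, mv := mv, zs := zs, hzs := hzs }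
  have G : Good D Q :=
    { hp0 := hq₀
      hlp := fun q => by simp [D]
      hd := hd, hb := hb, hst := hst, hmv := hmv, hzm := hzm }
  obtain ⟨σ, hσ, h0, hR⟩ := con_stages D
  choose v hv using hR
  let R : Run D :=
    { L := fun s => (σ s).1
      S := fun s => (σ s).2
      v := v
      L0 := by rw [h0]
      S0 := by rw [h0]
      birth := fun s => (hv s).1
      step := fun s => (hv s).2 }
  have hmax : ∀ s n, n < max s (n + 1) := fun s n => by
    have := le_max_right s (n + 1)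
    omega
  refine ⟨fun s n => (D.ent (R.L (max s (n + 1))) n).1, ?_, ?_, ?_, ?_, ?_, ?_, ?_, ?_⟩
  · have h1 : Computable (fun x : ℕ × ℕ => (σ (max x.1 (x.2 + 1)), x.2)) := by
      refine Computable.pair (hσ.comp ?_) Computable.snd
      exact (Primrec.nat_max.comp Primrec.fst (Primrec.succ.comp Primrec.snd)).to_comp
    have h2 : Primrec (fun y : (List (Pos × ℕ) × List ℕ) × ℕ => (D.ent y.1.1 y.2).1) :=
      p_fst (con_ent D (p_fst Primrec.fst) Primrec.snd)
    exact h2.to_comp.comp h1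
  · intro s s' n hs
    exact R.pos_le G (hmax s n) (by omega)
  · intro s n hn
    have h1 := R.sp_ent (D := D) hn _ (hmax s n)
    have h2 : (D.ent (R.L (max s (n + 1))) n).1 = sp.getD n q₀ := congrArg Prod.fst h1
    change (D.ent (R.L (max s (n + 1))) n).1 = sp.getD n (D.ent (R.L (max s (n + 1))) n).1
    rw [List.getD_eq_getElem _ _ hn] at h2 ⊢
    exact h2
  · intro s n hn
    exact (R.memQ G hn _).1 (hmax s n)
  · intro q hq n₀
    obtain ⟨n, hn, h1⟩ := R.free G q hq n₀
    exact ⟨n, hn, fun s => h1 _ (hmax s n)⟩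
  · intro e he
    obtain ⟨s, x, h1, h2, h3, h4⟩ := R.prompt G e he
    refine ⟨s, x, h1, h2, ?_⟩
    change b (D.ent (R.L (max (s + 1) (x + 1))) x).1 = true
    rw [max_eq_left (by omega)]
    exact h4
  · have hP : PrimrecPred (fun x : (ℕ × ℕ) × List (Pos × ℕ) =>
        ∃ n, n < x.1.2 ∧ (bb x.1.1 x.1.2 n = 1 ∧ D.b (D.ent x.2 n).1 = false)) := by
      refine con_bex (p_snd Primrec.fst) (con_and (con_eq (p_bb ?_ ?_ Primrec.snd) (p_const 1))
        (con_eq (con_fin D.b (p_fst (con_ent D ?_ Primrec.snd))) (p_const false)))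
      · exact p_fst (p_fst Primrec.fst)
      · exact p_snd (p_fst Primrec.fst)
      · exact p_snd Primrec.fst
    refine ⟨fun j s => decide (∃ n, n < s ∧ (bb j s n = 1 ∧
      D.b (D.ent (R.L s) n).1 = false)), ?_, fun j => ?_⟩
    · have h1 : Computable (fun x : ℕ × ℕ => (x, (σ x.2).1)) :=
        Computable.pair Computable.id (Computable.fst.comp (hσ.comp Computable.snd))
      exact hP.decide.to_comp.comp h1
    · obtain ⟨s₀, h1⟩ := R.approx_lim G j
      refine ⟨s₀, fun s hs => ?_⟩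
      rw [decide_eq_true_iff, h1 s hs]
      constructor
      · rintro ⟨n, hn, h2⟩
        exact ⟨n, hn, fun s => h2 _ (hmax s n)⟩
      · rintro ⟨n, hn, h2⟩
        refine ⟨n, hn, fun t ht => ?_⟩
        have h3 : D.b (D.ent (R.L (max t (n + 1))) n).1 = false := h2 t
        rwa [max_eq_left (by omega)] at h3
  · intro P e hP
    obtain ⟨n, hn, s₀, hs₀, h1⟩ := R.defeat G Lose hL1 Al hL2 hL3 P e hP
    refine ⟨n, hn, s₀, fun s hs => ?_⟩
    change ¬ Al P (D.ent (R.L (max s (n + 1))) n).1 (zs e s n)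
    rw [max_eq_left (by omega)]
    exact h1 s hs

end Pool.Agent.GO
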