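import Mathlib

/-!
Definitions: the lattice of r.e. sets, promptly simple sets, semi-low sets, the orbit of the
r.e. generic sets, and the sets defined in the lattice by `∃∀` formulas.
-/

set_option autoImplicit false

namespace Pool.Agent.GO

open Nat.Partrec (Code)

/-- The `e`-th r.e. set. -/
def W (e : ℕ) : Set ℕ := {x | (Code.eval (Denumerable.ofNat Code e) x).Dom}

/-- The standard enumeration of `W e`: the elements found in `s` steps. -/
def Ws (e s : ℕ) : Set ℕ :=
  {x | (Code.evaln s (Denumerable.ofNat Code e) x).isSome = true}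

/-- The lattice of all r.e. sets, ordered by inclusion. -/
abbrev EE : Type := {A : Set ℕ // REPred (fun n => n ∈ A)}

/-- `A` is a simple set: r.e., with an infinite complement that contains no infinite r.e. set. -/
def IsSimple (A : Set ℕ) : Prop :=
  REPred (fun n => n ∈ A) ∧ Aᶜ.Infinite ∧ ∀ e, (W e).Infinite → (W e ∩ A).Nonempty

/-- `A` is promptly simple. The finite sets `A_s` of the recursive enumeration of `A` are given
by lists. -/
def IsPromptlySimple (A : Set ℕ) : Prop :=
  IsSimple A ∧ ∃ (As : ℕ → List ℕ) (p : ℕ → ℕ), Computable As ∧ Computable p ∧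
    (∀ s x, x ∈ As s → x ∈ As (s + 1)) ∧ (∀ x, x ∈ A ↔ ∃ s, x ∈ As s) ∧
    ∀ e, (W e).Infinite → ∃ s x, x ∈ Ws e (s + 1) ∧ x ∉ Ws e s ∧ x ∈ As (p s)

open Classical in
/-- The characteristic function of a set, as an oracle. -/
noncomputable def chf (S : Set ℕ) : ℕ →. ℕ := fun n => Part.some (if n ∈ S then 1 else 0)

/-- The halting set, of degree `0'`. -/
def Halt : Set ℕ := {e | e ∈ W e}

/-- `S` is semi-low: the set of all `e` such that `W e` meets `S` is recursive in `0'`. -/
def IsSemiLow (S : Set ℕ) : Prop :=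
  TuringReducible (chf {e | (W e ∩ S).Nonempty}) (chf Halt)

/-- The orbit of the r.e. generic sets under the automorphisms of the lattice of r.e. sets: the
sets which are automorphic to a promptly simple set with semi-low complement. -/
def genericOrbit : Set EE :=
  {B | ∃ (A : EE) (Φ : EE ≃o EE), IsPromptlySimple A.1 ∧ IsSemiLow A.1ᶜ ∧ Φ A = B}

/-- Variables: one free variable `x`, and two countable families of bound variables. -/
inductive Var
  | x
  | y (i : ℕ)
  | z (i : ℕ)

/-- Terms of the language of lattices. -/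
inductive Term
  | var (v : Var)
  | bot
  | top
  | sup (s t : Term)
  | inf (s t : Term)

/-- Quantifier free formulas of the language of lattices. -/
inductive QF
  | eq (s t : Term)
  | le (s t : Term)
  | not (φ : QF)
  | and (φ ψ : QF)

/-- The value of a term. -/
def Term.val (ρ : Var → Set ℕ) : Term → Set ℕ
  | .var v => ρ v
  | .bot => ∅
  | .top => Set.univ
  | .sup s t => s.val ρ ∪ t.val ρ
  | .inf s t => s.val ρ ∩ t.val ρ

/-- The truth of a quantifier free formula. -/
def QF.Holds (ρ : Var → Set ℕ) : QF → Prop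
  | .eq s t => s.val ρ = t.val ρ
  | .le s t => s.val ρ ⊆ t.val ρ
  | .not φ => ¬ φ.Holds ρ
  | .and φ ψ => φ.Holds ρ ∧ ψ.Holds ρ

/-- The assignment of the variables. -/
def asg (X : EE) (Y Z : ℕ → EE) : Var → Set ℕ
  | .x => X.1
  | .y i => (Y i).1
  | .z i => (Z i).1

/-- The class of r.e. sets defined by the `∃∀` formula `∃ y₀ y₁ … ∀ z₀ z₁ … φ (x, y, z)` (only
finitely many variables occur in `φ`). -/
def sigma2 (φ : QF) : Set EE :=
  {X | ∃ Y : ℕ → EE, ∀ Z : ℕ → EE, φ.Holds (asg X Y Z)}

/-- The classes of r.e. sets that are defined by Boolean combinations of `∃∀` formulas. -/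
inductive BoolSigma2 : Set EE → Prop
  | base (φ : QF) : BoolSigma2 (sigma2 φ)
  | compl (S : Set EE) : BoolSigma2 S → BoolSigma2 Sᶜ
  | inter (S T : Set EE) : BoolSigma2 S → BoolSigma2 T → BoolSigma2 (S ∩ T)

end Pool.Agent.GO
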