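import Pool.Agent.GO.Base

/-!
ROW G: a winning strategy of the second player is realized by r.e. sets (helper38).
-/

set_option autoImplicit false

namespace Pool.Agent.GO

open Pool.Agent.H36.LFI (SD)

/-- monotone primitive recursive approximations of an r.e. set -/
private theorem game_approx {A : Set ℕ} (hA : RE A) : ∃ a : ℕ → ℕ → Bool, Primrec₂ a ∧
    (∀ n s t, s ≤ t → a s n = true → a t n = true) ∧ ∀ n, n ∈ A ↔ ∃ t, a t n = true := by
  classical
  obtain ⟨q, hq, e⟩ := hA
  have h1 : PrimrecRel (fun x y : ℕ => q y x) := hq.comp Primrec.snd Primrec.fst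
  refine ⟨fun t n => decide (∃ x < t, q n x), ?_, ?_, ?_⟩
  · exact (PrimrecRel.exists_lt h1).decide
  · intro n s t hst h
    rw [decide_eq_true_eq] at h ⊢
    obtain ⟨x, hx, hq⟩ := h
    exact ⟨x, by omega, hq⟩
  · intro n
    refine (e n).trans ?_
    constructor
    · rintro ⟨t, ht⟩
      exact ⟨t + 1, decide_eq_true ⟨t, by omega, ht⟩⟩
    · rintro ⟨t, ht⟩
      rw [decide_eq_true_eq] at ht
      obtain ⟨x, -, hx⟩ := ht
      exact ⟨x, hx⟩

private theorem game_eventually {A : Set ℕ} {a : ℕ → ℕ → Bool}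
    (h1 : ∀ n s t, s ≤ t → a s n = true → a t n = true) (h2 : ∀ n, n ∈ A ↔ ∃ t, a t n = true)
    (n : ℕ) : ∃ t₀, ∀ t, t₀ ≤ t → (a t n = true ↔ n ∈ A) := by
  by_cases h : n ∈ A
  · obtain ⟨t, ht⟩ := (h2 n).1 h
    exact ⟨t, fun s hs => ⟨fun _ => h, fun _ => h1 n t s hs ht⟩⟩
  · exact ⟨0, fun s _ => ⟨fun h' => (h2 n).2 ⟨s, h'⟩, fun h' => absurd h' h⟩⟩

section game

variable {Pos St : Type} [PartialOrder Pos] [PartialOrder St]

/-- the state `z` may rest at `q` -/
private def game_Sat (Q : Set Pos) (P : Set (Pos × St)) (q : Pos) (z : St) : Prop :=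
  (q, z) ∈ P ∧ ∀ q' ∈ Q, q < q' → Win Q P q' z

open Classical in
/-- the answer of the second player -/
private noncomputable def game_resp (Q : Set Pos) (P : Set (Pos × St)) (x : St × Pos) : St :=
  if game_Sat Q P x.2 x.1 then x.1
  else if h : x.2 ∈ Q ∧ ∃ z', x.1 ≤ z' ∧ game_Sat Q P x.2 z' then h.2.choose else x.1

private theorem game_resp_le (Q : Set Pos) (P : Set (Pos × St)) (x : St × Pos) :
    x.1 ≤ game_resp Q P x := by
  unfold game_resp
  split_ifs with h1 h2
  · exact le_rfl
  · exact h2.2.choose_spec.1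
  · exact le_rfl

private theorem game_resp_sat (Q : Set Pos) (P : Set (Pos × St)) (z : St) (q : Pos) (hq : q ∈ Q)
    (h : Win Q P q z) : game_Sat Q P q (game_resp Q P (z, q)) := by
  unfold game_resp
  obtain ⟨_, _, z', h1, h2, h3⟩ := h
  have hex : q ∈ Q ∧ ∃ z', z ≤ z' ∧ game_Sat Q P q z' := ⟨hq, z', h1, h2, h3⟩
  by_cases h4 : game_Sat Q P q z
  · rw [if_pos h4]
    exact h4
  · rw [if_neg h4, dif_pos hex]
    exact hex.2.choose_spec.2

private theorem game_resp_of_sat (Q : Set Pos) (P : Set (Pos × St)) (z : St) (q : Pos)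
    (h : game_Sat Q P q z) : game_resp Q P (z, q) = z := by
  unfold game_resp
  exact if_pos h

private theorem game_resp_of_not_mem (Q : Set Pos) (P : Set (Pos × St)) (z : St) (q : Pos)
    (h : q ∉ Q) : game_resp Q P (z, q) = z := by
  unfold game_resp
  split_ifs with h1 h2
  · rfl
  · exact absurd h2.1 h
  · rfl

private theorem game_win_of_sat {Q : Set Pos} {P : Set (Pos × St)} {z : St} {q q' : Pos}
    (h : game_Sat Q P q z) (hq' : q' ∈ Q) (hle : q ≤ q') : Win Q P q' z := by
  rcases hle.lt_or_eq with h1 | rfl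
  · exact h.2 q' hq' h1
  · exact Win.mk q z z le_rfl h.1 h.2

end game

theorem realize {N m : ℕ} (B : Set ℕ) (hB : RE B) (Y : Fin N → Set ℕ) (hY : ∀ i, RE (Y i))
    (Q : Set (Bool × (Fin N → Bool))) (P : Set ((Bool × (Fin N → Bool)) × (Fin m → Bool)))
    (hwin : ∀ q ∈ Q, Win Q P q (fun _ => false)) :
    ∃ Z : Fin m → Set ℕ, (∀ i, RE (Z i)) ∧
      ∀ n, patt B Y n ∈ Q → (patt B Y n, zpat Z n) ∈ P := by
  classical
  obtain ⟨b, hb, hb1, hb2⟩ := game_approx hB
  choose y hy hy1 hy2 using fun i => game_approx (hY i)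
  -- the approximations of the patterns
  set p : ℕ → ℕ → Bool × (Fin N → Bool) := fun t n => (b t n, fun i => y i t n) with hp
  have hpp : Primrec₂ p := by
    refine Primrec.pair hb (Primrec.fin_curry.2 ?_)
    have h1 : Primrec₂ (fun (i : Fin N) (x : ℕ × ℕ) => y i x.1 x.2) :=
      Primrec.fin_curry₁.2 (fun i => hy i)
    exact h1.comp Primrec.snd Primrec.fst
  have hmono : ∀ n t, p t n ≤ p (t + 1) n := by
    intro n t
    refine ⟨?_, fun i => ?_⟩
    · show b t n ≤ b (t + 1) n
      cases h : b t n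
      · exact Bool.false_le _
      · rw [hb1 n t (t + 1) (by omega) h]
    · show y i t n ≤ y i (t + 1) n
      cases h : y i t n
      · exact Bool.false_le _
      · rw [hy1 i n t (t + 1) (by omega) h]
  have hlim : ∀ n, ∃ t₀, ∀ t, t₀ ≤ t → p t n = patt B Y n := by
    intro n
    obtain ⟨t₁, ht₁⟩ := game_eventually hb1 hb2 n
    choose t₂ ht₂ using fun i => game_eventually (hy1 i) (hy2 i) n
    refine ⟨max t₁ (Finset.univ.sup t₂), fun t ht => ?_⟩
    have e1 : t₁ ≤ t := (le_max_left _ _).trans ht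
    have e2 : ∀ i, t₂ i ≤ t := fun i =>
      ((Finset.le_sup (Finset.mem_univ i)).trans (le_max_right _ _)).trans ht
    refine Prod.ext ?_ (funext fun i => ?_)
    · show b t n = decide (n ∈ B)
      rw [Bool.eq_iff_iff, decide_eq_true_eq]
      exact ht₁ t e1
    · show y i t n = decide (n ∈ Y i)
      rw [Bool.eq_iff_iff, decide_eq_true_eq]
      exact ht₂ i t (e2 i)
  -- the states
  set S : ℕ → ℕ → (Fin m → Bool) := fun n t =>
    Nat.rec (motive := fun _ => Fin m → Bool) (fun _ => false)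
      (fun t z => game_resp Q P (z, p t n)) t with hS
  have hS0 : ∀ n, S n 0 = fun _ => false := fun n => rfl
  have hS1 : ∀ n t, S n (t + 1) = game_resp Q P (S n t, p t n) := fun n t => rfl
  have hSp : Primrec₂ S := by
    refine Primrec.nat_rec (f := fun _ : ℕ => (fun _ => false : Fin m → Bool))
      (g := fun (n : ℕ) (x : ℕ × (Fin m → Bool)) => game_resp Q P (x.2, p x.1 n))
      (Primrec.const _) ?_
    refine (Primrec.dom_finite (game_resp Q P)).comp ?_
    exact Primrec.pair (Primrec.snd.comp Primrec.snd)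
      (hpp.comp (Primrec.fst.comp Primrec.snd) Primrec.fst)
  have hSmono : ∀ n, Monotone (S n) := by
    intro n
    apply monotone_nat_of_le_succ
    intro t
    rw [hS1]
    exact game_resp_le Q P (S n t, p t n)
  -- the invariant
  have hinv : ∀ n t, ∀ q' ∈ Q, p t n ≤ q' → Win Q P q' (S n t) := by
    intro n t
    induction t with
    | zero => intro q' hq' _; exact hwin q' hq'
    | succ t ih =>
      intro q' hq' hle
      have hle' : p t n ≤ q' := (hmono n t).trans hle
      rw [hS1]
      by_cases hq : p t n ∈ Q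
      · exact game_win_of_sat (game_resp_sat Q P _ _ hq (ih _ hq le_rfl)) hq' hle'
      · rw [game_resp_of_not_mem Q P _ _ hq]
        exact ih q' hq' hle'
  refine ⟨fun i => {n | ∃ t, S n t i = true}, fun i => ?_, fun n hn => ?_⟩
  · refine ⟨fun n t => S n t i = true, ?_, fun n => Iff.rfl⟩
    exact Primrec.eq.comp (Primrec.fin_app.comp hSp (Primrec.const i)) (Primrec.const true)
  · obtain ⟨t₀, ht₀⟩ := hlim n
    have hsat : game_Sat Q P (patt B Y n) (S n (t₀ + 1)) := by
      rw [hS1, ht₀ t₀ le_rfl]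
      exact game_resp_sat Q P _ _ hn (hinv n t₀ _ hn (ht₀ t₀ le_rfl).le)
    have hconst : ∀ t, t₀ + 1 ≤ t → S n t = S n (t₀ + 1) := by
      intro t ht
      induction t, ht using Nat.le_induction with
      | base => rfl
      | succ t ht ih =>
        rw [hS1, ih, ht₀ t (by omega)]
        exact game_resp_of_sat Q P _ _ hsat
    have hz : zpat (fun i => {n | ∃ t, S n t i = true}) n = S n (t₀ + 1) := by
      funext i
      show decide (∃ t, S n t i = true) = S n (t₀ + 1) i
      rw [Bool.eq_iff_iff, decide_eq_true_eq]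
      constructor
      · rintro ⟨t, ht⟩
        rcases le_total t (t₀ + 1) with h | h
        · have h1 : S n t i ≤ S n (t₀ + 1) i := hSmono n h i
          rw [ht] at h1
          exact Bool.eq_true_of_true_le h1
        · rw [← hconst t h]
          exact ht
      · intro h
        exact ⟨t₀ + 1, h⟩
    rw [hz]
    exact hsat.1

end Pool.Agent.GO
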