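import Pool.Agent.GO.Base
import Pool.Agent.H36.LFI.Functional

/-!
The limit lemma for semi-low sets (project GO, MP_85db69_lc, row GO-4).
-/

set_option autoImplicit false

namespace Pool.Agent.GO

open Pool.Agent.H36.LFI (SD Str ini chi Mono exists_functional approx)
open Nat.Partrec (Code)

/-! ### From approximations to the oracle -/

theorem lim_code {C : ℕ → Prop} (hC : SD C) : ∃ h : ℕ → ℕ, Computable h ∧
    ∀ m, C m ↔ h m ∈ Halt := by
  -- semidecidable predicate on pairs
  have h1 : SD (fun p : ℕ => C p.unpair.1) :=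
    hC.comp (Primrec.fst.comp Primrec.unpair)
  obtain ⟨c, hc⟩ := Code.exists_code.1 (Partrec.nat_iff.1
    ((h1.to_re.map (Computable.const (0 : ℕ)).to₂)))
  refine ⟨fun m => Encodable.encode (Code.curry c m), ?_, ?_⟩
  · exact Computable.encode.comp
      (Primrec₂.to_comp Code.primrec₂_curry |>.comp (Computable.const c) Computable.id)
  · intro m
    show C m ↔ (Code.eval (Denumerable.ofNat Code (Encodable.encode (Code.curry c m)))
      (Encodable.encode (Code.curry c m))).Dom
    rw [Denumerable.ofNat_encode, Code.eval_curry, hc]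
    simp [Part.assert]

theorem lim_change {g : ℕ → ℕ → Bool} (hg : Computable₂ g) :
    SD (fun p : ℕ => ∃ t, p.unpair.2 < t ∧ g p.unpair.1 t ≠ g p.unpair.1 p.unpair.2) := by
  refine SD.ex (p := fun (p t : ℕ) => p.unpair.2 < t ∧
    g p.unpair.1 t ≠ g p.unpair.1 p.unpair.2) (SD.and (SD.of_primrec ?_) (SD.of_computable ?_))
  · exact Primrec.nat_lt.comp (Primrec.snd.comp (Primrec.unpair.comp Primrec.fst)) Primrec.snd
  · have e1 : Computable (fun x : ℕ × ℕ => x.1.unpair.1) :=
      (Primrec.fst.comp (Primrec.unpair.comp Primrec.fst)).to_comp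
    have e2 : Computable (fun x : ℕ × ℕ => x.1.unpair.2) :=
      (Primrec.snd.comp (Primrec.unpair.comp Primrec.fst)).to_comp
    refine ⟨fun _ => instDecidableNot, ?_⟩
    have h1 : Computable (fun b : Bool × Bool => decide (b.1 ≠ b.2)) :=
      (Primrec.dom_finite _).to_comp
    exact h1.comp ((hg.comp e1 Computable.snd).pair (hg.comp e1 e2))

theorem semilow_of_approx {S : Set ℕ} {g : ℕ → ℕ → Bool} (h : IsApprox S g) :
    IsSemiLow S := by
  classical
  obtain ⟨hg, hlim⟩ := h
  obtain ⟨hh, hhc, hhe⟩ := lim_code (lim_change hg)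
  -- the search
  have o1 : Nat.RecursiveIn {chf Halt} (fun p => chf Halt (hh p)) := by
    have a1 : Nat.RecursiveIn {chf Halt} (fun p => Part.some (hh p)) :=
      (Partrec.nat_iff.1 hhc.partrec).recursiveIn
    have a2 : Nat.RecursiveIn {chf Halt} (chf Halt) := Nat.RecursiveIn.oracle _ rfl
    refine (Nat.RecursiveIn.comp a2 a1).of_eq (fun n => ?_)
    simp
  have o2 := Nat.RecursiveIn.rfind o1
  have o3 : Nat.RecursiveIn {chf Halt} (fun p : ℕ =>
      Part.some (if g p.unpair.1 p.unpair.2 = true then 1 else 0)) := by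
    refine Nat.Partrec.recursiveIn (Partrec.nat_iff.1 ?_)
    refine Computable.partrec ?_
    have h1 : Computable (fun b : Bool => if b = true then (1 : ℕ) else 0) :=
      (Primrec.dom_finite _).to_comp
    exact h1.comp (hg.comp (Primrec.fst.comp Primrec.unpair).to_comp
      (Primrec.snd.comp Primrec.unpair).to_comp)
  have o4 : Nat.RecursiveIn {chf Halt} (fun e : ℕ => Part.some e) :=
    (Partrec.nat_iff.1 Computable.id.partrec).recursiveIn
  have o5 := Nat.RecursiveIn.comp o3 (Nat.RecursiveIn.pair o4 o2)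
  rw [IsSemiLow, TuringReducible, RecursiveIn.iff_nat]
  refine o5.of_eq (fun e => ?_)
  -- the value of the search
  have hz : ∀ s, (0 ∈ chf Halt (hh (Nat.pair e s))) ↔ ∀ t, s < t → g e t = g e s := by
    intro s
    have := hhe (Nat.pair e s)
    simp only [Nat.unpair_pair] at this
    unfold chf
    rw [Part.mem_some_iff]
    constructor
    · intro h0 t ht
      by_contra hne
      have h1 := this.1 ⟨t, ht, hne⟩
      rw [if_pos h1] at h0
      exact absurd h0 (by norm_num)
    · intro h0
      rw [if_neg]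
      intro h1
      obtain ⟨t, ht, hne⟩ := this.2 h1
      exact hne (h0 t ht)
  obtain ⟨s₀, hs₀⟩ := hlim e
  have hdom : (Nat.rfind fun n => (fun m => decide (m = 0)) <$>
      chf Halt (hh (Nat.pair e n))).Dom := by
    rw [Nat.rfind_dom]
    refine ⟨s₀, ?_, ?_⟩
    · have h0 : 0 ∈ chf Halt (hh (Nat.pair e s₀)) := by
        rw [hz]
        intro t ht
        have h1 := hs₀ t ht.le
        have h2 := hs₀ s₀ le_rfl
        rw [Bool.eq_iff_iff]
        exact h1.trans h2.symm
      simp only [Part.map_eq_map, Part.mem_map_iff]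
      exact ⟨0, h0, by simp⟩
    · intro m _
      unfold chf
      simp
  obtain ⟨s, hs⟩ := Part.dom_iff_mem.1 hdom
  have hs0 : ∀ t, s < t → g e t = g e s := by
    rw [← hz]
    have := Nat.rfind_spec hs
    simp only [Part.map_eq_map, Part.mem_map_iff] at this
    obtain ⟨a, ha, ha0⟩ := this
    have : a = 0 := by simpa using ha0
    rwa [this] at ha
  have hval : g e s = true ↔ (W e ∩ S).Nonempty := by
    have h1 := hs₀ (max s₀ (s + 1)) (le_max_left _ _)
    rw [← h1, hs0 _ (lt_of_lt_of_le (Nat.lt_succ_self s) (le_max_right _ _))]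
  have hse := Part.eq_some_iff.2 hs
  show ((Nat.pair <$> (Part.some e) <*> (Nat.rfind fun n => (fun m => decide (m = 0)) <$>
      chf Halt (hh (Nat.pair e n)))) >>= fun p : ℕ =>
        Part.some (if g p.unpair.1 p.unpair.2 = true then 1 else 0)) = _
  rw [hse]
  simp only [chf, Set.mem_ofPred_eq, ← hval]
  simp [Seq.seq]

/-! ### From the oracle to approximations -/

/-- the stages of the halting set -/
def limY (t n : ℕ) : Bool := (Code.evaln t (Denumerable.ofNat Code n) n).isSome

theorem limY_primrec : Primrec₂ limY := by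
  refine Primrec.option_isSome.comp (Code.primrec_evaln.comp
    (Primrec.pair (Primrec.pair Primrec.fst ((Primrec.ofNat Code).comp Primrec.snd))
      Primrec.snd))

open Classical in
/-- the characteristic function of the halting set -/
noncomputable def limH (n : ℕ) : Bool := decide (n ∈ Halt)

theorem chi_limH : chi limH = chf Halt := by
  classical
  funext n
  unfold chi chf limH
  by_cases h : n ∈ Halt <;> simp [h]

theorem limY_lim (N : ℕ) : ∃ t₀, ∀ t, t₀ ≤ t → ∀ n, n < N → limY t n = limH n := by
  induction N with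
  | zero => exact ⟨0, fun t _ n hn => absurd hn (Nat.not_lt_zero n)⟩
  | succ N ih =>
    obtain ⟨t₀, h₀⟩ := ih
    have h1 : ∃ t₁, ∀ t, t₁ ≤ t → limY t N = limH N := by
      by_cases h : N ∈ Halt
      · have h2 : (Code.eval (Denumerable.ofNat Code N) N).Dom := h
        obtain ⟨v, hv⟩ := Part.dom_iff_mem.1 h2
        obtain ⟨t₁, ht₁⟩ := Code.evaln_complete.1 hv
        refine ⟨t₁, fun t ht => ?_⟩
        have h3 := Code.evaln_mono ht ht₁
        rw [Option.mem_def] at h3
        simp [limY, limH, h, h3]
      · refine ⟨0, fun t _ => ?_⟩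
        have h2 : Code.evaln t (Denumerable.ofNat Code N) N = none := by
          rw [Option.eq_none_iff_forall_not_mem]
          intro v hv
          exact h (Part.dom_iff_mem.2 ⟨v, Code.evaln_sound hv⟩)
        simp [limY, limH, h, h2]
    obtain ⟨t₁, h₁⟩ := h1
    refine ⟨max t₀ t₁, fun t ht n hn => ?_⟩
    rcases Nat.lt_succ_iff_lt_or_eq.1 hn with h | h
    · exact h₀ t (le_trans (le_max_left _ _) ht) n h
    · subst h
      exact h₁ t (le_trans (le_max_right _ _) ht)

/-- the first value found in a search -/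
def limR (F : ℕ → Option ℕ) : ℕ → Option ℕ
  | 0 => none
  | m + 1 => (limR F m).orElse fun _ => F m

theorem limR_eq {F : ℕ → Option ℕ} {m v : ℕ} (hm : F m = some v) (h : ∀ k, k < m → F k = none) :
    ∀ n, m < n → limR F n = some v := by
  have h0 : ∀ k, k ≤ m → limR F k = none := by
    intro k
    induction k with
    | zero => intro _; rfl
    | succ k ih =>
      intro hk
      simp [limR, ih (by omega), h k (by omega)]
  intro n hn
  induction n with
  | zero => omega
  | succ n ih =>
    rcases Nat.lt_succ_iff_lt_or_eq.1 hn with h1 | h1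
    · simp [limR, ih h1]
    · subst h1
      simp [limR, h0 m le_rfl, hm]

theorem approx_of_semilow {S : Set ℕ} (h : IsSemiLow S) : ∃ g, IsApprox S g := by
  classical
  rw [IsSemiLow, TuringReducible, RecursiveIn.iff_nat, ← chi_limH] at h
  obtain ⟨Ψ, hΨ, hm, hv⟩ := exists_functional limH h
  obtain ⟨G, hG, hGe⟩ := approx (f := fun x : Str × ℕ => Ψ x.1 x.2) hΨ
  let F : ℕ → ℕ → ℕ → Option ℕ := fun e t m => G (ini (limY t) m.unpair.1, e) m.unpair.2
  have hF : Primrec (fun x : (ℕ × ℕ) × ℕ => F x.1.1 x.1.2 x.2) := by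
    have h1 : Primrec (fun x : (ℕ × ℕ) × ℕ => ini (limY x.1.2) x.2.unpair.1) := by
      refine Primrec.list_map (Primrec.list_range.comp
        (Primrec.fst.comp (Primrec.unpair.comp Primrec.snd))) ?_
      exact limY_primrec.comp (Primrec.snd.comp (Primrec.fst.comp Primrec.fst)) Primrec.snd
    exact hG.comp (Primrec.pair h1 (Primrec.fst.comp Primrec.fst))
      (Primrec.snd.comp (Primrec.unpair.comp Primrec.snd))
  have hR : Primrec (fun x : (ℕ × ℕ) × ℕ => limR (F x.1.1 x.1.2) x.2) := by
    have h1 : Primrec (fun x : (ℕ × ℕ) × ℕ => (Nat.rec (motive := fun _ => Option ℕ) none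
        (fun m r => Option.orElse r fun _ => F x.1.1 x.1.2 m) x.2 : Option ℕ)) := by
      refine Primrec.nat_rec' (f := fun x : (ℕ × ℕ) × ℕ => x.2)
        (g := fun _ : (ℕ × ℕ) × ℕ => (none : Option ℕ))
        (h := fun (x : (ℕ × ℕ) × ℕ) (p : ℕ × Option ℕ) => Option.orElse p.2 fun _ =>
          F x.1.1 x.1.2 p.1) Primrec.snd (Primrec.const none) ?_
      refine Primrec.option_orElse.comp (Primrec.snd.comp Primrec.snd) ?_
      exact hF.comp (Primrec.pair (Primrec.fst.comp Primrec.fst)
        (Primrec.fst.comp Primrec.snd))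
    refine h1.of_eq (fun x => ?_)
    induction x.2 with
    | zero => rfl
    | succ m ih =>
      show Option.orElse _ _ = Option.orElse _ _
      rw [ih]
  have hgp : PrimrecPred (fun x : ℕ × ℕ => limR (F x.1 x.2) x.2 = some 1) :=
    Primrec.eq.comp (hR.comp (Primrec.pair Primrec.id Primrec.snd)) (Primrec.const (some 1))
  refine ⟨fun e t => decide (limR (F e t) t = some 1), ?_, ?_⟩
  · exact (PrimrecPred.decide hgp).to_comp
  · intro e
    set v : ℕ := if e ∈ {e | (W e ∩ S).Nonempty} then 1 else 0 with hvdef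
    have hve : v ∈ chf {e | (W e ∩ S).Nonempty} e := by
      unfold chf
      rw [Part.mem_some_iff]
    have hex : ∃ m : ℕ, ∃ u : ℕ, G (ini limH m.unpair.1, e) m.unpair.2 = some u := by
      obtain ⟨k, hk⟩ := (hv e v).1 hve
      obtain ⟨t, ht⟩ := (hGe (ini limH k, e) v).1 hk
      exact ⟨Nat.pair k t, v, by simpa using ht⟩
    obtain ⟨u, hu⟩ := Nat.find_spec hex
    have hmin := fun (m : ℕ) (hlt : m < Nat.find hex) => Nat.find_min hex hlt
    set M := Nat.find hex with hM
    have huv : u = v := by
      have h1 : u ∈ Ψ (ini limH M.unpair.1) e := (hGe (ini limH M.unpair.1, e) u).2 ⟨_, hu⟩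
      have h2 : u ∈ chf {e | (W e ∩ S).Nonempty} e := (hv e u).2 ⟨_, h1⟩
      exact Part.mem_unique h2 hve
    obtain ⟨t₀, ht₀⟩ := limY_lim (M + 1)
    refine ⟨max t₀ (M + 1), fun t ht => ?_⟩
    have hini : ∀ m, m ≤ M → ini (limY t) m.unpair.1 = ini limH m.unpair.1 := by
      intro m hmM
      unfold ini
      refine List.map_congr_left (fun n hn => ?_)
      have h1 := List.mem_range.1 hn
      have h2 := Nat.unpair_left_le m
      exact ht₀ t (le_trans (le_max_left _ _) ht) n (by omega)
    have hval : limR (F e t) t = some v := by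
      refine limR_eq (m := M) ?_ ?_ t (lt_of_lt_of_le (Nat.lt_succ_self M)
        (le_trans (le_max_right _ _) ht))
      · show G (ini (limY t) M.unpair.1, e) M.unpair.2 = some v
        rw [hini M le_rfl, hu, huv]
      · intro k hk
        show G (ini (limY t) k.unpair.1, e) k.unpair.2 = none
        rw [hini k hk.le]
        have h1 := hmin k hk
        rw [Option.eq_none_iff_forall_ne_some]
        intro a ha
        exact h1 ⟨a, ha⟩
    rw [decide_eq_true_iff, hval, hvdef]
    by_cases h1 : e ∈ {e | (W e ∩ S).Nonempty}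
    · rw [if_pos h1]
      exact ⟨fun _ => h1, fun _ => rfl⟩
    · rw [if_neg h1]
      exact ⟨fun h2 => by simp at h2, fun h2 => absurd h2 h1⟩

end Pool.Agent.GO
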