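import Pool.Agent.GO.Pat1

/-!
Row GO-2: joins of simple sets, and `∃∀` formulas at joins.
-/

set_option autoImplicit false

namespace Pool.Agent.GO

open Pool.Agent.H36.LFI (SD)
open Pool.Agent.H36.MinNum

/-- a partition of the numbers into two parts: `S` on the part `p`, `T` on the other part -/
def pat2_gj (p : ℕ → Prop) (S T : Set ℕ) : Set ℕ :=
  {n | (p n ∧ n / 2 ∈ S) ∨ (¬ p n ∧ n / 2 ∈ T)}

theorem pat2_gj_re {p : ℕ → Prop} (hp : SD p) (hp' : SD (fun n => ¬ p n)) {S T : Set ℕ}
    (hS : RE S) (hT : RE T) : RE (pat2_gj p S T) := by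
  have h1 : SD (fun n => n / 2 ∈ S) := hS.comp (Primrec.nat_div.comp Primrec.id (Primrec.const 2))
  have h2 : SD (fun n => n / 2 ∈ T) := hT.comp (Primrec.nat_div.comp Primrec.id (Primrec.const 2))
  exact (hp.and h1).or (hp'.and h2)

theorem pat2_mod_sd (r : ℕ) : SD (fun n : ℕ => n % 2 = r) :=
  s_eq (Primrec.nat_mod.comp Primrec.id (Primrec.const 2)) (Primrec.const r)

theorem pat2_mod_sd' (r : ℕ) : SD (fun n : ℕ => ¬ n % 2 = r) :=
  s_ne (Primrec.nat_mod.comp Primrec.id (Primrec.const 2)) (Primrec.const r)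

theorem pat2_join_eq (A C : Set ℕ) : join A C = pat2_gj (fun n => n % 2 = 0) A C := by
  ext n
  simp only [join, pat2_gj, Set.mem_ofPred_eq]
  have h : n % 2 = 1 ↔ ¬ n % 2 = 0 := by omega
  rw [h]

theorem pat2_join_eq' (A C : Set ℕ) : join C A = pat2_gj (fun n => n % 2 = 1) A C := by
  ext n
  simp only [join, pat2_gj, Set.mem_ofPred_eq]
  have h : n % 2 = 0 ↔ ¬ n % 2 = 1 := by omega
  rw [h]
  tauto

theorem join_re {A C : Set ℕ} (hA : RE A) (hC : RE C) : RE (join A C) := by
  rw [pat2_join_eq]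
  exact pat2_gj_re (pat2_mod_sd 0) (pat2_mod_sd' 0) hA hC

theorem pat2_index {V : Set ℕ} (hV : RE V) : ∃ e, W e = V := by
  have h1 : REPred (fun n => n ∈ V) := SD.to_re hV
  obtain ⟨c, hc⟩ := Nat.Partrec.Code.exists_code.1 h1
  refine ⟨Encodable.encode c, ?_⟩
  ext a
  simp only [W, Set.mem_ofPred_eq, Denumerable.ofNat_encode]
  have h2 : (c.eval (Encodable.encode a)).Dom ↔ a ∈ V := by
    rw [hc]
    simp [Part.assert]
  exact h2

theorem pat2_simple_meets {A V : Set ℕ} (hA : IsSimple A) (hV : RE V) (hi : V.Infinite) :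
    (V ∩ A).Nonempty := by
  obtain ⟨e, rfl⟩ := pat2_index hV
  exact hA.2.2 e hi

theorem pat2_W_re (e : ℕ) : RE (W e) := by
  have h : Partrec (fun x : ℕ => (Nat.Partrec.Code.eval
      (Denumerable.ofNat Nat.Partrec.Code e) x)) :=
    Nat.Partrec.Code.eval_part.comp (Computable.const _) Computable.id
  exact SD.dom h

theorem join_simple {A C : Set ℕ} (hA : IsSimple A) (hC : IsSimple C) :
    IsSimple (join A C) := by
  refine ⟨SD.to_re (join_re (SD.of_re hA.1) (SD.of_re hC.1)), ?_, ?_⟩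
  · have h1 : ((fun n => 2 * n) '' Aᶜ).Infinite := hA.2.1.image (fun a _ b _ h => by
      have h2 : 2 * a = 2 * b := h
      omega)
    refine h1.mono ?_
    rintro _ ⟨n, hn, rfl⟩
    simp only [join, Set.mem_compl_iff, Set.mem_ofPred_eq]
    rintro (⟨_, h⟩ | ⟨h, _⟩)
    · apply hn
      have : 2 * n / 2 = n := by omega
      rwa [this] at h
    · omega
  · intro e he
    have hWe := pat2_W_re e
    by_cases hev : {n | 2 * n ∈ W e}.Infinite
    · have hre : RE {n | 2 * n ∈ W e} :=
        hWe.comp (Primrec.nat_mul.comp (Primrec.const 2) Primrec.id)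
      obtain ⟨n, hn, hnA⟩ := pat2_simple_meets hA hre hev
      refine ⟨2 * n, hn, Or.inl ⟨by omega, ?_⟩⟩
      have : 2 * n / 2 = n := by omega
      rwa [this]
    · have hod : {n | 2 * n + 1 ∈ W e}.Infinite := by
        intro hf
        apply he
        rw [Set.not_infinite] at hev
        refine ((hev.image (fun n => 2 * n)).union (hf.image (fun n => 2 * n + 1))).subset ?_
        intro x hx
        rcases Nat.even_or_odd' x with ⟨y, rfl | rfl⟩
        · exact Or.inl ⟨y, hx, rfl⟩
        · exact Or.inr ⟨y, hx, rfl⟩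
      have hre : RE {n | 2 * n + 1 ∈ W e} :=
        hWe.comp (Primrec.succ.comp (Primrec.nat_mul.comp (Primrec.const 2) Primrec.id))
      obtain ⟨n, hn, hnC⟩ := pat2_simple_meets hC hre hod
      refine ⟨2 * n + 1, hn, Or.inr ⟨by omega, ?_⟩⟩
      have : (2 * n + 1) / 2 = n := by omega
      rwa [this]

theorem pat2_iInter_re {N : ℕ} (Y : Fin N → Set ℕ) (hY : ∀ i, RE (Y i)) (s : Finset (Fin N)) :
    RE {n | ∀ i ∈ s, n ∈ Y i} := by
  classical
  induction s using Finset.induction_on with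
  | empty =>
    refine SD.of_eq (s_const True) (fun n => by simp)
  | insert a s _ ih =>
    refine SD.of_eq ((hY a).and ih) (fun n => ?_)
    simp

/-- in a simple set, an infinite cell outside of `A` has an infinite larger cell inside `A` -/
theorem cell_above {N : ℕ} {A : Set ℕ} (hA : IsSimple A) (Y : Fin N → Set ℕ)
    (hY : ∀ i, RE (Y i)) (x : Fin N → Bool) (hx : {n | patt A Y n = (false, x)}.Infinite) :
    ∃ x', x ≤ x' ∧ {n | patt A Y n = (true, x')}.Infinite := by
  classical
  set V : Set ℕ := {n | ∀ i ∈ (Finset.univ.filter (fun i => x i = true)), n ∈ Y i} with hVdef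
  have hV : RE V := pat2_iInter_re Y hY _
  have hsub : {n | patt A Y n = (false, x)} ⊆ V \ A := by
    intro n hn
    simp only [patt, Set.mem_ofPred_eq, Prod.mk.injEq, decide_eq_false_iff_not] at hn
    refine ⟨fun i hi => ?_, hn.1⟩
    have h1 := congrFun hn.2 i
    simp only [Finset.mem_filter, Finset.mem_univ, true_and] at hi
    rw [hi] at h1
    simpa using h1
  have hinf : (V \ A).Infinite := hx.mono hsub
  have hVA : (V ∩ A).Infinite := by
    intro hf
    have h1 : RE (V \ A) := by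
      refine re_of_finite_diff hV (hf.subset ?_)
      intro n hn
      simp only [Set.mem_ofPred_eq, Set.mem_sdiff] at hn
      by_contra hc
      apply hn
      simp only [Set.mem_inter_iff, not_and] at hc
      exact ⟨fun h => ⟨h, hc h⟩, fun h => h.1⟩
    obtain ⟨n, hn, hn'⟩ := pat2_simple_meets hA h1 hinf
    exact hn.2 hn'
  by_contra hcon
  push Not at hcon
  apply hVA
  have hfin : (⋃ x' ∈ {x' : Fin N → Bool | x ≤ x'}, {n | patt A Y n = (true, x')}).Finite := by
    refine Set.Finite.biUnion (Set.toFinite _) (fun x' hx' => ?_)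
    exact hcon x' hx'
  refine hfin.subset ?_
  intro n hn
  simp only [Set.mem_iUnion, Set.mem_ofPred_eq, exists_prop]
  refine ⟨fun i => decide (n ∈ Y i), ?_, ?_⟩
  · intro i
    by_cases hi : x i = true
    · have : n ∈ Y i := hn.1 i (by simp [hi])
      simp [hi, this]
    · simp only [Bool.not_eq_true] at hi
      rw [hi]
      exact Bool.false_le _
  · simp only [patt, Prod.mk.injEq, decide_eq_true_eq]
    exact ⟨hn.2, trivial⟩

/-- the second components of the new `Y` -/
noncomputable def pat2_T {N : ℕ} (C : Set ℕ) (x x' : Fin N → Bool) (i : Fin N) : Set ℕ :=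
  if x i = true then Set.univ else if x' i = true then C else ∅

theorem pat2_T_re {N : ℕ} {C : Set ℕ} (hC : RE C) (x x' : Fin N → Bool) (i : Fin N) :
    RE (pat2_T C x x' i) := by
  unfold pat2_T
  split_ifs
  · exact SD.of_eq (s_const True) (fun n => by simp)
  · exact hC
  · exact SD.of_eq (s_const False) (fun n => by simp)

theorem pat2_T_mem {N : ℕ} {C : Set ℕ} {x x' : Fin N → Bool} (hxx : x ≤ x') {k : ℕ}
    (hk : k ∈ C) (i : Fin N) : k ∈ pat2_T C x x' i ↔ x' i = true := by
  unfold pat2_T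
  by_cases h : x i = true
  · have : x' i = true := by
      have := hxx i
      rw [h] at this
      exact Bool.eq_true_of_true_le this
    simp [h, this]
  · by_cases h' : x' i = true
    · simp [h, h', hk]
    · simp [h, h']

theorem pat2_T_not_mem {N : ℕ} {C : Set ℕ} {x x' : Fin N → Bool} {k : ℕ}
    (hk : k ∉ C) (i : Fin N) : k ∈ pat2_T C x x' i ↔ x i = true := by
  unfold pat2_T
  by_cases h : x i = true
  · simp [h]
  · by_cases h' : x' i = true
    · simp [h, h', hk]
    · simp [h, h']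

theorem pat2_main (p : ℕ → Prop) (hp : SD p) (hp' : SD (fun n => ¬ p n)) (f : ℕ → ℕ)
    (hf : Primrec f) (hpf : ∀ k, p (f k)) (hff : ∀ k, f k / 2 = k)
    (hfp : ∀ n, p n → f (n / 2) = n)
    (A C B : EE) (hA : IsSimple A.1) (hB : B.1 = pat2_gj p A.1 C.1) (φ : QF)
    (h : A ∈ sigma2 φ) : B ∈ sigma2 φ := by
  classical
  obtain ⟨Y, hY⟩ := h
  obtain ⟨N, hN⟩ := holds_congr φ
  have hN := hN N (le_refl _)
  set Y₀ : Fin N → Set ℕ := fun i => (Y i).1 with hY₀
  have hYre : ∀ i, RE (Y₀ i) := fun i => (re_iff _).2 (Y i).2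
  have hCre : RE C.1 := (re_iff _).2 C.2
  -- an infinite cell outside of `A`
  obtain ⟨x, hx⟩ : ∃ x, {n | patt A.1 Y₀ n = (false, x)}.Infinite := by
    by_contra hcon
    push Not at hcon
    apply hA.2.1
    have hfin : (⋃ x : Fin N → Bool, {n | patt A.1 Y₀ n = (false, x)}).Finite :=
      Set.finite_iUnion (fun x => hcon x)
    refine hfin.subset ?_
    intro n hn
    simp only [Set.mem_iUnion, Set.mem_ofPred_eq]
    refine ⟨fun i => decide (n ∈ Y₀ i), ?_⟩
    simp only [patt, Prod.mk.injEq, decide_eq_false_iff_not]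
    exact ⟨hn, trivial⟩
  obtain ⟨x', hxx, hx'⟩ := cell_above hA Y₀ hYre x hx
  -- the new parameters
  let Y' : ℕ → EE := fun i => if hi : i < N then
    ⟨pat2_gj p (Y i).1 (pat2_T C.1 x x' ⟨i, hi⟩),
      (re_iff _).1 (pat2_gj_re hp hp' ((re_iff _).2 (Y i).2) (pat2_T_re hCre x x' ⟨i, hi⟩))⟩
    else Y i
  have hY' : (fun i : Fin N => (Y' i).1) = fun i : Fin N =>
      pat2_gj p (Y₀ i) (pat2_T C.1 x x' i) := by
    funext i
    simp only [Y', i.2, dif_pos, hY₀]
  -- patterns over `B, Y'`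
  have hpat : ∀ n, p n → patt B.1 (fun i : Fin N => (Y' i).1) n = patt A.1 Y₀ (n / 2) := by
    intro n hn
    rw [hY', hB]
    simp only [patt, pat2_gj, Set.mem_ofPred_eq, hn, true_and, not_true_eq_false, false_and,
      or_false]
  have hpat' : ∀ n, ¬ p n → patt B.1 (fun i : Fin N => (Y' i).1) n = (true, x') ∨
      patt B.1 (fun i : Fin N => (Y' i).1) n = (false, x) := by
    intro n hn
    rw [hY', hB]
    simp only [patt, pat2_gj, Set.mem_ofPred_eq, hn, false_and, not_false_eq_true, true_and,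
      false_or]
    by_cases hk : n / 2 ∈ C.1
    · left
      simp only [hk, decide_true, Prod.mk.injEq, true_and]
      funext i
      have := pat2_T_mem hxx hk i
      rw [Bool.eq_iff_iff, decide_eq_true_eq]
      exact this
    · right
      simp only [hk, decide_false, Prod.mk.injEq, true_and]
      funext i
      have := pat2_T_not_mem (x := x) (x' := x') hk i
      rw [Bool.eq_iff_iff, decide_eq_true_eq]
      exact this
  refine ⟨Y', fun Z' => ?_⟩
  -- the part of `Z'` on `A`
  set Z₀ : Fin N → Set ℕ := fun i => {k | f k ∈ (Z' i).1} with hZ₀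
  have hZre : ∀ i, RE (Z₀ i) := fun i => ((re_iff _).2 (Z' i).2).comp hf
  set P : Bool × (Fin N → Bool) → Set (Fin N → Bool) := fun c =>
    zpat (fun i : Fin N => (Z' i).1) '' {n | patt B.1 (fun i : Fin N => (Y' i).1) n = c} with hP
  have hzf : ∀ k, zpat Z₀ k = zpat (fun i : Fin N => (Z' i).1) (f k) := fun k => rfl
  have hin : ∀ c, zpat Z₀ '' {n | patt A.1 Y₀ n = c} ⊆ P c := by
    rintro c _ ⟨k, hk, rfl⟩
    refine ⟨f k, ?_, (hzf k).symm⟩
    simp only [Set.mem_ofPred_eq] at hk ⊢
    rw [hpat _ (hpf k), hff, hk]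
  have hadj : ∀ c, ({n | patt A.1 Y₀ n = c}.Infinite ∧ (P c).Nonempty ∧
          {n | patt A.1 Y₀ n = c ∧ zpat Z₀ n ∉ P c}.Finite) ∨
        (P c = zpat Z₀ '' {n | patt A.1 Y₀ n = c}) ∨
        ({n | patt A.1 Y₀ n = c}.Finite ∧ {n | patt A.1 Y₀ n = c}.Nonempty ∧ ∃ z, P c = {z}) := by
    intro c
    by_cases hc : {n | patt A.1 Y₀ n = c}.Infinite
    · left
      refine ⟨hc, ?_, ?_⟩
      · obtain ⟨k, hk⟩ := hc.nonempty
        exact ⟨_, hin c ⟨k, hk, rfl⟩⟩
      · have : {n | patt A.1 Y₀ n = c ∧ zpat Z₀ n ∉ P c} = ∅ := by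
          ext n
          simp only [Set.mem_ofPred_eq, Set.mem_empty_iff_false, iff_false, not_and, not_not]
          exact fun hn => hin c ⟨n, hn, rfl⟩
        rw [this]
        exact Set.finite_empty
    · right; left
      refine Set.Subset.antisymm ?_ (hin c)
      rintro _ ⟨n, hn, rfl⟩
      simp only [Set.mem_ofPred_eq] at hn
      by_cases hpn : p n
      · refine ⟨n / 2, ?_, ?_⟩
        · rw [Set.mem_ofPred_eq, ← hpat n hpn, hn]
        · rw [hzf, hfp n hpn]
      · exfalso
        rcases hpat' n hpn with h1 | h1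
        · rw [h1] at hn
          rw [← hn] at hc
          exact hc hx'
        · rw [h1] at hn
          rw [← hn] at hc
          exact hc hx
  obtain ⟨Z'', hZ'', hZP⟩ := adjust (patt A.1 Y₀) Z₀ hZre P hadj
  let Z : ℕ → EE := fun i => if hi : i < N then ⟨Z'' ⟨i, hi⟩, (re_iff _).1 (hZ'' ⟨i, hi⟩)⟩
    else Y i
  have hZ : (fun i : Fin N => (Z i).1) = Z'' := by
    funext i
    simp only [Z, i.2, dif_pos]
  refine (hN A B Y Z Y' Z' ?_).1 (hY Z)
  rw [hZ]
  ext ⟨c, z⟩
  simp only [Set.mem_range, Prod.mk.injEq]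
  have h1 := Set.ext_iff.1 (hZP c) z
  simp only [hP, Set.mem_image, Set.mem_ofPred_eq] at h1
  exact h1

theorem sum_sigma2 (A C B : EE) (hA : IsSimple A.1) (hB : B.1 = join A.1 C.1) (φ : QF)
    (h : A ∈ sigma2 φ) : B ∈ sigma2 φ := by
  refine pat2_main (fun n => n % 2 = 0) (pat2_mod_sd 0) (pat2_mod_sd' 0) (fun k => 2 * k)
    (Primrec.nat_mul.comp (Primrec.const 2) Primrec.id) (fun k => by simp) (fun k => by
      show 2 * k / 2 = k
      omega) (fun n hn => by
      show 2 * (n / 2) = n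
      omega) A C B hA ?_ φ h
  rw [hB, pat2_join_eq]

theorem sum_sigma2' (A C B : EE) (hA : IsSimple A.1) (hB : B.1 = join C.1 A.1) (φ : QF)
    (h : A ∈ sigma2 φ) : B ∈ sigma2 φ := by
  refine pat2_main (fun n => n % 2 = 1) (pat2_mod_sd 1) (pat2_mod_sd' 1) (fun k => 2 * k + 1)
    (Primrec.succ.comp (Primrec.nat_mul.comp (Primrec.const 2) Primrec.id)) (fun k => by
      show (2 * k + 1) % 2 = 1
      omega) (fun k => by
      show (2 * k + 1) / 2 = k
      omega) (fun n hn => by
      show 2 * (n / 2) + 1 = n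
      omega) A C B hA ?_ φ h
  rw [hB, pat2_join_eq']

end Pool.Agent.GO
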