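import Pool.Agent.GO.ConD
import Pool.Agent.GO.Pat2
import Pool.Agent.GO.Game
import Pool.Agent.GO.Limit

/-!
ROW K: the key lemma.
-/

set_option autoImplicit false

namespace Pool.Agent.GO

open Pool.Agent.H36.LFI (SD)
open Pool.Agent.H36.MinNum

theorem gen_fin_ex {α ι : Type} [Primcodable α] [Finite ι] {p : ι → α → Prop}
    (h : ∀ i, SD (p i)) : SD (fun a => ∃ i, p i a) := by
  classical
  have _ := Fintype.ofFinite ι
  have h1 : ∀ s : Finset ι, SD (fun a => ∃ i ∈ s, p i a) := by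
    intro s
    induction s using Finset.induction_on with
    | empty => exact (s_const False).of_eq (fun a => by simp)
    | insert i s hi ih =>
      exact ((h i).or ih).of_eq (fun a => by simp)
  exact (h1 Finset.univ).of_eq (fun a => by simp)

/-- every r.e. set has an index -/
theorem gen_index {V : ℕ → Prop} (h : SD V) : ∃ e, ∀ x, V x ↔ ∃ s, bb e s x = 1 := by
  obtain ⟨c, hc⟩ := Pool.Agent.H36.LFI.SD.code h
  refine ⟨Encodable.encode c, fun x => ?_⟩
  rw [hc x]
  unfold bb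
  simp only [Denumerable.ofNat_encode, Encodable.encode_nat]
  constructor
  · rintro ⟨t, ht⟩
    exact ⟨t, if_pos ht⟩
  · rintro ⟨t, ht⟩
    refine ⟨t, ?_⟩
    by_contra h'
    rw [if_neg h'] at ht
    exact absurd ht (by omega)

theorem gen_ev (f : ℕ → Bool) (hf : ∀ s s', s ≤ s' → f s = true → f s' = true) :
    ∃ s₀, ∀ s, s₀ ≤ s → (f s = true ↔ ∃ t, f t = true) := by
  by_cases h : ∃ t, f t = true
  · obtain ⟨t, ht⟩ := h
    exact ⟨t, fun s hs => ⟨fun _ => ⟨t, ht⟩, fun _ => hf t s hs ht⟩⟩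
  · exact ⟨0, fun s _ => ⟨fun h' => ⟨s, h'⟩, fun h' => absurd h' h⟩⟩

theorem gen_ev_fin {m : ℕ} (f : Fin m → ℕ → Bool)
    (hf : ∀ i s s', s ≤ s' → f i s = true → f i s' = true) :
    ∃ s₀, ∀ s, s₀ ≤ s → ∀ i, (f i s = true ↔ ∃ t, f i t = true) := by
  choose s₀ hs using fun i => gen_ev (f i) (hf i)
  refine ⟨Finset.univ.sup s₀, fun s h i => hs i s ?_⟩
  exact le_trans (Finset.le_sup (Finset.mem_univ i)) h

theorem gen_lim {N : ℕ} (pos : ℕ → ℕ → Bool × (Fin N → Bool))
    (hm : ∀ s s' n, s ≤ s' → pos s n ≤ pos s' n) (n : ℕ) :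
    ∃ s₀, ∀ s, s₀ ≤ s → pos s n = patt {n | ∃ s, (pos s n).1 = true}
      (fun i => {n | ∃ s, (pos s n).2 i = true}) n := by
  classical
  obtain ⟨s₁, h1⟩ := gen_ev (fun s => (pos s n).1) (fun s s' h h' => (hm s s' n h).1 h')
  obtain ⟨s₂, h2⟩ := gen_ev_fin (fun i s => (pos s n).2 i)
    (fun i s s' h h' => (hm s s' n h).2 i h')
  refine ⟨max s₁ s₂, fun s hs => ?_⟩
  have h3 := h1 s (le_trans (le_max_left _ _) hs)
  have h4 := h2 s (le_trans (le_max_right _ _) hs)
  refine Prod.ext ?_ (funext fun i => ?_)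
  · change (pos s n).1 = decide (∃ s, (pos s n).1 = true)
    rw [Bool.eq_iff_iff, decide_eq_true_iff]
    exact h3
  · change (pos s n).2 i = decide (∃ s, (pos s n).2 i = true)
    rw [Bool.eq_iff_iff, decide_eq_true_iff]
    exact h4 i

theorem gen_zlim {m : ℕ} (Z : Fin m → Set ℕ) (hZ : ∀ i, RE (Z i)) :
    ∃ e, ∀ n, ∃ s₀, ∀ s, s₀ ≤ s →
      (fun i : Fin m => decide (bb e s (Nat.pair n i) = 1)) = zpat Z n := by
  classical
  have h1 : SD (fun k : ℕ => ∃ i : Fin m, k.unpair.2 = (i : ℕ) ∧ k.unpair.1 ∈ Z i) := by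
    refine gen_fin_ex fun i => ?_
    refine s_and (s_eq (p_snd (p_unpair p_id)) (p_const _)) ?_
    exact Pool.Agent.H36.LFI.SD.comp (hZ i) (p_fst (p_unpair p_id))
  obtain ⟨e, he⟩ := gen_index h1
  refine ⟨e, fun n => ?_⟩
  obtain ⟨s₀, hs⟩ := gen_ev_fin (fun (i : Fin m) s => decide (bb e s (Nat.pair n i) = 1))
    (fun i s s' h h' => by
      rw [decide_eq_true_iff] at h' ⊢
      have := bb_mono (k := e) (x := Nat.pair n i) h
      have := bb_le e s' (Nat.pair n i)
      omega)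
  refine ⟨s₀, fun s h => funext fun i => ?_⟩
  rw [Bool.eq_iff_iff, hs s h i]
  unfold zpat
  rw [decide_eq_true_iff]
  have h2 := he (Nat.pair n i)
  simp only [decide_eq_true_iff]
  rw [← h2]
  simp only [Nat.unpair_pair]
  constructor
  · rintro ⟨j, hj, h3⟩
    have : i = j := Fin.ext hj
    rwa [this]
  · intro h3
    exact ⟨i, rfl, h3⟩

theorem gen_mem {N : ℕ} {A : Set ℕ} {X : Fin N → Set ℕ} {n : ℕ} {q : Bool × (Fin N → Bool)}
    (h : patt A X n = q) : (n ∈ A ↔ q.1 = true) ∧ ∀ i, (n ∈ X i ↔ q.2 i = true) := by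
  classical
  subst h
  refine ⟨?_, fun i => ?_⟩
  · change _ ↔ decide (n ∈ A) = true
    rw [decide_eq_true_iff]
  · change _ ↔ decide (n ∈ X i) = true
    rw [decide_eq_true_iff]

theorem gen_zs (m : ℕ) : Primrec (fun x : ℕ × ℕ × ℕ =>
    (fun i : Fin m => decide (bb x.1 x.2.1 (Nat.pair x.2.2 i) = 1))) := by
  rw [Primrec.fin_curry]
  have h1 : PrimrecPred (fun y : (ℕ × ℕ × ℕ) × Fin m =>
      bb y.1.1 y.1.2.1 (Nat.pair y.1.2.2 y.2) = 1) := by
    refine Primrec.eq.comp (p_bb ?_ ?_ (p_npair ?_ ?_)) (p_const 1)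
    · exact p_fst (p_fst p_id)
    · exact p_fst (p_snd (p_fst p_id))
    · exact p_snd (p_snd (p_fst p_id))
    · exact Primrec.fin_val.comp Primrec.snd
  exact h1.decide

/-- the finite sets of a recursive enumeration -/
def gen_list (f : ℕ → ℕ → Bool) (s : ℕ) : List ℕ :=
  Nat.rec [] (fun y l => cond (f s y) (y :: l) l) s

theorem gen_list_mem (f : ℕ → ℕ → Bool) (s x : ℕ) :
    x ∈ gen_list f s ↔ x < s ∧ f s x = true := by
  unfold gen_list
  have h : ∀ k, x ∈ (Nat.rec [] (fun y l => cond (f s y) (y :: l) l) k : List ℕ) ↔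
      x < k ∧ f s x = true := by
    intro k
    induction k with
    | zero => simp
    | succ k ih =>
      change x ∈ cond (f s k) (k :: _) _ ↔ _
      cases hf : f s k with
      | false =>
        rw [cond_false, ih]
        constructor
        · rintro ⟨h1, h2⟩
          exact ⟨by omega, h2⟩
        · rintro ⟨h1, h2⟩
          refine ⟨?_, h2⟩
          by_contra h3
          have : x = k := by omega
          rw [this, hf] at h2
          simp at h2
      | true =>
        rw [cond_true, List.mem_cons, ih]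
        constructor
        · rintro (rfl | ⟨h1, h2⟩)
          · exact ⟨by omega, hf⟩
          · exact ⟨by omega, h2⟩
        · rintro ⟨h1, h2⟩
          by_cases h3 : x = k
          · exact Or.inl h3
          · exact Or.inr ⟨by omega, h2⟩
  exact h s

theorem gen_list_comp {f : ℕ → ℕ → Bool} (hf : Computable₂ f) : Computable (gen_list f) := by
  unfold gen_list
  refine Computable.nat_rec (f := fun s : ℕ => s) (g := fun _ => ([] : List ℕ))
    (h := fun s yl => cond (f s yl.1) (yl.1 :: yl.2) yl.2) Computable.id (Computable.const _) ?_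
  refine Computable.cond (c := fun x : ℕ × ℕ × List ℕ => f x.1 x.2.1)
    (f := fun x : ℕ × ℕ × List ℕ => x.2.1 :: x.2.2) (g := fun x : ℕ × ℕ × List ℕ => x.2.2)
    ?_ ?_ ?_
  · exact hf.comp Computable.fst (Computable.fst.comp Computable.snd)
  · exact Computable.list_cons.comp (Computable.fst.comp Computable.snd)
      (Computable.snd.comp Computable.snd)
  · exact Computable.snd.comp Computable.snd

theorem gen_re {f : ℕ → ℕ → Bool} (hf : Computable₂ f) :
    RE {n | ∃ s, f s n = true} := by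
  have h1 : SD (fun x : ℕ × ℕ => f x.2 x.1 = true) := by
    have h2 : Computable (fun x : ℕ × ℕ => f x.2 x.1) :=
      hf.comp Computable.snd Computable.fst
    have h3 : SD (fun b : Bool => b = true) := s_eq p_id (p_const true)
    exact SD.compC h3 h2
  exact s_ex (p := fun n s => f s n = true) h1

/-- the losing positions of the second player -/
def gen_lose {Pos St : Type} [PartialOrder Pos] [PartialOrder St] (Q : Set Pos)
    (P : Set (Pos × St)) (q : Pos) (z : St) : Prop := ¬ Win Q P q z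

theorem gen_lose_mono {Pos St : Type} [PartialOrder Pos] [PartialOrder St] {Q : Set Pos}
    {P : Set (Pos × St)} {q : Pos} {z z' : St} (h : gen_lose Q P q z) (hz : z ≤ z') :
    gen_lose Q P q z' := by
  intro h1
  apply h
  obtain ⟨_, _, z'', h2, h3, h4⟩ := h1
  exact Win.mk q z z'' (le_trans hz h2) h3 h4

theorem gen_lose_mv {Pos St : Type} [PartialOrder Pos] [PartialOrder St] {Q : Set Pos}
    {P : Set (Pos × St)} {q : Pos} {z : St} (h : gen_lose Q P q z) (hq : (q, z) ∈ P) :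
    ∃ q', q' ∈ Q ∧ q < q' ∧ gen_lose Q P q' z := by
  by_contra hcon
  push Not at hcon
  apply h
  refine Win.mk q z z le_rfl hq (fun q' hq' hlt => ?_)
  by_contra hw
  exact hcon q' hq' hlt hw

theorem gen_cells (B : Set ℕ) (hB : IsSimple B) {N : ℕ} (Y : Fin N → Set ℕ)
    (hY : ∀ i, RE (Y i)) :
    (∃ q, {n | patt B Y n = q}.Infinite ∧ q.1 = false) ∧
    ∃ d : Bool × (Fin N → Bool) → Bool × (Fin N → Bool),
      ∀ q, {n | patt B Y n = q}.Infinite → q.1 = false →
        {n | patt B Y n = d q}.Infinite ∧ (d q).1 = true ∧ q ≤ d q := by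
  classical
  constructor
  · by_contra hcon
    push Not at hcon
    apply hB.2.1
    have h1 : Bᶜ ⊆ ⋃ q ∈ {q : Bool × (Fin N → Bool) | q.1 = false}, {n | patt B Y n = q} := by
      intro n hn
      rw [Set.mem_iUnion₂]
      refine ⟨patt B Y n, ?_, rfl⟩
      have h2 := (gen_mem (q := patt B Y n) (A := B) (X := Y) (n := n) rfl).1
      change (patt B Y n).1 = false
      by_contra h3
      exact hn (h2.2 (by simpa using h3))
    refine Set.Finite.subset (Set.Finite.biUnion (Set.toFinite _) fun q hq => ?_) h1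
    by_contra h3
    exact hcon q h3 hq
  · have h1 : ∀ q : Bool × (Fin N → Bool), ∃ q' : Bool × (Fin N → Bool),
        {n | patt B Y n = q}.Infinite → q.1 = false →
        {n | patt B Y n = q'}.Infinite ∧ q'.1 = true ∧ q ≤ q' := by
      rintro ⟨a, x⟩
      by_cases h : {n | patt B Y n = (a, x)}.Infinite ∧ a = false
      · obtain ⟨h2, rfl⟩ := h
        obtain ⟨x', h3, h4⟩ := cell_above hB Y hY x h2
        refine ⟨(true, x'), fun _ _ => ⟨h4, rfl, ?_, h3⟩⟩
        exact Bool.false_le _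
      · exact ⟨(a, x), fun h2 h3 => absurd ⟨h2, h3⟩ h⟩
    choose d hd using h1
    exact ⟨d, hd⟩

theorem gen_con {N : ℕ} (m : ℕ) (Q : Set (Bool × (Fin N → Bool)))
    (hQ0 : ∃ q ∈ Q, q.1 = false) (sp : List (Bool × (Fin N → Bool)))
    (d : Bool × (Fin N → Bool) → Bool × (Fin N → Bool))
    (hd : ∀ q ∈ Q, q.1 = false → d q ∈ Q ∧ (d q).1 = true ∧ q ≤ d q) :
    ∃ (A : Set ℕ) (X : Fin N → Set ℕ), IsPromptlySimple A ∧ IsSemiLow Aᶜ ∧
      (∀ i, RE (X i)) ∧ (∀ n (h : n < sp.length), patt A X n = sp[n]) ∧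
      (∀ n, sp.length ≤ n → patt A X n ∈ Q) ∧
      (∀ q ∈ Q, ∀ n₀, ∃ n, n₀ ≤ n ∧ patt A X n = q) ∧
      ∀ Z : Fin m → Set ℕ, (∀ i, RE (Z i)) → ∀ q ∈ Q,
        Win Q (Set.range (fun n => (patt A X n, zpat Z n))) q (fun _ => false) := by
  classical
  let Pos := Bool × (Fin N → Bool)
  let St := Fin m → Bool
  obtain ⟨k, ⟨ε⟩⟩ : ∃ k, Nonempty (Fin k ≃ Set (Pos × St)) :=
    ⟨_, ⟨(Fintype.equivFin (Set (Pos × St))).symm⟩⟩
  have hne : Nonempty (Fin k) := ⟨ε.symm ∅⟩
  obtain ⟨q₀, hq₀, hb₀⟩ := hQ0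
  -- the starting positions
  have hst : ∀ P : Fin k, ∃ q : Pos, q ∈ Q ∧
      ((∃ q' ∈ Q, gen_lose Q (ε P) q' (fun _ => false)) →
        gen_lose Q (ε P) q (fun _ => false)) := by
    intro P
    by_cases h : ∃ q' ∈ Q, gen_lose Q (ε P) q' (fun _ => false)
    · obtain ⟨q', h1, h2⟩ := h
      exact ⟨q', h1, fun _ => h2⟩
    · exact ⟨q₀, hq₀, fun h' => absurd h' h⟩
  choose st hst1 hst2 using hst
  -- the moves
  have hmv : ∀ (P : Fin k) (q : Pos) (z : St), ∃ q' : Pos,
      (q ∈ Q → q' ∈ Q ∧ q ≤ q') ∧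
      (q ∈ Q → gen_lose Q (ε P) q z → (q, z) ∈ ε P → q ≠ q' ∧ gen_lose Q (ε P) q' z) ∧
      (q' ≠ q → (q, z) ∈ ε P) := by
    intro P q z
    by_cases h : gen_lose Q (ε P) q z ∧ (q, z) ∈ ε P
    · obtain ⟨q', h1, h2, h3⟩ := gen_lose_mv h.1 h.2
      exact ⟨q', fun _ => ⟨h1, h2.le⟩, fun _ _ _ => ⟨h2.ne, h3⟩, fun _ => h.2⟩
    · exact ⟨q, fun hq => ⟨hq, le_rfl⟩, fun _ h1 h2 => absurd ⟨h1, h2⟩ h,
        fun h1 => absurd rfl h1⟩
  choose mv hmv1 hmv2 hmv3 using hmv
  obtain ⟨pos, hpos, hm, hsp, hQ, hfree, hprompt, ⟨g, hg⟩, hwin⟩ :=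
    construction (Pos := Pos) (St := St) (PP := Fin k) (fun q => q.1) Q ⟨q₀, hq₀, hb₀⟩ sp d hd
      (fun q q' h h' => h.1 h') st hst1 mv hmv1
      (fun e s n => fun i : Fin m => decide (bb e s (Nat.pair n i) = 1)) (gen_zs m)
      (fun e s s' n h i h' => by
        rw [decide_eq_true_iff] at h' ⊢
        have := bb_mono (k := e) (x := Nat.pair n i) h
        have := bb_le e s' (Nat.pair n i)
        omega)
      (fun P q z => gen_lose Q (ε P) q z) (fun P q z z' h h' => gen_lose_mono h h')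
      (fun P q z => (q, z) ∈ ε P) hmv2 hmv3
  have hlim := gen_lim pos hm
  have hf1 : Computable₂ (fun s n => (pos s n).1) := by
    have h1 : Computable (fun x : ℕ × ℕ => pos x.1 x.2) := hpos
    exact Computable.fst.comp h1
  have hf2 : ∀ i, Computable₂ (fun s n => (pos s n).2 i) := by
    intro i
    have h1 : Computable (fun x : ℕ × ℕ => pos x.1 x.2) := hpos
    have h2 : Computable (fun v : Fin N → Bool => v i) := (Primrec.dom_finite _).to_comp
    exact h2.comp (Computable.snd.comp h1)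
  have hf3 : Computable₂ (fun n s => (pos s n).1) := hf1.comp Computable.snd Computable.fst
  refine ⟨{n | ∃ s, (pos s n).1 = true}, fun i => {n | ∃ s, (pos s n).2 i = true},
    ?_, ?_, ?_, ?_, ?_, ?_, ?_⟩
  · have hre := gen_re hf1
    refine ⟨⟨(re_iff _).1 hre, ?_, ?_⟩, gen_list (fun s n => (pos s n).1),
      fun s => s + 1, gen_list_comp hf1, Computable.succ, ?_, ?_, ?_⟩
    · rw [Set.infinite_iff_exists_gt]
      intro n₀
      obtain ⟨n, hn, h1⟩ := hfree q₀ hq₀ (n₀ + 1)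
      refine ⟨n, ?_, by omega⟩
      rintro ⟨s, hs⟩
      rw [h1 s, hb₀] at hs
      simp at hs
    · intro e he
      obtain ⟨s, x, h1, h2, h3⟩ := hprompt e he
      exact ⟨x, (con_w e x).2 ⟨_, (con_ws _ _ _).1 h1⟩, s + 1, h3⟩
    · intro s x hx
      rw [gen_list_mem] at hx ⊢
      exact ⟨by omega, (hm s (s + 1) x (by omega)).1 hx.2⟩
    · intro x
      constructor
      · rintro ⟨s, hs⟩
        refine ⟨max s (x + 1), ?_⟩
        rw [gen_list_mem]
        refine ⟨by have := le_max_right s (x + 1); omega, ?_⟩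
        exact (hm s _ x (le_max_left _ _)).1 hs
      · rintro ⟨s, hs⟩
        rw [gen_list_mem] at hs
        exact ⟨s, hs.2⟩
    · intro e he
      obtain ⟨s, x, h1, h2, h3⟩ := hprompt e he
      refine ⟨s, x, h1, h2, ?_⟩
      rw [gen_list_mem]
      have := con_bb_lt ((con_ws _ _ _).1 h1)
      exact ⟨this, h3⟩
  · have h1 : ({n | ∃ s, (pos s n).1 = true}ᶜ : Set ℕ) = {n | ∀ s, (pos s n).1 = false} := by
      ext n
      simp
    rw [h1]
    exact semilow_of_approx hg
  · exact fun i => gen_re (hf2 i)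
  · intro n hn
    obtain ⟨s₀, h1⟩ := hlim n
    rw [← h1 s₀ le_rfl, hsp s₀ n hn, List.getD_eq_getElem _ _ hn]
  · intro n hn
    obtain ⟨s₀, h1⟩ := hlim n
    rw [← h1 s₀ le_rfl]
    exact hQ s₀ n hn
  · intro q hq n₀
    obtain ⟨n, hn, h2⟩ := hfree q hq n₀
    obtain ⟨s₀, h1⟩ := hlim n
    exact ⟨n, hn, by rw [← h1 s₀ le_rfl]; exact h2 s₀⟩
  · intro Z hZ q hq
    by_contra hcon
    obtain ⟨e, he⟩ := gen_zlim Z hZ
    let P₀ := Set.range (fun n => (patt {n | ∃ s, (pos s n).1 = true}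
      (fun i => {n | ∃ s, (pos s n).2 i = true}) n, zpat Z n))
    have hP : ε (ε.symm P₀) = P₀ := ε.apply_symm_apply P₀
    have h1 := hst2 (ε.symm P₀) ⟨q, hq, by rw [hP]; exact hcon⟩
    obtain ⟨n, -, s₀, h2⟩ := hwin (ε.symm P₀) e (fun z => gen_lose_mono h1 (fun i => Bool.false_le _))
    obtain ⟨s₁, h3⟩ := hlim n
    obtain ⟨s₂, h4⟩ := he n
    let s := max s₀ (max s₁ s₂)
    have h5 := h2 s (le_max_left _ _)
    apply h5
    rw [hP, h3 s (le_trans (le_max_left _ _) (le_max_right _ _)),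
      h4 s (le_trans (le_max_right _ _) (le_max_right _ _))]
    exact ⟨n, rfl⟩

theorem exists_generic (B : Set ℕ) (hB : IsSimple B) {N : ℕ} (Y : Fin N → Set ℕ)
    (hY : ∀ i, RE (Y i)) (m : ℕ) :
    ∃ (A : Set ℕ) (X : Fin N → Set ℕ), IsPromptlySimple A ∧ IsSemiLow Aᶜ ∧
      (∀ i, RE (X i)) ∧ ∀ Z : Fin m → Set ℕ, (∀ i, RE (Z i)) →
        ∃ Z' : Fin m → Set ℕ, (∀ i, RE (Z' i)) ∧
          Set.range (fun n => (patt A X n, zpat Z n)) =
            Set.range (fun n => (patt B Y n, zpat Z' n)) := by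
  classical
  obtain ⟨⟨q₀, hq₀, hb₀⟩, d, hd⟩ := gen_cells B hB Y hY
  let Q : Set (Bool × (Fin N → Bool)) := {q | {n | patt B Y n = q}.Infinite}
  let sp : List (Bool × (Fin N → Bool)) :=
    (Finset.univ.filter (fun q => q ∉ Q ∧ {n | patt B Y n = q}.Nonempty)).toList
  have hsp : ∀ q, q ∈ sp ↔ q ∉ Q ∧ {n | patt B Y n = q}.Nonempty := by
    intro q
    simp [sp]
  have hnd : sp.Nodup := Finset.nodup_toList _
  obtain ⟨A, X, hA, hlow, hX, h1, h2, h3, h4⟩ := gen_con m Q ⟨q₀, hq₀, hb₀⟩ sp d hd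
  refine ⟨A, X, hA, hlow, hX, fun Z hZ => ?_⟩
  have hreB : RE B := (re_iff B).2 hB.1
  obtain ⟨Z₁, hZ₁, h5⟩ := realize B hreB Y hY Q _ (h4 Z hZ)
  let P : Bool × (Fin N → Bool) → Set (Fin m → Bool) :=
    fun c => {z | (c, z) ∈ Set.range (fun n => (patt A X n, zpat Z n))}
  have hP : ∀ c z, z ∈ P c ↔ ∃ n, patt A X n = c ∧ zpat Z n = z := by
    intro c z
    constructor
    · rintro ⟨n, hn⟩
      exact ⟨n, congrArg Prod.fst hn, congrArg Prod.snd hn⟩
    · rintro ⟨n, rfl, rfl⟩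
      exact ⟨n, rfl⟩
  obtain ⟨Z', hZ', h6⟩ := adjust (fun n => patt B Y n) Z₁ hZ₁ P (fun c => by
    by_cases hc : c ∈ Q
    · left
      refine ⟨hc, ?_, ?_⟩
      · obtain ⟨n, hn⟩ := Set.Infinite.nonempty hc
        exact ⟨zpat Z₁ n, by
          have h7 : patt B Y n = c := hn
          have := h5 n (by rw [h7]; exact hc)
          rw [h7] at this
          exact this⟩
      · refine Set.Finite.subset Set.finite_empty ?_
        rintro n ⟨hn, hn'⟩
        have h7 : patt B Y n = c := hn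
        apply hn'
        have := h5 n (by rw [h7]; exact hc)
        rw [h7] at this
        exact this
    · by_cases hne : {n | patt B Y n = c}.Nonempty
      · right; right
        refine ⟨Set.not_infinite.1 hc, hne, ?_⟩
        have hmem := (hsp c).2 ⟨hc, hne⟩
        obtain ⟨n, hn, hnc⟩ := List.getElem_of_mem hmem
        refine ⟨zpat Z n, ?_⟩
        ext z
        rw [hP, Set.mem_singleton_iff]
        constructor
        · rintro ⟨n', h7, rfl⟩
          have hn' : n' < sp.length := by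
            by_contra h8
            exact hc (h7 ▸ h2 n' (by omega))
          have h9 := h1 n' hn'
          rw [h7, ← hnc] at h9
          have := (hnd.getElem_inj_iff (hi := hn) (hj := hn')).1 h9
          rw [this]
        · rintro rfl
          exact ⟨n, by rw [h1 n hn, hnc], rfl⟩
      · right; left
        ext z
        rw [hP]
        constructor
        · rintro ⟨n, h7, rfl⟩
          exfalso
          by_cases hn : n < sp.length
          · have h8 := h1 n hn
            rw [h7] at h8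
            exact hne ((hsp c).1 (h8 ▸ List.getElem_mem hn)).2
          · exact hc (h7 ▸ h2 n (by omega))
        · rintro ⟨n, hn, -⟩
          exact absurd ⟨n, hn⟩ hne)
  refine ⟨Z', hZ', ?_⟩
  ext ⟨c, z⟩
  have h7 : z ∈ P c ↔ z ∈ zpat Z' '' {n | patt B Y n = c} := by rw [h6 c]
  constructor
  · intro h
    obtain ⟨n, hn, hz⟩ := h7.1 h
    exact ⟨n, Prod.ext hn hz⟩
  · rintro ⟨n, hn⟩
    exact h7.2 ⟨n, congrArg Prod.fst hn, congrArg Prod.snd hn⟩

end Pool.Agent.GO
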