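import Pool.Agent.GO.NotInA
import Pool.Agent.GO.Limit

/-!
ROW N: joins with a maximal set are not in the orbit of the r.e. generic sets.
-/

set_option autoImplicit false

namespace Pool.Agent.GO

theorem join_not_mem (A M : Set ℕ) (hM : IsMax M) (B : EE) (hB : B.1 = join A M) :
    B ∉ genericOrbit :=
  join_not_mem_of (fun _ h => approx_of_semilow h) A M hM B hB

end Pool.Agent.GO
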