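import Pool.Agent.GO.Gen
import Pool.Agent.GO.NotIn

/-!
ROW M: the theorem.
-/

set_option autoImplicit false

namespace Pool.Agent.GO

open Pool.Agent.H36.LFI (SD)
open Pool.Agent.H36.MinNum

/-! ### Invariance of the truth of formulas under automorphisms -/

/-- the empty set and the set of all numbers, in the lattice -/
def main_bot : EE := ni_fin ∅ Set.finite_empty

def main_top : EE :=
  ⟨Set.univ, ((s_const True).of_eq (fun _ => by simp)).to_re⟩

/-- the value of a term in the lattice -/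
def main_val (ρ : Var → EE) : Term → EE
  | .var v => ρ v
  | .bot => main_bot
  | .top => main_top
  | .sup s t => ni_sup (main_val ρ s) (main_val ρ t)
  | .inf s t => ni_inf (main_val ρ s) (main_val ρ t)

theorem main_val_eq (ρ : Var → EE) (t : Term) :
    t.val (fun v => (ρ v).1) = (main_val ρ t).1 := by
  induction t with
  | var v => rfl
  | bot => rfl
  | top => rfl
  | sup s t hs ht =>
    change _ ∪ _ = _
    rw [hs, ht]
    rfl
  | inf s t hs ht =>
    change _ ∩ _ = _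
    rw [hs, ht]
    rfl

theorem main_map_bot (Φ : EE ≃o EE) : Φ main_bot = main_bot := by
  have h : ∀ X : EE, main_bot ≤ X := fun X => Set.empty_subset _
  apply le_antisymm
  · have h1 := Φ.monotone (h (Φ.symm main_bot))
    rwa [Φ.apply_symm_apply] at h1
  · exact h _

theorem main_map_top (Φ : EE ≃o EE) : Φ main_top = main_top := by
  have h : ∀ X : EE, X ≤ main_top := fun X => Set.subset_univ _
  apply le_antisymm
  · exact h _
  · have h1 := Φ.monotone (h (Φ.symm main_top))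
    rwa [Φ.apply_symm_apply] at h1

theorem main_map_val (Φ : EE ≃o EE) (ρ : Var → EE) (t : Term) :
    main_val (fun v => Φ (ρ v)) t = Φ (main_val ρ t) := by
  induction t with
  | var v => rfl
  | bot => exact (main_map_bot Φ).symm
  | top => exact (main_map_top Φ).symm
  | sup s t hs ht =>
    change ni_sup _ _ = Φ (ni_sup _ _)
    rw [hs, ht, ni_map_sup]
  | inf s t hs ht =>
    change ni_inf _ _ = Φ (ni_inf _ _)
    rw [hs, ht, ni_map_inf]

theorem main_map_holds (Φ : EE ≃o EE) (ρ : Var → EE) (φ : QF) :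
    φ.Holds (fun v => (Φ (ρ v)).1) ↔ φ.Holds (fun v => (ρ v).1) := by
  induction φ with
  | eq s t =>
    change _ = _ ↔ _ = _
    rw [main_val_eq (fun v => Φ (ρ v)), main_val_eq (fun v => Φ (ρ v)), main_val_eq ρ,
      main_val_eq ρ, main_map_val, main_map_val, Subtype.val_inj, Subtype.val_inj,
      Φ.injective.eq_iff]
  | le s t =>
    change (_ : Set ℕ) ⊆ _ ↔ (_ : Set ℕ) ⊆ _
    rw [main_val_eq (fun v => Φ (ρ v)), main_val_eq (fun v => Φ (ρ v)), main_val_eq ρ,
      main_val_eq ρ, main_map_val, main_map_val]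
    exact Φ.le_iff_le
  | not φ h => exact not_congr h
  | and φ ψ h h' => exact and_congr h h'

/-- the assignment, in the lattice -/
def main_asg (X : EE) (Y Z : ℕ → EE) : Var → EE
  | .x => X
  | .y i => Y i
  | .z i => Z i

theorem main_asg_eq (X : EE) (Y Z : ℕ → EE) :
    asg X Y Z = fun v => (main_asg X Y Z v).1 := by
  funext v
  cases v <;> rfl

theorem main_map_asg (Φ : EE ≃o EE) (X : EE) (Y Z : ℕ → EE) (φ : QF) :
    φ.Holds (asg (Φ X) (fun i => Φ (Y i)) (fun i => Φ (Z i))) ↔ φ.Holds (asg X Y Z) := by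
  rw [main_asg_eq X Y Z, ← main_map_holds Φ (main_asg X Y Z) φ, main_asg_eq]
  have h : (fun v => (main_asg (Φ X) (fun i => Φ (Y i)) (fun i => Φ (Z i)) v).1) =
      fun v => (Φ (main_asg X Y Z v)).1 := by
    funext v
    cases v <;> rfl
  rw [h]

theorem main_map_sigma2 (Φ : EE ≃o EE) (X : EE) (φ : QF) (h : X ∈ sigma2 φ) :
    Φ X ∈ sigma2 φ := by
  obtain ⟨Y, hY⟩ := h
  refine ⟨fun i => Φ (Y i), fun Z => ?_⟩
  have h1 := (main_map_asg Φ X Y (fun i => Φ.symm (Z i)) φ).2 (hY _)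
  have h2 : (fun i => Φ (Φ.symm (Z i))) = Z := funext fun i => Φ.apply_symm_apply (Z i)
  rwa [h2] at h1

/-! ### Boolean combinations -/

theorem main_list {S : Set EE} (h : BoolSigma2 S) : ∃ L : List QF, ∀ X X' : EE,
    (∀ φ ∈ L, X ∈ sigma2 φ ↔ X' ∈ sigma2 φ) → (X ∈ S ↔ X' ∈ S) := by
  induction h with
  | base φ => exact ⟨[φ], fun X X' h => h φ (by simp)⟩
  | compl S _ ih =>
    obtain ⟨L, hL⟩ := ih
    exact ⟨L, fun X X' h => not_congr (hL X X' h)⟩
  | inter S T _ _ ih ih' =>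
    obtain ⟨L, hL⟩ := ih
    obtain ⟨L', hL'⟩ := ih'
    refine ⟨L ++ L', fun X X' h => and_congr (hL X X' ?_) (hL' X X' ?_)⟩
    · exact fun φ hφ => h φ (List.mem_append_left _ hφ)
    · exact fun φ hφ => h φ (List.mem_append_right _ hφ)

/-- an element of the lattice -/
def main_mk {A : Set ℕ} (h : RE A) : EE := ⟨A, (re_iff A).1 h⟩

theorem main_re (X : EE) : RE X.1 := (re_iff X.1).2 X.2

/-- finitely many `∃∀` formulas which are true at some simple sets are true together at a simple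
set -/
theorem main_joint (L : List QF) (h : ∀ φ ∈ L, ∃ A : EE, IsSimple A.1 ∧ A ∈ sigma2 φ) :
    ∃ A : EE, IsSimple A.1 ∧ ∀ φ ∈ L, A ∈ sigma2 φ := by
  induction L with
  | nil =>
    obtain ⟨M, hM⟩ := exists_isMax
    exact ⟨main_mk hM.1, hM.simple, fun φ hφ => absurd hφ List.not_mem_nil⟩
  | cons φ L ih =>
    obtain ⟨A, hA, h1⟩ := ih (fun φ hφ => h φ (List.mem_cons_of_mem _ hφ))
    obtain ⟨C, hC, h2⟩ := h φ List.mem_cons_self
    refine ⟨main_mk (join_re (main_re A) (main_re C)), join_simple hA hC, fun ψ hψ => ?_⟩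
    rcases List.mem_cons.1 hψ with rfl | hψ
    · exact sum_sigma2' C A _ hC rfl ψ h2
    · exact sum_sigma2 A C _ hA rfl ψ (h1 ψ hψ)

/-- extend a finite sequence of r.e. sets -/
noncomputable def main_ext {N : ℕ} (X : Fin N → Set ℕ) (hX : ∀ i, RE (X i)) (i : ℕ) : EE :=
  if h : i < N then main_mk (hX ⟨i, h⟩) else main_bot

theorem main_ext_val {N : ℕ} (X : Fin N → Set ℕ) (hX : ∀ i, RE (X i)) :
    (fun i : Fin N => (main_ext X hX i).1) = X := by
  funext i
  unfold main_ext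
  rw [dif_pos i.2]
  rfl

/-- a common bound for the variables of finitely many formulas -/
theorem main_bound (L : List QF) : ∃ N : ℕ, ∀ φ ∈ L, ∀ (X X' : EE) (Y Z Y' Z' : ℕ → EE),
    Set.range (fun n => (patt X.1 (fun i : Fin N => (Y i).1) n,
      zpat (fun i : Fin N => (Z i).1) n)) =
    Set.range (fun n => (patt X'.1 (fun i : Fin N => (Y' i).1) n,
      zpat (fun i : Fin N => (Z' i).1) n)) →
    (φ.Holds (asg X Y Z) ↔ φ.Holds (asg X' Y' Z')) := by
  choose N₀ h₀ using holds_congr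
  refine ⟨(L.map N₀).sum, fun φ hφ => h₀ φ _ ?_⟩
  exact List.single_le_sum (by simp) _ (List.mem_map_of_mem hφ)

/-- the key step: one generic set for finitely many formulas which are true at a simple set -/
theorem main_generic (L : List QF) (B : EE) (hB : IsSimple B.1)
    (h : ∀ φ ∈ L, B ∈ sigma2 φ) :
    ∃ A : EE, IsPromptlySimple A.1 ∧ IsSemiLow A.1ᶜ ∧ ∀ φ ∈ L, A ∈ sigma2 φ := by
  classical
  obtain ⟨N, hN⟩ := main_bound L
  have h1 : ∀ j : Fin L.length, ∃ Y : ℕ → EE, ∀ Z : ℕ → EE, (L[j]).Holds (asg B Y Z) :=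
    fun j => h _ (List.getElem_mem j.2)
  choose Y hY using h1
  let Yc : Fin (L.length * N) → Set ℕ := fun k =>
    (Y (finProdFinEquiv.symm k).1 ((finProdFinEquiv.symm k).2 : ℕ)).1
  obtain ⟨A, X, hA, hlow, hX, hZ⟩ := exists_generic B.1 hB Yc (fun k => main_re _) N
  refine ⟨main_mk ((re_iff A).2 hA.1.1), hA, hlow, fun φ hφ => ?_⟩
  obtain ⟨j, hj, rfl⟩ := List.getElem_of_mem hφ
  let g : Fin N → Fin (L.length * N) := fun i => finProdFinEquiv (⟨j, hj⟩, i)
  let X' : Fin N → Set ℕ := fun i => X (g i)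
  have hX' : ∀ i, RE (X' i) := fun i => hX (g i)
  refine ⟨main_ext X' hX', fun Z => ?_⟩
  obtain ⟨Z', hZ', h2⟩ := hZ (fun i => (Z i).1) (fun i => main_re _)
  have h3 := hY ⟨j, hj⟩ (main_ext Z' hZ')
  refine (hN L[j] (List.getElem_mem hj) _ B _ Z (Y ⟨j, hj⟩) (main_ext Z' hZ') ?_).2 h3
  rw [main_ext_val, main_ext_val]
  let f : (Bool × (Fin (L.length * N) → Bool)) × (Fin N → Bool) →
      (Bool × (Fin N → Bool)) × (Fin N → Bool) := fun p => ((p.1.1, fun i => p.1.2 (g i)), p.2)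
  have h4 : (fun n => (patt A X' n, zpat (fun i : Fin N => (Z i).1) n)) =
      fun n => f (patt A X n, zpat (fun i : Fin N => (Z i).1) n) := rfl
  have h5 : (fun n => (patt B.1 (fun i : Fin N => (Y ⟨j, hj⟩ i).1) n, zpat Z' n)) =
      fun n => f (patt B.1 Yc n, zpat Z' n) := by
    funext n
    refine Prod.ext (Prod.ext rfl (funext fun i => ?_)) rfl
    change decide (n ∈ (Y ⟨j, hj⟩ i).1) = decide (n ∈ Yc (g i))
    have h6 : finProdFinEquiv.symm (g i) = (⟨j, hj⟩, i) := finProdFinEquiv.symm_apply_apply _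
    change _ = decide (n ∈ (Y (finProdFinEquiv.symm (g i)).1
      ((finProdFinEquiv.symm (g i)).2 : ℕ)).1)
    rw [h6]
  change Set.range (fun n => (patt A X' n, zpat (fun i : Fin N => (Z i).1) n)) = _
  rw [h4, h5, Set.range_comp' f, Set.range_comp' f, h2]

theorem main_mem {A : EE} (h : IsPromptlySimple A.1) (h' : IsSemiLow A.1ᶜ) :
    A ∈ genericOrbit := ⟨A, OrderIso.refl EE, h, h', rfl⟩

theorem main_insep (S : Set EE) (hS : BoolSigma2 S) (hO : genericOrbit ⊆ S) :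
    ∃ B ∈ S, IsSimple B.1 ∧ B ∉ genericOrbit := by
  classical
  obtain ⟨L, hL⟩ := main_list hS
  let T := L.filter (fun φ => decide (∃ A : EE, IsSimple A.1 ∧ A ∈ sigma2 φ))
  have hT : ∀ φ, φ ∈ T ↔ φ ∈ L ∧ ∃ A : EE, IsSimple A.1 ∧ A ∈ sigma2 φ := by
    intro φ
    simp [T]
  obtain ⟨B, hB, h1⟩ := main_joint T (fun φ hφ => ((hT φ).1 hφ).2)
  obtain ⟨A, hA, hlow, h2⟩ := main_generic T B hB h1
  obtain ⟨M, hM⟩ := exists_isMax
  have hM' := hM.simple
  let D : EE := main_mk (join_re (main_re A) hM.1)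
  have hD : IsSimple D.1 := join_simple hA.1 hM'
  refine ⟨D, (hL A D fun φ hφ => ?_).1 (hO (main_mem hA hlow)), hD,
    join_not_mem A.1 M hM D rfl⟩
  constructor
  · intro h
    exact sum_sigma2 A (main_mk hM.1) D hA.1 rfl φ h
  · intro h
    exact h2 φ ((hT φ).2 ⟨hφ, D, hD, h⟩)

theorem main : ¬ BoolSigma2 genericOrbit ∧
    (∀ S : Set EE, BoolSigma2 S → genericOrbit ⊆ S →
      ∃ B ∈ S, IsSimple B.1 ∧ B ∉ genericOrbit) ∧
    ∀ φ : QF, (∃ A ∈ genericOrbit, A ∈ sigma2 φ) ↔ ∃ A : EE, IsSimple A.1 ∧ A ∈ sigma2 φ := by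
  refine ⟨fun h => ?_, main_insep, fun φ => ⟨?_, ?_⟩⟩
  · obtain ⟨B, h1, -, h2⟩ := main_insep _ h le_rfl
    exact h2 h1
  · rintro ⟨B, ⟨A, Φ, hA, -, rfl⟩, h⟩
    refine ⟨A, hA.1, ?_⟩
    have h1 := main_map_sigma2 Φ.symm (Φ A) φ h
    rwa [Φ.symm_apply_apply] at h1
  · rintro ⟨B, hB, h⟩
    obtain ⟨A, hA, hlow, h1⟩ := main_generic [φ] B hB (fun ψ hψ => by
      rw [List.mem_singleton] at hψ
      rwa [hψ])
    exact ⟨A, main_mem hA hlow, h1 φ List.mem_cons_self⟩

end Pool.Agent.GO
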