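import Pool.Agent.GO.Base

/-!
ROW N: joins with a maximal set are not in the orbit of the r.e. generic sets.
-/

set_option autoImplicit false

namespace Pool.Agent.GO

open Pool.Agent.H36.LFI (SD)
open Pool.Agent.H36.MinNum
open Encodable

section Index

variable {α : Type} [Primcodable α]

/-- Uniform indices of the sections of a semidecidable predicate. -/
theorem ni_index {p : α × ℕ → Prop} (h : SD p) :
    ∃ ix : α → ℕ, Primrec ix ∧ ∀ a, W (ix a) = {x | p (a, x)} := by
  obtain ⟨c, hc⟩ := Nat.Partrec.Code.exists_code.1 h.to_re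
  have hc2 : ∀ a x, (c.eval (Nat.pair (encode a) x)).Dom ↔ p (a, x) := by
    intro a x
    have h1 : encode (a, x) = Nat.pair (encode a) x := by simp
    rw [← h1, hc]
    simp [Part.assert]
  refine ⟨fun a => encode (Nat.Partrec.Code.curry c (encode a)), ?_, ?_⟩
  · exact Primrec.encode.comp
      (Nat.Partrec.Code.primrec₂_curry.comp (Primrec.const c) Primrec.encode)
  · intro a
    ext x
    simp only [W, Set.mem_ofPred_eq, Denumerable.ofNat_encode, Nat.Partrec.Code.eval_curry]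
    exact hc2 a x

end Index

theorem ni_sd_eval : SD (fun y : (Nat.Partrec.Code × ℕ) × ℕ => y.2 ∈ y.1.1.eval y.1.2) := by
  have h : Partrec (fun y : Nat.Partrec.Code × ℕ => y.1.eval y.2) :=
    Nat.Partrec.Code.eval_part.comp Computable.fst Computable.snd
  exact SD.graph h

open Nat.Partrec (Code) in
theorem not_cohesive {A R : Set ℕ} {g : ℕ → ℕ → Bool} (h : IsApprox Aᶜ g) (hR : RE R)
    (hinf : (R \ A).Infinite) :
    ∃ V, RE V ∧ ((R \ A) ∩ V).Infinite ∧ ((R \ A) \ V).Infinite := by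
  classical
  obtain ⟨hg, hlim⟩ := h
  -- the index function
  obtain ⟨hh, hhp, hhW⟩ := ni_index (α := Code × ℕ)
    (p := fun y => (y.2 ∈ R ∧ y.1.2 / 2 < y.2) ∧ y.1.2 % 2 ∈ y.1.1.eval y.2) (by
      refine s_and (s_and (SD.comp (p := fun n => n ∈ R) hR Primrec.snd) ?_) ?_
      · exact s_lt (p_div (p_snd (p_fst p_id)) (p_const 2)) (p_snd p_id)
      · exact SD.comp (p := fun y : (Code × ℕ) × ℕ => y.2 ∈ y.1.1.eval y.1.2) ni_sd_eval
          (f := fun y : (Code × ℕ) × ℕ => ((y.1.1, y.2), y.1.2 % 2))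
          (p_pair (p_pair (p_fst (p_fst p_id)) (p_snd p_id))
            (p_mod (p_snd (p_fst p_id)) (p_const 2))))
  -- the approximation read off at a stage
  have hgc : Computable (fun y : (Code × ℕ) × ℕ => g (hh (y.1.1, y.2)) y.1.2) := by
    refine hg.comp ?_ ?_
    · exact (hhp.comp (p_pair (p_fst (p_fst p_id)) (p_snd p_id))).to_comp
    · exact (p_snd (p_fst p_id)).to_comp
  have hgb : ∀ b : Bool, SD (fun y : (Code × ℕ) × ℕ => g (hh (y.1.1, y.2)) y.1.2 = b) := by
    intro b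
    exact SD.compC (p := fun u : Bool => u = b) (s_eq p_id (p_const b)) hgc
  -- the function computed from the code and the stage
  obtain ⟨F, hF, hFR⟩ := exists_sel_total
    (R := fun (y : Code × ℕ) (v : ℕ) =>
      (∃ m, (m ≤ y.2 ∧ g (hh (y.1, m)) y.2 = false) ∧
        (∀ m', m' < m → g (hh (y.1, m')) y.2 = true) ∧ v = m % 2) ∨
      ((∀ m, m < y.2 + 1 → g (hh (y.1, m)) y.2 = true) ∧ v = 0)) (by
      refine s_or (s_ex ?_) (s_and ?_ ?_)
      · refine s_and (s_and ?_ ?_) (s_and ?_ ?_)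
        · exact s_le (p_snd p_id) (p_snd (p_fst (p_fst p_id)))
        · exact SD.comp (hgb false)
            (f := fun y : ((Code × ℕ) × ℕ) × ℕ => (y.1.1, y.2))
            (p_pair (p_fst (p_fst p_id)) (p_snd p_id))
        · refine s_ball (p_snd p_id) ?_
          exact SD.comp (hgb true)
            (f := fun y : (((Code × ℕ) × ℕ) × ℕ) × ℕ => (y.1.1.1, y.2))
            (p_pair (p_fst (p_fst (p_fst p_id))) (p_snd p_id))
        · exact s_eq (p_snd (p_fst p_id)) (p_mod (p_snd p_id) (p_const 2))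
      · refine s_ball (p_add (p_snd (p_fst p_id)) (p_const 1)) ?_
        exact SD.comp (hgb true)
            (f := fun y : ((Code × ℕ) × ℕ) × ℕ => (y.1.1, y.2))
            (p_pair (p_fst (p_fst p_id)) (p_snd p_id))
      · exact s_eq (p_snd p_id) (p_const 0)) (by
      rintro ⟨c, t⟩
      by_cases hex : ∃ m, m ≤ t ∧ g (hh (c, m)) t = false
      · refine ⟨Nat.find hex % 2, Or.inl ⟨Nat.find hex, Nat.find_spec hex, ?_, rfl⟩⟩
        intro m' hm'
        have h1 := Nat.find_min hex hm'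
        have h2 : m' ≤ t := le_trans hm'.le (Nat.find_spec hex).1
        by_contra h3
        exact h1 ⟨h2, by simpa using h3⟩
      · refine ⟨0, Or.inr ⟨?_, rfl⟩⟩
        intro m hm
        by_contra h3
        exact hex ⟨m, by omega, by simpa using h3⟩)
  -- the recursion theorem
  obtain ⟨c, hc⟩ := Nat.Partrec.Code.fixed_point₂
    (f := fun (c : Code) (x : ℕ) => (Part.some (F (c, x)) : Part ℕ)) hF.partrec
  have hev : ∀ x, c.eval x = Part.some (F (c, x)) := fun x => by rw [hc]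
  let V : Set ℕ := {x | F (c, x) = 0}
  have hVc : Computable (fun x => F (c, x)) := hF.comp ((p_pair (p_const c) p_id).to_comp)
  have hV : RE V := SD.compC (p := fun u : ℕ => u = 0) (s_eq p_id (p_const 0)) hVc
  have hF01 : ∀ x, F (c, x) = 0 ∨ F (c, x) = 1 := by
    intro x
    rcases hFR (c, x) with ⟨m, _, _, hm⟩ | ⟨_, hm⟩
    · rw [hm]; omega
    · exact Or.inl hm
  have hWm : ∀ m, W (hh (c, m)) ∩ Aᶜ = {x | x ∈ R \ A ∧ m / 2 < x ∧ F (c, x) = m % 2} := by
    intro m
    rw [hhW]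
    ext x
    simp only [Set.mem_inter_iff, Set.mem_ofPred_eq, hev, Part.mem_some_iff, Set.mem_compl_iff,
      Set.mem_sdiff]
    constructor
    · rintro ⟨⟨⟨h1, h2⟩, h3⟩, h4⟩
      exact ⟨⟨h1, h4⟩, h2, h3.symm⟩
    · rintro ⟨⟨h1, h4⟩, h2, h3⟩
      exact ⟨⟨⟨h1, h2⟩, h3.symm⟩, h4⟩
  by_contra hcon
  push Not at hcon
  have hcon := hcon V hV
  -- one of the sets is empty
  have hempty : ∃ m, ¬ (W (hh (c, m)) ∩ Aᶜ).Nonempty := by
    by_cases hfin : ((R \ A) ∩ V).Infinite
    · have h2 := hcon hfin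
      have h2' : ((R \ A) \ V).Finite := by
        simpa using h2
      obtain ⟨n, hn⟩ := h2'.bddAbove
      refine ⟨2 * n + 1, ?_⟩
      rw [hWm]
      rintro ⟨x, hx, hx2, hx3⟩
      have h4 : x ∈ (R \ A) \ V := by
        refine ⟨hx, ?_⟩
        intro hxV
        have : F (c, x) = 0 := hxV
        omega
      have := hn h4
      omega
    · have h2' : ((R \ A) ∩ V).Finite := by simpa using hfin
      obtain ⟨n, hn⟩ := h2'.bddAbove
      refine ⟨2 * n, ?_⟩
      rw [hWm]
      rintro ⟨x, hx, hx2, hx3⟩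
      have h4 : x ∈ (R \ A) ∩ V := by
        refine ⟨hx, ?_⟩
        show F (c, x) = 0
        omega
      have := hn h4
      omega
  -- the limit
  obtain ⟨ms, hms, hmin⟩ : ∃ m, ¬ (W (hh (c, m)) ∩ Aᶜ).Nonempty ∧
      ∀ m' < m, (W (hh (c, m')) ∩ Aᶜ).Nonempty := by
    refine ⟨Nat.find hempty, Nat.find_spec hempty, fun m' hm' => ?_⟩
    exact not_not.1 (Nat.find_min hempty hm')
  choose s0 hs0 using hlim
  have hT : ∃ T, ms ≤ T ∧ ∀ m ≤ ms, s0 (hh (c, m)) ≤ T := by
    refine ⟨ms + ∑ m ∈ Finset.range (ms + 1), s0 (hh (c, m)), by omega, fun m hm => ?_⟩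
    have h1 : s0 (hh (c, m)) ≤ ∑ m ∈ Finset.range (ms + 1), s0 (hh (c, m)) :=
      Finset.single_le_sum (f := fun m => s0 (hh (c, m))) (fun _ _ => Nat.zero_le _)
        (Finset.mem_range.2 (by omega))
    omega
  obtain ⟨T, hT1, hT2⟩ := hT
  have hlimF : ∀ t, T ≤ t → F (c, t) = ms % 2 := by
    intro t ht
    have hfalse : g (hh (c, ms)) t = false := by
      by_contra h3
      have h4 : g (hh (c, ms)) t = true := by simpa using h3
      exact hms ((hs0 _ t (le_trans (hT2 ms le_rfl) ht)).1 h4)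
    have htrue : ∀ m', m' < ms → g (hh (c, m')) t = true := by
      intro m' hm'
      exact (hs0 _ t (le_trans (hT2 m' hm'.le) ht)).2 (hmin m' hm')
    rcases hFR (c, t) with ⟨m, ⟨hm1, hm2⟩, hm3, hm4⟩ | ⟨hm1, _⟩
    · have h5 : m = ms := by
        rcases lt_trichotomy m ms with h6 | h6 | h6
        · have := htrue m h6
          rw [hm2] at this
          exact absurd this (by simp)
        · exact h6
        · have := hm3 ms h6
          rw [hfalse] at this
          exact absurd this (by simp)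
      rw [hm4, h5]
    · have := hm1 ms (by omega)
      rw [hfalse] at this
      exact absurd this (by simp)
  -- the contradiction
  obtain ⟨x, hx1, hx2⟩ := hinf.exists_gt (T + ms / 2)
  apply hms
  rw [hWm]
  exact ⟨x, hx1, by omega, hlimF x (by omega)⟩

theorem exists_isMax : ∃ M, IsMax M := by
  obtain ⟨M, hM1, hM2, hM3⟩ := exists_maximal
  refine ⟨{x | M x}, hM1, ?_, ?_⟩
  · rw [Set.infinite_iff_exists_gt]
    intro N
    obtain ⟨b, hb1, hb2⟩ := hM2 (N + 1)
    exact ⟨b, hb2, by omega⟩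
  · intro V hV
    rcases hM3 (fun x => x ∈ V) hV with h | h
    · left
      refine h.subset ?_
      rintro x ⟨hx1, hx2⟩
      exact ⟨hx2, hx1⟩
    · right
      refine h.subset ?_
      rintro x ⟨hx1, hx2⟩
      exact ⟨hx1, hx2⟩

theorem ni_finite_re {F : Set ℕ} (hF : F.Finite) : RE F := by
  induction F, hF using Set.Finite.induction_on with
  | empty => exact (s_const False).of_eq (fun n => by simp)
  | @insert a s _ _ ih =>
    exact (s_or (s_eq p_id (p_const a)) ih).of_eq (fun n => by simp)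

/-- The approximation of a semidecidable predicate. -/
theorem ni_approx_of_sd {S : Set ℕ} (h : SD (fun e => (W e ∩ S).Nonempty)) :
    ∃ g, IsApprox S g := by
  classical
  obtain ⟨q, hq, e⟩ := h
  have h1 : PrimrecRel (fun (u : ℕ) (x : ℕ) => q x u) := hq.comp Primrec.snd Primrec.fst
  have h2 : PrimrecRel (fun (x : ℕ) (s : ℕ) => ∃ u ∈ List.range s, q x u) :=
    h1.exists_mem_list.comp (Primrec.list_range.comp Primrec.snd) Primrec.fst
  refine ⟨fun x s => decide (∃ u ∈ List.range s, q x u), ?_, ?_⟩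
  · exact (PrimrecRel.decide h2).to_comp
  · intro x
    by_cases hx : (W x ∩ S).Nonempty
    · obtain ⟨t, ht⟩ := (e x).1 hx
      refine ⟨t + 1, fun s hs => ?_⟩
      simp only [decide_eq_true_eq]
      refine ⟨fun _ => hx, fun _ => ⟨t, List.mem_range.2 (by omega), ht⟩⟩
    · refine ⟨0, fun s _ => ?_⟩
      simp only [decide_eq_true_eq]
      refine ⟨?_, fun h => absurd h hx⟩
      rintro ⟨u, _, hu⟩
      exact absurd ((e x).2 ⟨u, hu⟩) hx

theorem ni_sd_W : SD (fun y : ℕ × ℕ => y.2 ∈ W y.1) := by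
  have h : Partrec (fun y : ℕ × ℕ => (Denumerable.ofNat Nat.Partrec.Code y.1).eval y.2) :=
    Nat.Partrec.Code.eval_part.comp ((Primrec.ofNat _).to_comp.comp Computable.fst) Computable.snd
  exact SD.dom h

theorem IsMax.simple {M : Set ℕ} (h : IsMax M) : IsSimple M := by
  obtain ⟨h1, h2, h3⟩ := h
  refine ⟨SD.to_re h1, h2, ?_⟩
  intro e he
  by_contra hcon
  rw [Set.not_nonempty_iff_eq_empty] at hcon
  have hsub : ∀ x, x ∈ W e → x ∉ M := by
    intro x hx hxM
    have : x ∈ W e ∩ M := ⟨hx, hxM⟩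
    rw [hcon] at this
    exact this
  have hWe : RE (W e) := SD.comp ni_sd_W (f := fun n : ℕ => (e, n)) (p_pair (p_const e) p_id)
  have hfin : (Mᶜ \ W e).Finite := by
    rcases h3 (W e) hWe with h4 | h4
    · exfalso
      apply he
      refine h4.subset ?_
      intro x hx
      exact ⟨hx, hsub x hx⟩
    · exact h4
  have hMc : RE Mᶜ := by
    refine (s_or hWe (ni_finite_re hfin)).of_eq (fun n => ?_)
    constructor
    · rintro (hn | hn)
      · exact hsub n hn
      · exact hn.1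
    · intro hn
      by_cases hn2 : n ∈ W e
      · exact Or.inl hn2
      · exact Or.inr ⟨hn, hn2⟩
  obtain ⟨g, hg⟩ := ni_approx_of_sd (S := Mᶜ) (by
    refine (s_ex (p := fun (e : ℕ) (x : ℕ) => x ∈ W e ∧ x ∈ Mᶜ)
      (s_and ni_sd_W (SD.comp hMc Primrec.snd))).of_eq (fun e => ?_)
    rfl)
  obtain ⟨V, hV1, hV2, hV3⟩ := not_cohesive (A := M) (R := Set.univ) hg
    ((s_const True).of_eq (fun n => by simp)) (by rwa [← Set.compl_eq_univ_sdiff])
  rw [← Set.compl_eq_univ_sdiff] at hV2 hV3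
  rcases h3 V hV1 with h4 | h4
  · apply hV2
    refine h4.subset ?_
    rintro x ⟨hx1, hx2⟩
    exact ⟨hx2, hx1⟩
  · exact hV3 h4

/-! ### Lattice automorphisms -/

/-- Union and intersection in the lattice of r.e. sets. -/
def ni_sup (X Y : EE) : EE :=
  ⟨X.1 ∪ Y.1, ((s_or (SD.of_re X.2) (SD.of_re Y.2)).of_eq (fun _ => Iff.rfl)).to_re⟩

def ni_inf (X Y : EE) : EE :=
  ⟨X.1 ∩ Y.1, ((s_and (SD.of_re X.2) (SD.of_re Y.2)).of_eq (fun _ => Iff.rfl)).to_re⟩

def ni_fin (F : Set ℕ) (hF : F.Finite) : EE := ⟨F, (ni_finite_re hF).to_re⟩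

theorem ni_map_sup (Φ : EE ≃o EE) (X Y : EE) : Φ (ni_sup X Y) = ni_sup (Φ X) (Φ Y) := by
  apply le_antisymm
  · have h1 : ni_sup X Y ≤ Φ.symm (ni_sup (Φ X) (Φ Y)) := by
      have hX : X ≤ Φ.symm (ni_sup (Φ X) (Φ Y)) := by
        rw [Φ.le_symm_apply]
        exact Set.subset_union_left
      have hY : Y ≤ Φ.symm (ni_sup (Φ X) (Φ Y)) := by
        rw [Φ.le_symm_apply]
        exact Set.subset_union_right
      exact Set.union_subset hX hY
    rwa [Φ.le_symm_apply] at h1
  · have hX : Φ X ≤ Φ (ni_sup X Y) := Φ.monotone (Set.subset_union_left)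
    have hY : Φ Y ≤ Φ (ni_sup X Y) := Φ.monotone (Set.subset_union_right)
    exact Set.union_subset hX hY

theorem ni_map_inf (Φ : EE ≃o EE) (X Y : EE) : Φ (ni_inf X Y) = ni_inf (Φ X) (Φ Y) := by
  apply le_antisymm
  · have hX : Φ (ni_inf X Y) ≤ Φ X := Φ.monotone (Set.inter_subset_left)
    have hY : Φ (ni_inf X Y) ≤ Φ Y := Φ.monotone (Set.inter_subset_right)
    exact Set.subset_inter hX hY
  · have h1 : Φ.symm (ni_inf (Φ X) (Φ Y)) ≤ ni_inf X Y := by
      have hX : Φ.symm (ni_inf (Φ X) (Φ Y)) ≤ X := by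
        rw [Φ.symm_apply_le]
        exact Set.inter_subset_left
      have hY : Φ.symm (ni_inf (Φ X) (Φ Y)) ≤ Y := by
        rw [Φ.symm_apply_le]
        exact Set.inter_subset_right
      exact Set.subset_inter hX hY
    rwa [Φ.symm_apply_le] at h1

theorem ni_finite_iff (X : EE) : X.1.Finite ↔ {Y : EE | Y ≤ X}.Finite := by
  constructor
  · intro h
    have h1 : ({S : Set ℕ | S ⊆ X.1}).Finite := h.finite_subsets
    have h2 : Function.Injective (fun Y : EE => Y.1) := Subtype.val_injective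
    refine Set.Finite.of_finite_image (f := fun Y : EE => Y.1) (h1.subset ?_) h2.injOn
    rintro _ ⟨Y, hY, rfl⟩
    exact hY
  · intro h
    have h1 : (fun x : ℕ => ni_fin {x} (Set.finite_singleton x)) '' X.1 ⊆ {Y : EE | Y ≤ X} := by
      rintro _ ⟨x, hx, rfl⟩
      exact Set.singleton_subset_iff.2 hx
    refine Set.Finite.of_finite_image (h.subset h1) ?_
    intro x _ y _ hxy
    have h2 : ({x} : Set ℕ) = {y} := congrArg Subtype.val hxy
    exact Set.singleton_injective h2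

theorem ni_map_finite (Φ : EE ≃o EE) {X : EE} (h : X.1.Finite) : (Φ X).1.Finite := by
  rw [ni_finite_iff] at h ⊢
  refine Set.Finite.of_finite_image (f := fun Y => Φ.symm Y) (h.subset ?_)
    (Φ.symm.injective.injOn)
  rintro _ ⟨Y, hY, rfl⟩
  show Φ.symm Y ≤ X
  rw [Φ.symm_apply_le]
  exact hY

theorem ni_map_diff (Φ : EE ≃o EE) {X Y : EE} (h : (X.1 \ Y.1).Finite) :
    ((Φ X).1 \ (Φ Y).1).Finite := by
  have h1 : X ≤ ni_sup Y (ni_fin (X.1 \ Y.1) h) := by
    intro x hx
    by_cases hy : x ∈ Y.1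
    · exact Or.inl hy
    · exact Or.inr ⟨hx, hy⟩
  have h2 := Φ.monotone h1
  rw [ni_map_sup] at h2
  refine (ni_map_finite Φ (X := ni_fin (X.1 \ Y.1) h) h).subset ?_
  rintro x ⟨hx, hxY⟩
  rcases h2 hx with h3 | h3
  · exact absurd h3 hxY
  · exact h3

/-- The odd numbers. -/
def ni_odd : EE :=
  ⟨{n | n % 2 = 1}, (SD.of_eq (s_eq (p_mod p_id (p_const 2)) (p_const 1))
    (fun _ => Iff.rfl)).to_re⟩

/-- `join_not_mem` from one half of the limit lemma. -/
theorem join_not_mem_of (happ : ∀ S : Set ℕ, IsSemiLow S → ∃ g, IsApprox S g)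
    (A M : Set ℕ) (hM : IsMax M) (B : EE) (hB : B.1 = join A M) :
    B ∉ genericOrbit := by
  rintro ⟨A', Φ, _, hsl, hΦ⟩
  obtain ⟨g, hg⟩ := happ _ hsl
  have hodd : ∀ x, x ∈ ni_odd.1 ↔ x % 2 = 1 := fun x => Iff.rfl
  have hBodd : ∀ x, x % 2 = 1 → (x ∈ B.1 ↔ x / 2 ∈ M) := by
    intro x hx
    rw [hB]
    simp only [join, Set.mem_ofPred_eq]
    constructor
    · rintro (⟨h1, _⟩ | ⟨_, h2⟩)
      · omega
      · exact h2
    · intro h
      exact Or.inr ⟨hx, h⟩
  have hA' : Φ.symm B = A' := by rw [← hΦ, Φ.symm_apply_apply]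
  -- the set of the odd numbers is mapped to `R'`
  set R' : EE := Φ.symm ni_odd with hR'
  have hRinf : (R'.1 \ A'.1).Infinite := by
    intro hfin
    have h1 := ni_map_diff Φ hfin
    rw [hR', Φ.apply_symm_apply, hΦ] at h1
    obtain ⟨_, h2, _⟩ := hM
    apply h2
    refine Set.Finite.of_finite_image (f := fun n : ℕ => 2 * n + 1) (h1.subset ?_) ?_
    · rintro _ ⟨n, hn, rfl⟩
      refine ⟨?_, ?_⟩
      · show (2 * n + 1) % 2 = 1
        omega
      · show ¬ (2 * n + 1 ∈ B.1)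
        rw [hBodd (2 * n + 1) (by omega)]
        have h4 : (2 * n + 1) / 2 = n := by omega
        rw [h4]
        exact hn
    · intro a _ b _ hab
      simp only at hab
      omega
  obtain ⟨V', hV', hi1, hi2⟩ := not_cohesive hg (SD.of_re R'.2) hRinf
  let V0 : EE := ⟨V', SD.to_re hV'⟩
  let V : EE := Φ V0
  have hV0 : Φ.symm V = V0 := Φ.symm_apply_apply V0
  let V1 : Set ℕ := {n | 2 * n + 1 ∈ V.1}
  have hV1 : RE V1 := SD.comp (SD.of_re V.2) (f := fun n : ℕ => 2 * n + 1)
    (p_add (p_mul (p_const 2) p_id) (p_const 1))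
  obtain ⟨_, _, h3⟩ := hM
  rcases h3 V1 hV1 with h4 | h4
  · apply hi1
    have h5 : ((ni_inf ni_odd V).1 \ B.1).Finite := by
      refine (h4.image (fun n => 2 * n + 1)).subset ?_
      rintro x ⟨⟨hx1, hx2⟩, hx3⟩
      have hx1' : x % 2 = 1 := hx1
      have hx4 : 2 * (x / 2) + 1 = x := by omega
      refine ⟨x / 2, ⟨?_, ?_⟩, hx4⟩
      · show 2 * (x / 2) + 1 ∈ V.1
        rw [hx4]
        exact hx2
      · intro hx5
        exact hx3 ((hBodd x hx1').2 hx5)
    have h6 := ni_map_diff Φ.symm h5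
    rw [ni_map_inf, hA', hV0] at h6
    refine h6.subset ?_
    rintro x ⟨⟨hx1, hx2⟩, hx3⟩
    exact ⟨⟨hx1, hx3⟩, hx2⟩
  · apply hi2
    have h5 : (ni_odd.1 \ (ni_sup B V).1).Finite := by
      refine (h4.image (fun n => 2 * n + 1)).subset ?_
      rintro x ⟨hx1, hx3⟩
      have hx1' : x % 2 = 1 := hx1
      have hx4 : 2 * (x / 2) + 1 = x := by omega
      refine ⟨x / 2, ⟨?_, ?_⟩, hx4⟩
      · intro hx5
        exact hx3 (Or.inl ((hBodd x hx1').2 hx5))
      · intro hx5
        apply hx3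
        right
        have : 2 * (x / 2) + 1 ∈ V.1 := hx5
        rwa [hx4] at this
    have h6 := ni_map_diff Φ.symm h5
    rw [ni_map_sup, hA', hV0] at h6
    refine h6.subset ?_
    rintro x ⟨⟨hx1, hx2⟩, hx3⟩
    refine ⟨hx1, ?_⟩
    rintro (h7 | h7)
    · exact hx2 h7
    · exact hx3 h7

end Pool.Agent.GO
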