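import Pool.Agent.GO.Base

/-!
Row P, first part: r.e. sets and finite changes, patterns and the truth of quantifier free
formulas.
-/

set_option autoImplicit false

namespace Pool.Agent.GO

open Pool.Agent.H36.LFI (SD)

theorem re_iff (A : Set ℕ) : RE A ↔ REPred (fun n => n ∈ A) :=
  ⟨fun h => Pool.Agent.H36.LFI.SD.to_re h, fun h => Pool.Agent.H36.LFI.SD.of_re h⟩

/-- finite sets and their complements are r.e. -/
theorem pat1_fin {F : Set ℕ} (hF : F.Finite) : RE F ∧ RE Fᶜ := by
  classical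
  have hp : PrimrecPred (fun n : ℕ => n ∈ hF.toFinset.toList) := by
    have h := (Primrec.list_findIdx (α := ℕ) (f := fun _ => hF.toFinset.toList)
      (p := fun a b => decide (a = b)) (Primrec.const _)
      (PrimrecRel.decide (Primrec.eq (α := ℕ))))
    have h2 : PrimrecPred (fun n : ℕ => (hF.toFinset.toList).findIdx (fun b => decide (n = b))
        < (hF.toFinset.toList).length) :=
      Primrec.nat_lt.comp h (Primrec.const _)
    refine h2.of_eq fun n => ?_
    rw [List.findIdx_lt_length]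
    simp
  constructor
  · exact Pool.Agent.H36.LFI.SD.of_eq (Pool.Agent.H36.LFI.SD.of_primrec hp) (fun n => by simp)
  · exact Pool.Agent.H36.LFI.SD.of_eq (Pool.Agent.H36.LFI.SD.of_primrec hp.not) (fun n => by simp)

theorem re_of_finite_diff {A B : Set ℕ} (hA : RE A) (h : {n | ¬ (n ∈ A ↔ n ∈ B)}.Finite) :
    RE B := by
  have h1 := (pat1_fin h).2
  have h2 := (pat1_fin (h.inter_of_left B)).1
  refine Pool.Agent.H36.LFI.SD.of_eq ((Pool.Agent.H36.LFI.SD.and hA h1).or h2) (fun n => ?_)
  simp only [Set.mem_compl_iff, Set.mem_ofPred_eq, Set.mem_inter_iff]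
  tauto

/-- the value of a term at a pattern -/
def pat1_ev {N : ℕ} : Term → (Bool × (Fin N → Bool)) × (Fin N → Bool) → Prop
  | .var .x, p => p.1.1 = true
  | .var (.y i), p => ∃ h : i < N, p.1.2 ⟨i, h⟩ = true
  | .var (.z i), p => ∃ h : i < N, p.2 ⟨i, h⟩ = true
  | .bot, _ => False
  | .top, _ => True
  | .sup s t, p => pat1_ev s p ∨ pat1_ev t p
  | .inf s t, p => pat1_ev s p ∧ pat1_ev t p

/-- the truth of a formula at a set of patterns -/
def pat1_hp {N : ℕ} : QF → Set ((Bool × (Fin N → Bool)) × (Fin N → Bool)) → Prop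
  | .eq s t, R => ∀ p ∈ R, (pat1_ev s p ↔ pat1_ev t p)
  | .le s t, R => ∀ p ∈ R, (pat1_ev s p → pat1_ev t p)
  | .not φ, R => ¬ pat1_hp φ R
  | .and φ ψ, R => pat1_hp φ R ∧ pat1_hp ψ R

/-- a bound of the indices of the variables -/
def pat1_tb : Term → ℕ
  | .var .x => 0
  | .var (.y i) => i + 1
  | .var (.z i) => i + 1
  | .bot => 0
  | .top => 0
  | .sup s t => max (pat1_tb s) (pat1_tb t)
  | .inf s t => max (pat1_tb s) (pat1_tb t)

def pat1_qb : QF → ℕ
  | .eq s t => max (pat1_tb s) (pat1_tb t)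
  | .le s t => max (pat1_tb s) (pat1_tb t)
  | .not φ => pat1_qb φ
  | .and φ ψ => max (pat1_qb φ) (pat1_qb ψ)

theorem pat1_term {N : ℕ} (X : EE) (Y Z : ℕ → EE) (n : ℕ) :
    ∀ t : Term, pat1_tb t ≤ N → (n ∈ t.val (asg X Y Z) ↔
      pat1_ev t (patt X.1 (fun i : Fin N => (Y i).1) n, zpat (fun i : Fin N => (Z i).1) n)) := by
  intro t
  induction t with
  | var v =>
    intro h
    cases v with
    | x => simp [Term.val, asg, pat1_ev, patt]
    | y i =>
      have hi : i < N := h
      simp [Term.val, asg, pat1_ev, patt, hi]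
    | z i =>
      have hi : i < N := h
      simp [Term.val, asg, pat1_ev, zpat, hi]
  | bot => intro _; simp [Term.val, pat1_ev]
  | top => intro _; simp [Term.val, pat1_ev]
  | sup s t hs ht =>
    intro h
    have h1 := hs ((le_max_left _ _).trans h)
    have h2 := ht ((le_max_right _ _).trans h)
    show n ∈ s.val _ ∪ t.val _ ↔ _
    rw [Set.mem_union, h1, h2]
    rfl
  | inf s t hs ht =>
    intro h
    have h1 := hs ((le_max_left _ _).trans h)
    have h2 := ht ((le_max_right _ _).trans h)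
    show n ∈ s.val _ ∩ t.val _ ↔ _
    rw [Set.mem_inter_iff, h1, h2]
    rfl

theorem pat1_qf {N : ℕ} (X : EE) (Y Z : ℕ → EE) :
    ∀ φ : QF, pat1_qb φ ≤ N → (φ.Holds (asg X Y Z) ↔
      pat1_hp φ (Set.range (fun n => (patt X.1 (fun i : Fin N => (Y i).1) n,
        zpat (fun i : Fin N => (Z i).1) n)))) := by
  intro φ
  induction φ with
  | eq s t =>
    intro h
    have h1 := fun n => pat1_term X Y Z n s ((le_max_left _ _).trans h)
    have h2 := fun n => pat1_term X Y Z n t ((le_max_right _ _).trans h)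
    show s.val _ = t.val _ ↔ ∀ p ∈ Set.range _, _
    rw [Set.forall_mem_range, Set.ext_iff]
    exact forall_congr' fun n => by rw [h1, h2]
  | le s t =>
    intro h
    have h1 := fun n => pat1_term X Y Z n s ((le_max_left _ _).trans h)
    have h2 := fun n => pat1_term X Y Z n t ((le_max_right _ _).trans h)
    show s.val _ ⊆ t.val _ ↔ ∀ p ∈ Set.range _, _
    rw [Set.forall_mem_range, Set.subset_def]
    exact forall_congr' fun n => by rw [h1, h2]
  | not φ ih =>
    intro h
    show ¬ _ ↔ ¬ _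
    rw [ih h]
  | and φ ψ h1 h2 =>
    intro h
    show _ ∧ _ ↔ _ ∧ _
    rw [h1 ((le_max_left _ _).trans h), h2 ((le_max_right _ _).trans h)]

/-- truth depends only on the patterns of finitely many variables -/
theorem holds_congr (φ : QF) : ∃ N₀ : ℕ, ∀ N, N₀ ≤ N → ∀ (X X' : EE) (Y Z Y' Z' : ℕ → EE),
    Set.range (fun n => (patt X.1 (fun i : Fin N => (Y i).1) n,
      zpat (fun i : Fin N => (Z i).1) n)) =
    Set.range (fun n => (patt X'.1 (fun i : Fin N => (Y' i).1) n,
      zpat (fun i : Fin N => (Z' i).1) n)) →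
    (φ.Holds (asg X Y Z) ↔ φ.Holds (asg X' Y' Z')) := by
  refine ⟨pat1_qb φ, fun N hN X X' Y Z Y' Z' h => ?_⟩
  rw [pat1_qf X Y Z φ hN, pat1_qf X' Y' Z' φ hN, h]

theorem pat1_cell {Pos : Type} {m : ℕ} (q : ℕ → Pos) (Z : Fin m → Set ℕ)
    (P : Pos → Set (Fin m → Bool)) (c : Pos)
    (h : ({n | q n = c}.Infinite ∧ (P c).Nonempty ∧
          {n | q n = c ∧ zpat Z n ∉ P c}.Finite) ∨
        (P c = zpat Z '' {n | q n = c}) ∨
        ({n | q n = c}.Finite ∧ {n | q n = c}.Nonempty ∧ ∃ z, P c = {z})) :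
    ∃ f : ℕ → (Fin m → Bool), {n | q n = c ∧ f n ≠ zpat Z n}.Finite ∧
      f '' {n | q n = c} = P c := by
  classical
  rcases h with ⟨h1, ⟨p0, hp0⟩, h3⟩ | h | ⟨h1, h2, z, hz⟩
  · -- an injection of `P c` into the cell
    have := h1.to_subtype
    have hfin : Finite (P c) := inferInstance
    obtain ⟨e⟩ : Nonempty (P c ↪ {n | q n = c}) := by
      have := Fintype.ofFinite (P c)
      exact ⟨(Fintype.equivFin (P c)).toEmbedding.trans
        ((Fin.valEmbedding).trans (Infinite.natEmbedding {n | q n = c}))⟩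
    let f : ℕ → (Fin m → Bool) := fun n =>
      if h : ∃ p : P c, (e p).1 = n then h.choose.1
      else if zpat Z n ∈ P c then zpat Z n else p0
    have fe : ∀ p : P c, f (e p).1 = p.1 := by
      intro p
      have hh : ∃ p' : P c, (e p').1 = (e p).1 := ⟨p, rfl⟩
      have : hh.choose = p := e.injective (Subtype.ext hh.choose_spec)
      show (if h : ∃ p' : P c, (e p').1 = (e p).1 then h.choose.1 else _) = p.1
      rw [dif_pos hh, this]
    have fP : ∀ n, f n ∈ P c := by
      intro n
      by_cases hh : ∃ p : P c, (e p).1 = n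
      · obtain ⟨p, rfl⟩ := hh
        rw [fe]
        exact p.2
      · show (if h : ∃ p : P c, (e p).1 = n then h.choose.1
          else if zpat Z n ∈ P c then zpat Z n else p0) ∈ P c
        rw [dif_neg hh]
        split_ifs with h4
        · exact h4
        · exact hp0
    refine ⟨f, ?_, ?_⟩
    · refine ((Set.finite_range fun p : P c => (e p).1).union h3).subset ?_
      rintro n ⟨hn, hne⟩
      by_cases hh : ∃ p : P c, (e p).1 = n
      · exact Or.inl hh
      · refine Or.inr ⟨hn, fun h4 => hne ?_⟩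
        show (if h : ∃ p : P c, (e p).1 = n then h.choose.1
          else if zpat Z n ∈ P c then zpat Z n else p0) = zpat Z n
        rw [dif_neg hh, if_pos h4]
    · apply Set.Subset.antisymm
      · rintro _ ⟨n, _, rfl⟩
        exact fP n
      · intro p hp
        exact ⟨(e ⟨p, hp⟩).1, (e ⟨p, hp⟩).2, fe ⟨p, hp⟩⟩
  · refine ⟨zpat Z, ?_, h.symm⟩
    simp
  · refine ⟨fun _ => z, h1.subset fun n hn => hn.1, ?_⟩
    rw [hz]
    exact h2.image_const z

/-- finite changes of `Z`, separately in every cell of the partition given by `q` -/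
theorem adjust {Pos : Type} [Finite Pos] {m : ℕ} (q : ℕ → Pos) (Z : Fin m → Set ℕ)
    (hZ : ∀ i, RE (Z i)) (P : Pos → Set (Fin m → Bool))
    (h : ∀ c, ({n | q n = c}.Infinite ∧ (P c).Nonempty ∧
          {n | q n = c ∧ zpat Z n ∉ P c}.Finite) ∨
        (P c = zpat Z '' {n | q n = c}) ∨
        ({n | q n = c}.Finite ∧ {n | q n = c}.Nonempty ∧ ∃ z, P c = {z})) :
    ∃ Z' : Fin m → Set ℕ, (∀ i, RE (Z' i)) ∧ ∀ c, zpat Z' '' {n | q n = c} = P c := by
  choose f hf1 hf2 using fun c => pat1_cell q Z P c (h c)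
  have hz : ∀ n, zpat (fun i => {n | f (q n) n i = true}) n = f (q n) n := by
    intro n
    funext i
    simp [zpat]
  refine ⟨fun i => {n | f (q n) n i = true}, fun i => ?_, fun c => ?_⟩
  · refine re_of_finite_diff (hZ i) ((Set.finite_iUnion hf1).subset ?_)
    intro n hn
    refine Set.mem_iUnion.2 ⟨q n, rfl, fun e => hn ?_⟩
    show n ∈ Z i ↔ f (q n) n i = true
    rw [e]
    simp [zpat]
  · rw [← hf2 c]
    apply Set.image_congr
    intro n hn
    rw [hz n]
    have : q n = c := hn
    rw [this]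

end Pool.Agent.GO
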